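import Pool.Agent.H76.VC.Defs

/-!
# Abelian groups are in the class
-/

set_option autoImplicit false

namespace Pool.Agent.H76.VC

open Pool.Agent.H98.FJ Pool.Agent.H93.TR

variable {C : (G : Type) → [Group G] → Prop}

theorem of_fg (hC : Inherits C) (G : Type) [Group G] (h : ∀ H : Subgroup G, H.FG → C H) : C G := by
  classical
  refine hC.union (ι := Finset G) (fun s => Subgroup.closure (s : Set G)) ?_ ?_ ?_
  · intro s t hst
    exact Subgroup.closure_mono (by exact_mod_cast hst)
  · intro g
    exact ⟨{g}, Subgroup.subset_closure (by simp)⟩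
  · intro s
    exact h _ ⟨s, rfl⟩

/-- two groups as a family -/
abbrev two (A B : Type) : Bool → Type
  | true => A
  | false => B

instance twoGroup (A B : Type) [Group A] [Group B] : ∀ b, Group (two A B b)
  | true => (inferInstance : Group A)
  | false => (inferInstance : Group B)

theorem prod_mem (hC : Inherits C) {A B : Type} [Group A] [Group B] (hA : C A) (hB : C B) :
    C (A × B) := by
  have hG : ∀ b, C (two A B b) := fun b => by
    cases b
    · exact hB
    · exact hA
  have h := hC.pi Bool inferInstance (two A B) hG
  let g : A × B → ∀ b, two A B b := fun p b => match b with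
    | true => p.1
    | false => p.2
  let φ : A × B →* ∀ b, two A B b :=
    { toFun := g
      map_one' := by
        funext b
        cases b <;> rfl
      map_mul' := by
        intro p q
        funext b
        cases b <;> rfl }
  refine hC.of_injective φ ?_ h
  intro p q hpq
  have h1 : g p = g q := hpq
  exact Prod.ext (congrFun h1 true) (congrFun h1 false)

theorem ab_mem (hC : Inherits C) (A : Type) [Group A] (h : ∀ a b : A, a * b = b * a) : C A := by
  refine of_fg hC A (fun H hH => ?_)
  let _ : CommGroup H :=
    { (inferInstance : Group H) with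
      mul_comm := fun a b => Subtype.ext (h a.1 b.1) }
  have h1 : Group.FG H := (Group.fg_iff_subgroup_fg H).2 hH
  obtain ⟨ι, j, _, _, p, hp, e, ⟨f⟩⟩ := CommGroup.equiv_free_prod_prod_multiplicative_zmod H
  have hZ : C (j → Multiplicative ℤ) :=
    hC.pi j inferInstance (fun _ => Multiplicative ℤ) (fun _ => hC.int)
  have hne : ∀ i, NeZero (p i ^ e i) := fun i => ⟨pow_ne_zero _ (hp i).ne_zero⟩
  have hfi : ∀ i, Finite (Multiplicative (ZMod (p i ^ e i))) := fun i =>
    (inferInstance : Finite (ZMod (p i ^ e i)))
  have hF : C ((i : ι) → Multiplicative (ZMod (p i ^ e i))) := hC.fin _ inferInstance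
  exact hC.iso _ _ f.symm (prod_mem hC hZ hF)

theorem vcyc_mem (hC : Inherits C) (A : Type) [Group A] (h : VirtuallyCyclic A) : C A := by
  obtain ⟨v, hv⟩ := h
  refine hC.index A _ hv (ab_mem hC _ ?_)
  rintro ⟨_, m, rfl⟩ ⟨_, n, rfl⟩
  exact Subtype.ext (zpow_mul_comm v m n)

end Pool.Agent.H76.VC
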