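import Pool.Agent.H76.VC.Cen

/-!
# Commensurators of balanced elements
-/

set_option autoImplicit false

namespace Pool.Agent.H76.VC

open Pool.Agent.H98.FJ Pool.Agent.H93.TR

variable {C : (G : Type) → [Group G] → Prop}

section res

variable {G V : Type} [Group G] [MulAction G V] {X : SimpleGraph V}

theorem res_onTree (hX : OnTree G X) (K : Subgroup G) : OnTree K X :=
  ⟨hX.tree, fun g v w h => hX.adj (g : G) v w h⟩

theorem res_noInv (hinv : NoInv X (⊤ : Subgroup G)) (K : Subgroup G) :
    NoInv X (⊤ : Subgroup K) := by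
  intro n _ v w h1 h2 h3
  exact hinv (n : G) trivial v w h1 h2 h3

theorem res_stab (hC : Inherits C) (hv : ∀ v : V, C (MulAction.stabilizer G v)) (K : Subgroup G)
    (v : V) : C (MulAction.stabilizer K v) := by
  let ψ : MulAction.stabilizer K v →* MulAction.stabilizer G v :=
    { toFun := fun h => ⟨(h.1 : G), h.2⟩
      map_one' := rfl
      map_mul' := fun _ _ => rfl }
  refine hC.of_injective ψ ?_ (hv v)
  intro a b hab
  have h1 : ((a.1 : K) : G) = b.1 := congrArg (fun z : MulAction.stabilizer G v => (z : G)) hab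
  exact Subtype.ext (Subtype.ext h1)

theorem res_edge (hE : EdgeVC G X) (K : Subgroup G) : EdgeVC K X := by
  intro v w h
  let ψ : (MulAction.stabilizer K v ⊓ MulAction.stabilizer K w : Subgroup K) →*
      (MulAction.stabilizer G v ⊓ MulAction.stabilizer G w : Subgroup G) :=
    { toFun := fun h => ⟨(h.1 : G), h.2⟩
      map_one' := rfl
      map_mul' := fun _ _ => rfl }
  refine vc_of_injective ψ ?_ (hE v w h)
  intro a b hab
  have h1 : ((a.1 : K) : G) = b.1 :=
    congrArg (fun z : (MulAction.stabilizer G v ⊓ MulAction.stabilizer G w : Subgroup G) => (z : G)) hab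
  exact Subtype.ext (Subtype.ext h1)

end res

theorem not_fin_sub {G : Type} [Group G] {K : Subgroup G} {z : K} (h : ¬ IsOfFinOrder (z : G)) :
    ¬ IsOfFinOrder z := by
  intro h1
  apply h
  rw [isOfFinOrder_iff_pow_eq_one] at h1 ⊢
  obtain ⟨n, hn, h2⟩ := h1
  exact ⟨n, hn, congrArg Subtype.val h2⟩

/-- a group with a central element of infinite order which fixes a vertex -/
theorem cen_mem' (hC : Inherits C) (hA : AcylExt C) {G V : Type} [Group G] [MulAction G V]
    {X : SimpleGraph V} (hX : OnTree G X) (hinv : NoInv X (⊤ : Subgroup G))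
    (hv : ∀ v : V, C (MulAction.stabilizer G v)) (hE : EdgeVC G X) (y : G)
    (hy : ∀ g : G, g * y = y * g) (hy0 : ¬ IsOfFinOrder y) (v0 : V) (h0 : y • v0 = v0) : C G := by
  refine of_fg hC G (fun H hH => ?_)
  have hz : (Subgroup.zpowers y).FG := ⟨{y}, by
    rw [Finset.coe_singleton, Subgroup.zpowers_eq_closure]⟩
  have hfg : (H ⊔ Subgroup.zpowers y).FG := hH.sup hz
  have hfg' : Group.FG (H ⊔ Subgroup.zpowers y : Subgroup G) := (Group.fg_iff_subgroup_fg _).2 hfg
  have hyK : y ∈ H ⊔ Subgroup.zpowers y :=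
    (le_sup_right : _ ≤ H ⊔ Subgroup.zpowers y) (Subgroup.mem_zpowers y)
  have h1 : C (H ⊔ Subgroup.zpowers y : Subgroup G) :=
    cen_mem hC hA (res_onTree hX _) (res_noInv hinv _) (res_stab hC hv _) (res_edge hE _) hfg'
      ⟨y, hyK⟩ (fun g => Subtype.ext (hy g.1)) (not_fin_sub hy0) v0 h0
  exact hC.of_injective (Subgroup.inclusion (le_sup_left : H ≤ H ⊔ Subgroup.zpowers y))
    (Subgroup.inclusion_injective _) h1

/-- the virtual centraliser of `z` -/
def VCen {G : Type} [Group G] (z : G) : Subgroup G where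
  carrier := {g | ∃ m : ℤ, m ≠ 0 ∧ g * z ^ m * g⁻¹ = z ^ m}
  one_mem' := ⟨1, one_ne_zero, by simp⟩
  mul_mem' := by
    rintro g h ⟨m, hm, h1⟩ ⟨a, ha, h2⟩
    refine ⟨a * m, mul_ne_zero ha hm, ?_⟩
    have h3 := com_mul h1 h2
    rwa [mul_comm m a] at h3
  inv_mem' := by
    rintro g ⟨m, hm, h1⟩
    exact ⟨m, hm, com_inv h1⟩

section

variable {G V : Type} [Group G] [MulAction G V] {X : SimpleGraph V}

theorem centralizer_mem (hC : Inherits C) (hA : AcylExt C) (hX : OnTree G X)
    (hinv : NoInv X (⊤ : Subgroup G)) (hv : ∀ v : V, C (MulAction.stabilizer G v))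
    (hE : EdgeVC G X) (y : G) (hy0 : ¬ IsOfFinOrder y) (v0 : V) (h0 : y • v0 = v0) :
    C (Subgroup.centralizer {y} : Subgroup G) := by
  have hyK : y ∈ (Subgroup.centralizer {y} : Subgroup G) := by
    rw [Subgroup.mem_centralizer_singleton_iff]
  refine cen_mem' hC hA (res_onTree hX _) (res_noInv hinv _) (res_stab hC hv _) (res_edge hE _)
    ⟨y, hyK⟩ (fun g => Subtype.ext ?_) (not_fin_sub hy0) v0 h0
  exact (Subgroup.mem_centralizer_singleton_iff.1 g.2)

theorem vcen_mem (hC : Inherits C) (hA : AcylExt C) (hX : OnTree G X)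
    (hinv : NoInv X (⊤ : Subgroup G)) (hv : ∀ v : V, C (MulAction.stabilizer G v))
    (hE : EdgeVC G X) (z : G) (hz : ¬ IsOfFinOrder z) (v0 : V) (h0 : z • v0 = v0) :
    C (VCen z) := by
  refine hC.union (G := VCen z) (ι := ℕ)
    (fun n => (Subgroup.centralizer {z ^ (n.factorial : ℤ)} : Subgroup G).subgroupOf (VCen z)) ?_ ?_ ?_
  · intro n m hnm x hx
    rw [Subgroup.mem_subgroupOf, Subgroup.mem_centralizer_singleton_iff] at hx ⊢
    obtain ⟨k, hk⟩ := Nat.factorial_dvd_factorial hnm
    have h1 : Commute (x : G) (z ^ (n.factorial : ℤ)) := hx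
    have h2 := h1.zpow_right (k : ℤ)
    rw [← zpow_mul] at h2
    rw [hk]
    push_cast
    exact h2
  · rintro ⟨g, m, hm, h1⟩
    refine ⟨m.natAbs, ?_⟩
    rw [Subgroup.mem_subgroupOf, Subgroup.mem_centralizer_singleton_iff]
    have h2 : m ∣ (m.natAbs.factorial : ℤ) := by
      rw [← Int.natAbs_dvd]
      exact_mod_cast Nat.dvd_factorial (Int.natAbs_pos.2 hm) le_rfl
    obtain ⟨k, hk⟩ := h2
    have h3 : Commute g (z ^ m) := by
      have h4 : g * z ^ m = z ^ m * g := by
        rw [← mul_inv_eq_iff_eq_mul]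
        exact h1
      exact h4
    have h5 := h3.zpow_right k
    rw [← zpow_mul, ← hk] at h5
    exact h5
  · intro n
    have hn : (n.factorial : ℤ) ≠ 0 := by exact_mod_cast Nat.factorial_ne_zero n
    have h1 := centralizer_mem hC hA hX hinv hv hE (z ^ (n.factorial : ℤ)) (not_fin_zpow hz hn) v0
      (zpow_fix h0 _)
    refine hC.of_injective (H := (Subgroup.centralizer {z ^ (n.factorial : ℤ)} : Subgroup G))
      { toFun := fun x => ⟨x.1.1, x.2⟩
        map_one' := rfl
        map_mul' := fun _ _ => rfl } ?_ h1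
    intro a b hab
    exact Subtype.ext (Subtype.ext (congrArg
      (fun w : (Subgroup.centralizer {z ^ (n.factorial : ℤ)} : Subgroup G) => (w : G)) hab))

/-- the commensurator of a balanced element of infinite order which fixes a vertex -/
theorem com_mem (hC : Inherits C) (hA : AcylExt C) (hX : OnTree G X)
    (hinv : NoInv X (⊤ : Subgroup G)) (hv : ∀ v : V, C (MulAction.stabilizer G v))
    (hE : EdgeVC G X) (z : G) (hz : ¬ IsOfFinOrder z) (hb : Bal z) (v0 : V) (h0 : z • v0 = v0) :
    C (Com z) := by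
  classical
  have key : ∀ g ∈ Com z, ∃ m : ℤ, m ≠ 0 ∧
      (g * z ^ m * g⁻¹ = z ^ m ∨ g * z ^ m * g⁻¹ = z ^ (-m)) := by
    rintro g ⟨m, n, hm, hn, h1⟩
    refine ⟨m, hm, ?_⟩
    rcases abs_eq_abs.1 (hb g m n hm hn h1) with h2 | h2
    · left
      rw [h1, ← h2]
    · right
      rw [h1, h2, neg_neg]
  have h2 : ((VCen z).subgroupOf (Com z)).FiniteIndex := by
    have h3 : Finite (Com z ⧸ (VCen z).subgroupOf (Com z)) := by
      refine Finite.of_injective
        (fun q : Com z ⧸ (VCen z).subgroupOf (Com z) => (q = QuotientGroup.mk 1 : Prop)) ?_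
      intro q q' hqq
      have hqq' : (q = QuotientGroup.mk 1) = (q' = QuotientGroup.mk 1) := hqq
      by_cases hq : q = QuotientGroup.mk 1
      · have hq' : q' = QuotientGroup.mk 1 := by rwa [← hqq']
        rw [hq, hq']
      · have hq' : ¬ q' = QuotientGroup.mk 1 := by rwa [← hqq']
        induction q using QuotientGroup.induction_on with
        | H x =>
          induction q' using QuotientGroup.induction_on with
          | H x' =>
            have hx : ∀ x : Com z, ¬ ((x : Com z ⧸ (VCen z).subgroupOf (Com z)) =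
                QuotientGroup.mk 1) → ∃ m : ℤ, m ≠ 0 ∧ (x : G) * z ^ m * (x : G)⁻¹ = z ^ (-m) := by
              intro x hx
              obtain ⟨m, hm, h4 | h4⟩ := key x.1 x.2
              · exfalso
                apply hx
                refine ((QuotientGroup.eq).2 ?_).symm
                rw [inv_one, one_mul, Subgroup.mem_subgroupOf]
                exact ⟨m, hm, h4⟩
              · exact ⟨m, hm, h4⟩
            obtain ⟨m, hm, h4⟩ := hx x hq
            obtain ⟨n, hn, h5⟩ := hx x' hq'
            refine (QuotientGroup.eq).2 ?_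
            rw [Subgroup.mem_subgroupOf]
            have h6 := com_mul (com_inv h4) h5
            refine ⟨n * -m, mul_ne_zero hn (neg_ne_zero.2 hm), ?_⟩
            have h7 : ((x⁻¹ * x' : Com z) : G) = (x : G)⁻¹ * (x' : G) := rfl
            rw [h7, h6]
            congr 1
            ring
    exact Subgroup.finiteIndex_of_finite_quotient
  refine hC.index _ _ h2 ?_
  refine hC.of_injective (H := VCen z)
    { toFun := fun x => ⟨x.1.1, x.2⟩
      map_one' := rfl
      map_mul' := fun _ _ => rfl } ?_ (vcen_mem hC hA hX hinv hv hE z hz v0 h0)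
  intro a b hab
  exact Subtype.ext (Subtype.ext (congrArg (fun w : VCen z => (w : G)) hab))

end

end Pool.Agent.H76.VC
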