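import Pool.Agent.H76.VC.Defs

/-!
# Virtually cyclic groups
-/

set_option autoImplicit false

namespace Pool.Agent.H76.VC

open Pool.Agent.H98.FJ Pool.Agent.H93.TR

theorem finiteIndex_comap' {A B : Type} [Group A] [Group B] (f : A →* B) (H : Subgroup B)
    (h : H.FiniteIndex) : (H.comap f).FiniteIndex := by
  constructor
  rw [Subgroup.index_comap]
  have h1 : (H.subgroupOf f.range).FiniteIndex := inferInstance
  exact h1.index_ne_zero

theorem vc_of_injective {A B : Type} [Group A] [Group B] (f : A →* B)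
    (hf : Function.Injective f) (hB : VirtuallyCyclic B) : VirtuallyCyclic A := by
  obtain ⟨v, hv⟩ := hB
  have h1 := finiteIndex_comap' f _ hv
  have h2 : IsCyclic ((Subgroup.zpowers v).comap f) := by
    refine isCyclic_of_injective (G' := Subgroup.zpowers v)
      ((f.comp (Subgroup.subtype _)).codRestrict (Subgroup.zpowers v) (fun x => x.2)) ?_
    intro a b hab
    exact Subtype.ext (hf (congrArg Subtype.val hab))
  obtain ⟨w, hw⟩ := h2.exists_generator
  refine ⟨w.1, ?_⟩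
  have h3 : (Subgroup.zpowers v).comap f ≤ Subgroup.zpowers w.1 := by
    intro x hx
    obtain ⟨k, hk⟩ := hw ⟨x, hx⟩
    exact ⟨k, congrArg Subtype.val hk⟩
  exact Subgroup.finiteIndex_of_le h3

theorem not_fin_pow {G : Type} [Group G] {z : G} (hz : ¬ IsOfFinOrder z) {m : ℤ}
    (h : z ^ m = 1) : m = 0 := by
  have h1 := injective_zpow_iff_not_isOfFinOrder.2 hz
  exact h1 (by simpa using h)

theorem not_fin_zpow {G : Type} [Group G] {z : G} (hz : ¬ IsOfFinOrder z) {m : ℤ} (hm : m ≠ 0) :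
    ¬ IsOfFinOrder (z ^ m) := by
  intro h
  rw [isOfFinOrder_iff_zpow_eq_one] at h
  obtain ⟨n, hn, h1⟩ := h
  rw [← zpow_mul] at h1
  have h2 := not_fin_pow hz h1
  rcases mul_eq_zero.1 h2 with h3 | h3
  · exact hm h3
  · exact hn h3

theorem vc_gen {G : Type} [Group G] {E : Subgroup G} (hE : VirtuallyCyclic E) :
    ∃ v ∈ E, ∀ z ∈ E, ∃ (m : ℕ) (k : ℤ), 0 < m ∧ z ^ m = v ^ k := by
  obtain ⟨v, hv⟩ := hE
  refine ⟨v.1, v.2, fun z hz => ?_⟩
  obtain ⟨n, hn, -, h1⟩ := Subgroup.exists_pow_mem_of_index_ne_zero hv.index_ne_zero ⟨z, hz⟩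
  obtain ⟨k, hk⟩ := h1
  exact ⟨n, k, hn, (congrArg Subtype.val hk).symm⟩

/-- two elements of infinite order have a common power -/
theorem vc_pow {G : Type} [Group G] {E : Subgroup G} (hE : VirtuallyCyclic E) {z w : G}
    (hzE : z ∈ E) (hwE : w ∈ E) (hz : ¬ IsOfFinOrder z) (hw : ¬ IsOfFinOrder w) :
    ∃ m n : ℤ, m ≠ 0 ∧ n ≠ 0 ∧ z ^ m = w ^ n := by
  obtain ⟨v, -, hv⟩ := vc_gen hE
  obtain ⟨m, k, hm, h1⟩ := hv z hzE
  obtain ⟨n, l, hn, h2⟩ := hv w hwE
  have hk : k ≠ 0 := by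
    rintro rfl
    rw [zpow_zero] at h1
    exact hz (isOfFinOrder_iff_pow_eq_one.2 ⟨m, hm, h1⟩)
  have hl : l ≠ 0 := by
    rintro rfl
    rw [zpow_zero] at h2
    exact hw (isOfFinOrder_iff_pow_eq_one.2 ⟨n, hn, h2⟩)
  refine ⟨m * l, n * k, mul_ne_zero (by positivity) hl, mul_ne_zero (by positivity) hk, ?_⟩
  rw [zpow_mul, zpow_mul, zpow_natCast, zpow_natCast, h1, h2, ← zpow_mul, ← zpow_mul, mul_comm]

/-- an element of infinite order generates a subgroup of finite index -/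
theorem vc_index {G : Type} [Group G] {E : Subgroup G} (hE : VirtuallyCyclic E) {y : G}
    (hyE : y ∈ E) (hy : ¬ IsOfFinOrder y) :
    ∃ s : Finset G, ∀ g ∈ E, ∃ t ∈ s, ∃ k : ℤ, g = t * y ^ k := by
  classical
  obtain ⟨v, hv⟩ := hE
  obtain ⟨a, ha, -, b, hb⟩ := Subgroup.exists_pow_mem_of_index_ne_zero hv.index_ne_zero ⟨y, hyE⟩
  have hb' : (v : G) ^ b = y ^ a := congrArg Subtype.val hb
  have hb0 : b ≠ 0 := by
    rintro rfl
    rw [zpow_zero] at hb'
    exact hy (isOfFinOrder_iff_pow_eq_one.2 ⟨a, ha, hb'.symm⟩)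
  have hfin : Finite (E ⧸ Subgroup.zpowers v) := inferInstance
  have hft : Fintype (E ⧸ Subgroup.zpowers v) := Fintype.ofFinite _
  refine ⟨(Finset.univ ×ˢ Finset.range b.natAbs : Finset ((E ⧸ Subgroup.zpowers v) × ℕ)).image
    (fun p => ((p.1.out : E) : G) * (v : G) ^ p.2), fun g hg => ?_⟩
  obtain ⟨⟨h, j, hj⟩, h1⟩ := QuotientGroup.mk_out_eq_mul (Subgroup.zpowers v) (⟨g, hg⟩ : E)
  have hj' : v ^ j = h := hj
  have h2 : ((QuotientGroup.mk (⟨g, hg⟩ : E) : E ⧸ Subgroup.zpowers v).out : G) = g * (v : G) ^ j := by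
    have h3 := congrArg Subtype.val h1
    rw [h3]
    change g * ((h : E) : G) = g * (v : G) ^ j
    rw [← hj']
    rfl
  refine ⟨_, Finset.mem_image.2 ⟨(QuotientGroup.mk (⟨g, hg⟩ : E), ((-j) % b).toNat),
    Finset.mem_product.2 ⟨Finset.mem_univ _, Finset.mem_range.2 ?_⟩, rfl⟩, a * ((-j) / b), ?_⟩
  · have h3 := Int.emod_nonneg (-j) hb0
    have h4 := Int.emod_lt_abs (-j) hb0
    rw [Int.abs_eq_natAbs] at h4
    omega
  · change g = (((QuotientGroup.mk (⟨g, hg⟩ : E) : E ⧸ Subgroup.zpowers v).out : E) : G) *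
      (v : G) ^ ((-j) % b).toNat * y ^ ((a : ℤ) * ((-j) / b))
    rw [h2, zpow_mul, zpow_natCast, ← hb', ← zpow_mul, ← zpow_natCast, Int.toNat_of_nonneg
      (Int.emod_nonneg (-j) hb0), mul_assoc g, ← zpow_add, mul_assoc, ← zpow_add]
    have h5 := Int.emod_add_mul_ediv (-j) b
    have h6 : j + (-j) % b + b * ((-j) / b) = 0 := by linarith
    rw [h6, zpow_zero, mul_one]

/-- the torsion subgroups are finite, of bounded order -/
theorem vc_bound {G : Type} [Group G] {E : Subgroup G} (hE : VirtuallyCyclic E) :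
    ∃ n : ℕ, ∀ F : Subgroup G, F ≤ E → (∀ x ∈ F, IsOfFinOrder x) →
      ∃ s : Finset G, s.card ≤ n ∧ ∀ x ∈ F, x ∈ s := by
  classical
  by_cases h : ∃ y ∈ E, ¬ IsOfFinOrder y
  · obtain ⟨y, hyE, hy⟩ := h
    obtain ⟨s, hs⟩ := vc_index hE hyE hy
    refine ⟨s.card, fun F hF ht => ?_⟩
    choose! t ht1 k hk using hs
    have hinj : ∀ x ∈ F, ∀ x' ∈ F, t x = t x' → x = x' := by
      intro x hx x' hx' htt
      have h1 := hk x (hF hx)
      have h2 := hk x' (hF hx')
      have h3 : x⁻¹ * x' = y ^ (k x' - k x) := by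
        calc x⁻¹ * x' = (t x * y ^ k x)⁻¹ * (t x' * y ^ k x') := by rw [← h1, ← h2]
          _ = y ^ (k x' - k x) := by
            rw [htt, mul_inv_rev, mul_assoc, inv_mul_cancel_left, ← zpow_neg, ← zpow_add]
            congr 1
            ring
      have h4 : IsOfFinOrder (y ^ (k x' - k x)) := by
        rw [← h3]
        exact ht _ (F.mul_mem (F.inv_mem hx) hx')
      have h5 : k x' - k x = 0 := by
        by_contra h5
        exact not_fin_zpow hy h5 h4
      rw [h5, zpow_zero] at h3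
      exact inv_mul_eq_one.1 h3
    have hf : (F : Set G).Finite := by
      refine Set.Finite.of_finite_image (f := t) (s.finite_toSet.subset ?_) ?_
      · rintro _ ⟨x, hx, rfl⟩
        exact ht1 x (hF hx)
      · intro x hx x' hx' h1
        exact hinj x hx x' hx' h1
    refine ⟨hf.toFinset, ?_, fun x hx => hf.mem_toFinset.2 hx⟩
    refine Finset.card_le_card_of_injOn t ?_ ?_
    · intro x hx
      exact ht1 x (hF (hf.mem_toFinset.1 hx))
    · intro x hx x' hx' h1
      exact hinj x (hf.mem_toFinset.1 hx) x' (hf.mem_toFinset.1 hx') h1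
  · push Not at h
    obtain ⟨v, hv⟩ := hE
    have h1 : IsOfFinOrder v := by
      have h2 := h v.1 v.2
      rw [isOfFinOrder_iff_pow_eq_one] at h2 ⊢
      obtain ⟨n, hn, h3⟩ := h2
      exact ⟨n, hn, Subtype.ext h3⟩
    have h2 : Finite (Subgroup.zpowers v) := Set.Finite.to_subtype (finite_zpowers.mpr h1)
    have h3 : Finite (E ⧸ Subgroup.zpowers v) := inferInstance
    have h4 : Finite E := Finite.of_equiv _
      (Subgroup.groupEquivQuotientProdSubgroup (s := Subgroup.zpowers v)).symm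
    have h5 : (E : Set G).Finite := Set.toFinite _
    exact ⟨h5.toFinset.card, fun F hF _ => ⟨h5.toFinset, le_rfl,
      fun x hx => h5.mem_toFinset.2 (hF hx)⟩⟩

end Pool.Agent.H76.VC
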