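import Pool.Agent.H76.VC.Defs

/-!
# Paths in trees with a group action
-/

set_option autoImplicit false

namespace Pool.Agent.H76.VC

open Pool.Agent.H98.FJ Pool.Agent.H93.TR

variable {G V : Type} [Group G] [MulAction G V] {X : SimpleGraph V}

/-- an element which fixes the ends of a path in a tree fixes the path -/
theorem fix_path (hX : OnTree G X) {v w : V} (q : X.Walk v w) (hq : q.IsPath) (g : G)
    (hv : g • v = v) (hw : g • w = w) (i : ℕ) : g • q.getVert i = q.getVert i := by
  let φ : X →g X := ⟨fun x => g • x, fun {a b} h => hX.adj g a b h⟩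
  have hφ : Function.Injective φ := MulAction.injective g
  have h1 : (q.map φ).IsPath := hq.map hφ
  have h2 : ((q.map φ).copy hv hw).IsPath := by
    rw [SimpleGraph.Walk.isPath_copy]
    exact h1
  have h3 : (q.map φ).copy hv hw = q := (hX.tree.existsUnique_path v w).unique h2 hq
  have h4 : ((q.map φ).copy hv hw).getVert i = q.getVert i := by rw [h3]
  rw [SimpleGraph.Walk.getVert_copy, SimpleGraph.Walk.getVert_map] at h4
  exact h4

/-- the geodesic from `v` to `w`; it is fixed by every element which fixes `v` and `w` -/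
theorem exists_path (hX : OnTree G X) (v w : V) :
    ∃ p : ℕ → V, p 0 = v ∧ p (X.dist v w) = w ∧
      (∀ i < X.dist v w, X.Adj (p i) (p (i + 1))) ∧
      (∀ i ≤ X.dist v w, ∀ j ≤ X.dist v w, p i = p j → i = j) ∧
      ∀ g : G, g • v = v → g • w = w → ∀ i, g • p i = p i := by
  obtain ⟨q, hq, hql⟩ := hX.tree.connected.exists_path_of_dist v w
  rw [← hql]
  exact ⟨q.getVert, q.getVert_zero, q.getVert_length,
    fun i hi => q.adj_getVert_succ hi, fun i hi j hj h => hq.getVert_injOn hi hj h,
    fun g hv hw i => fix_path hX q hq g hv hw i⟩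

/-- the walk from `v` to `w` in the tree which is fixed by every element which fixes `v` and `w` -/
theorem fixed_walk (hX : OnTree G X) (v w : V) :
    ∃ q : X.Walk v w, ∀ g : G, g • v = v → g • w = w → ∀ x ∈ q.support, g • x = x := by
  obtain ⟨q, hq, -⟩ := hX.tree.connected.exists_path_of_dist v w
  refine ⟨q, fun g hv hw x hx => ?_⟩
  obtain ⟨i, rfl, -⟩ := SimpleGraph.Walk.mem_support_iff_exists_getVert.1 hx
  exact fix_path hX q hq g hv hw i

/-- the first edge of the path from `v` to `w` -/
theorem first_edge (hX : OnTree G X) {P : SimpleGraph V} (hP : P ≤ X) {v w : V}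
    (hr : P.Reachable v w) (hne : v ≠ w) :
    ∃ a, P.Adj v a ∧ ∀ g : G, g • v = v → g • w = w → g • a = a := by
  classical
  obtain ⟨p, hp⟩ := hr.exists_isPath
  cases p with
  | nil => exact absurd rfl hne
  | @cons _ a _ h q =>
    refine ⟨a, h, fun g hv hw => ?_⟩
    have h1 := fix_path hX ((SimpleGraph.Walk.cons h q).mapLe hP)
      ((SimpleGraph.Walk.isPath_mapLe hP).2 hp) g hv hw 1
    simpa using h1

end Pool.Agent.H76.VC
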