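import Pool.Agent.H76.VC.Path

/-!
# Invariant subtrees

Module VC SUB. Proof. Let `S` be a finite set of generators of `G` and `v0` a vertex. For `s ∈ S` choose a walk `q s` in `X`
from `v0` to `s • v0`. Let `Y0` be the graph on `V` in which `a`, `b` are adjacent if for some `g` and some `s ∈ S` the pair
`g⁻¹ • a`, `g⁻¹ • b` is an edge of `q s` (`s(g⁻¹ • a, g⁻¹ • b) ∈ (q s).edges`); `Y0 ≤ X` is invariant. `v0` and `g • v0` are
connected in `Y0` for all `g` (`Subgroup.closure_induction`). `W` is the component of `v0` in `Y0`, `Y` the restriction of `Y0`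
to `W`. Every edge of `Y` is a translate of an edge of one of the finitely many walks: so `N` exists.
-/

set_option autoImplicit false

namespace Pool.Agent.H76.VC

open Pool.Agent.H98.FJ Pool.Agent.H93.TR

variable {G V : Type} [Group G] [MulAction G V] {X : SimpleGraph V}

/-- a walk in `Y` inside the set `W` is a walk in the induced graph -/
private theorem reach_comap {Y : SimpleGraph V} {W : SubMulAction G V} {v w : V} (q : Y.Walk v w)
    (hq : ∀ x ∈ q.support, x ∈ W) :
    (Y.comap (fun x : W => (x : V))).Reachable ⟨v, hq v q.start_mem_support⟩ ⟨w, hq w q.end_mem_support⟩ := by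
  induction q with
  | nil => exact SimpleGraph.Reachable.refl _
  | @cons a b c h q ih =>
    have h1 : ∀ x ∈ q.support, x ∈ W := fun x hx => hq x (by
      rw [SimpleGraph.Walk.support_cons]
      exact List.mem_cons_of_mem _ hx)
    have h2 : (Y.comap (fun x : W => (x : V))).Adj ⟨a, hq a (by simp)⟩ ⟨b, h1 b q.start_mem_support⟩ := h
    exact h2.reachable.trans (ih h1)

private theorem comap_acyclic {Y : SimpleGraph V} (hX : X.IsAcyclic) (hY : Y ≤ X) (W : SubMulAction G V) :
    (Y.comap (fun x : W => (x : V))).IsAcyclic :=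
  hX.comap ⟨fun x : W => (x : V), fun {_ _} h => hY h⟩ Subtype.val_injective

/-- the translates of the edges of the walks `q s`, `s ∈ S` -/
private def spanG (X : SimpleGraph V) (S : Set G) (v0 : V) (q : ∀ s : G, X.Walk v0 (s • v0)) :
    SimpleGraph V where
  Adj a b := ∃ g : G, ∃ s ∈ S, s(g⁻¹ • a, g⁻¹ • b) ∈ (q s).edges
  symm := ⟨by
    rintro a b ⟨g, s, hs, h⟩
    exact ⟨g, s, hs, by rwa [Sym2.eq_swap]⟩⟩
  loopless := ⟨by
    rintro a ⟨g, s, hs, h⟩
    exact ((q s).adj_of_mem_edges h).ne rfl⟩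

private theorem spanG_le (X : SimpleGraph V) (S : Set G) (v0 : V) (q : ∀ s : G, X.Walk v0 (s • v0))
    (hX : ∀ (g : G) (a b : V), X.Adj a b → X.Adj (g • a) (g • b)) : spanG X S v0 q ≤ X := by
  rintro a b ⟨g, s, hs, h⟩
  have h1 := hX g _ _ ((q s).adj_of_mem_edges h)
  rwa [smul_inv_smul, smul_inv_smul] at h1

private theorem spanG_smul {X : SimpleGraph V} {S : Set G} {v0 : V} {q : ∀ s : G, X.Walk v0 (s • v0)} (g : G) {a b : V}
    (h : (spanG X S v0 q).Adj a b) : (spanG X S v0 q).Adj (g • a) (g • b) := by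
  obtain ⟨h', s, hs, h1⟩ := h
  refine ⟨g * h', s, hs, ?_⟩
  rwa [mul_inv_rev, mul_smul, mul_smul, inv_smul_smul, inv_smul_smul]

private theorem spanG_reach {X : SimpleGraph V} {S : Set G} {v0 : V} {q : ∀ s : G, X.Walk v0 (s • v0)} (g : G) {a b : V}
    (h : (spanG X S v0 q).Reachable a b) : (spanG X S v0 q).Reachable (g • a) (g • b) := by
  obtain ⟨p⟩ := h
  induction p with
  | nil => exact SimpleGraph.Reachable.refl _
  | cons h p ih => exact (spanG_smul g h).reachable.trans ih

private theorem spanG_all {X : SimpleGraph V} {S : Set G} {v0 : V} {q : ∀ s : G, X.Walk v0 (s • v0)} (hS : Subgroup.closure S = ⊤) (g : G) :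
    (spanG X S v0 q).Reachable v0 (g • v0) := by
  have hg : g ∈ Subgroup.closure S := by
    rw [hS]
    exact Subgroup.mem_top g
  induction hg using Subgroup.closure_induction with
  | mem s hs =>
    refine ⟨(q s).transfer (spanG X S v0 q) fun e he => ?_⟩
    induction e using Sym2.ind with
    | _ a b =>
      rw [SimpleGraph.mem_edgeSet]
      exact ⟨1, s, hs, by simpa using he⟩
  | one => rw [one_smul]
  | mul a b _ _ ha hb =>
    rw [mul_smul]
    exact ha.trans (spanG_reach a hb)
  | inv a _ ha =>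
    have h1 := spanG_reach a⁻¹ ha
    rw [inv_smul_smul] at h1
    exact h1.symm

/-- A finitely generated group acting on a tree `X` acts on a subtree `Y` with finitely many orbits of edges. The latter is
expressed as follows: if `B n` are invariant relations, increasing with `n`, and for every edge `(a, b)` of `X` one has
`B n a b` for some `n`, then there is one `N` with `B N a b` for all edges `(a, b)` of `Y`. -/
theorem exists_subtree (hX : OnTree G X) (hG : Group.FG G) :
    ∃ (W : SubMulAction G V) (Y : SimpleGraph W), OnTree G Y ∧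
      (∀ a b : W, Y.Adj a b → X.Adj (a : V) (b : V)) ∧
      ∀ B : ℕ → V → V → Prop, (∀ (m n : ℕ) (a b : V), m ≤ n → B m a b → B n a b) →
        (∀ (n : ℕ) (g : G) (a b : V), B n a b → B n (g • a) (g • b)) →
        (∀ a b : V, X.Adj a b → ∃ n, B n a b) →
        ∃ N : ℕ, ∀ a b : W, Y.Adj a b → B N (a : V) (b : V) := by
  classical
  obtain ⟨S, hS, hSf⟩ := Group.fg_iff.1 hG
  obtain ⟨v0⟩ := hX.tree.connected.nonempty
  have hw : ∀ s : G, Nonempty (X.Walk v0 (s • v0)) := fun s => hX.tree.connected.preconnected v0 (s • v0)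
  let q : ∀ s : G, X.Walk v0 (s • v0) := fun s => (hw s).some
  let Y0 : SimpleGraph V := spanG X S v0 q
  let W : SubMulAction G V :=
    { carrier := {v | Y0.Reachable v0 v}
      smul_mem' := fun g v (hv : Y0.Reachable v0 v) => (spanG_all hS g).trans (spanG_reach g hv) }
  have hWmem : ∀ v, v ∈ W ↔ Y0.Reachable v0 v := fun v => Iff.rfl
  have hle : Y0 ≤ X := spanG_le X S v0 q hX.adj
  have hv0 : v0 ∈ W := SimpleGraph.Reachable.refl _
  refine ⟨W, Y0.comap (fun x : W => (x : V)), ⟨⟨?_, comap_acyclic hX.tree.isAcyclic hle W⟩, ?_⟩, fun a b h => hle h, ?_⟩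
  · have h1 : ∀ x : W, (Y0.comap (fun x : W => (x : V))).Reachable ⟨v0, hv0⟩ x := by
      rintro ⟨x, hx⟩
      obtain ⟨p⟩ := (hWmem x).1 hx
      exact reach_comap (W := W) p fun y hy => show Y0.Reachable v0 y from ⟨p.takeUntil y hy⟩
    have : Nonempty W := ⟨⟨v0, hv0⟩⟩
    exact ⟨fun x y => (h1 x).symm.trans (h1 y)⟩
  · intro g a b h
    exact spanG_smul g h
  · intro B hmono hinv hex
    have hP : {p : V × V | ∃ s ∈ S, s(p.1, p.2) ∈ (q s).edges}.Finite := by
      refine (Set.Finite.biUnion hSf fun s _ =>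
        ((List.finite_toSet (q s).support).prod (List.finite_toSet (q s).support))).subset ?_
      rintro ⟨a, b⟩ ⟨s, hs, h⟩
      refine Set.mem_biUnion hs ⟨?_, ?_⟩
      · exact (q s).fst_mem_support_of_mem_edges h
      · exact (q s).snd_mem_support_of_mem_edges h
    have h1 : ∀ p : V × V, ∃ n, (∃ s ∈ S, s(p.1, p.2) ∈ (q s).edges) → B n p.1 p.2 := by
      intro p
      by_cases h : ∃ s ∈ S, s(p.1, p.2) ∈ (q s).edges
      · obtain ⟨s, hs, h2⟩ := h
        obtain ⟨n, hn⟩ := hex p.1 p.2 ((q s).adj_of_mem_edges h2)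
        exact ⟨n, fun _ => hn⟩
      · exact ⟨0, fun h' => absurd h' h⟩
    choose n hn using h1
    refine ⟨hP.toFinset.sup n, ?_⟩
    rintro a b ⟨g, s, hs, h2⟩
    have h3 : B (hP.toFinset.sup n) (g⁻¹ • (a : V)) (g⁻¹ • (b : V)) := by
      refine hmono _ _ _ _ ?_ (hn (g⁻¹ • (a : V), g⁻¹ • (b : V)) ⟨s, hs, h2⟩)
      exact Finset.le_sup (f := n) (hP.mem_toFinset.2 ⟨s, hs, h2⟩)
    have h4 := hinv _ g _ _ h3
    rwa [smul_inv_smul, smul_inv_smul] at h4

/-- the fixed points of a central element form an invariant subtree -/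
theorem fix_tree (hX : OnTree G X) (y : G) (hy : ∀ g : G, g * y = y * g) (v0 : V)
    (h0 : y • v0 = v0) :
    ∃ W : SubMulAction G V, (∀ v : V, v ∈ W ↔ y • v = v) ∧
      OnTree G (X.comap (fun w : W => (w : V))) := by
  let W : SubMulAction G V :=
    { carrier := {v | y • v = v}
      smul_mem' := fun g v (hv : y • v = v) => by
        change y • g • v = g • v
        rw [← mul_smul, ← hy g, mul_smul, hv] }
  have hWmem : ∀ v, v ∈ W ↔ y • v = v := fun v => Iff.rfl
  refine ⟨W, hWmem, ⟨⟨?_, comap_acyclic hX.tree.isAcyclic le_rfl W⟩, ?_⟩⟩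
  · have : Nonempty W := ⟨⟨v0, h0⟩⟩
    refine ⟨?_⟩
    rintro ⟨a, ha⟩ ⟨b, hb⟩
    obtain ⟨p, hp⟩ := fixed_walk hX a b
    exact reach_comap p fun x hx => hp y ha hb x hx
  · intro g a b h
    exact hX.adj g _ _ h

end Pool.Agent.H76.VC
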