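import Pool.Agent.H76.VC.Cls
import Pool.Agent.H76.VC.Sub
import Pool.Agent.H76.VC.Ab

/-!
# Centralisers of elements of infinite order with a fixed vertex
-/

set_option autoImplicit false

namespace Pool.Agent.H76.VC

open Pool.Agent.H98.FJ Pool.Agent.H93.TR

theorem countable_cl {G : Type} [Group G] {s : Set G} (hs : s.Countable) :
    (Subgroup.closure s : Set G).Countable := by
  have h1 : (s ∪ s⁻¹).Countable := hs.union (hs.preimage inv_injective)
  have h2 : Countable (s ∪ s⁻¹ : Set G) := h1.to_subtype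
  refine Set.Countable.mono ?_
    (Set.countable_range fun l : List (s ∪ s⁻¹ : Set G) => (l.map Subtype.val).prod)
  intro x hx
  have h3 : x ∈ Submonoid.closure (s ∪ s⁻¹) := by
    rw [← Subgroup.closure_toSubmonoid]
    exact hx
  obtain ⟨l, hl, hp⟩ := Submonoid.exists_list_of_mem_closure h3
  lift l to List (s ∪ s⁻¹ : Set G) using hl
  exact ⟨l, hp⟩

theorem countable_of_fg {G : Type} [Group G] (hG : Group.FG G) : Countable G := by
  obtain ⟨S, hS⟩ := hG.out
  have h2 := countable_cl S.countable_toSet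
  rw [hS] at h2
  exact Set.countable_univ_iff.mp h2

variable {C : (G : Type) → [Group G] → Prop}

/-- a central extension of a virtually cyclic group by a cyclic group is in the class -/
theorem pre_mem (hC : Inherits C) {G Q : Type} [Group G] [Group Q] (p : G →* Q)
    (hp : Function.Surjective p) (y : G) (hy : ∀ g : G, g * y = y * g)
    (hk : ∀ g : G, p g = 1 → g ∈ Subgroup.zpowers y) (U : Subgroup Q) (hU : VirtuallyCyclic U) :
    C (U.comap p) := by
  obtain ⟨u, hu⟩ := hU
  obtain ⟨x, hx⟩ := hp u.1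
  let f : U.comap p →* U := (p.comp (Subgroup.subtype _)).codRestrict U (fun g => g.2)
  have hf : ∀ g : U.comap p, (f g).1 = p g.1 := fun g => rfl
  refine hC.index _ ((Subgroup.zpowers u).comap f) (finiteIndex_comap' f _ hu) (ab_mem hC _ ?_)
  have key : ∀ g ∈ (Subgroup.zpowers u).comap f, ∃ i j : ℤ, (g : G) = x ^ i * y ^ j := by
    intro g hg
    obtain ⟨i, hi⟩ := hg
    have hi' : u.1 ^ i = p g.1 := congrArg Subtype.val hi
    have h1 : p (x ^ (-i) * g.1) = 1 := by
      rw [map_mul, map_zpow, hx, ← hi', ← zpow_add, neg_add_cancel, zpow_zero]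
    obtain ⟨j, hj⟩ := hk _ h1
    refine ⟨i, j, ?_⟩
    change y ^ j = x ^ (-i) * g.1 at hj
    rw [hj, ← mul_assoc, ← zpow_add, add_neg_cancel, zpow_zero, one_mul]
  have hyc : ∀ (g : G) (j : ℤ), Commute (y ^ j) g := fun g j => by
    have h1 : Commute y g := (hy g).symm
    exact h1.zpow_left j
  rintro ⟨a, ha⟩ ⟨b, hb⟩
  obtain ⟨i, j, h1⟩ := key a ha
  obtain ⟨i', j', h2⟩ := key b hb
  apply Subtype.ext
  apply Subtype.ext
  change a.1 * b.1 = b.1 * a.1
  rw [h1, h2]
  have h3 : Commute (x ^ i * y ^ j) (x ^ i' * y ^ j') := by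
    refine Commute.mul_left (Commute.mul_right ?_ ?_) (hyc _ j)
    · exact (Commute.refl x).zpow_zpow i i'
    · exact (hyc _ j').symm
  exact h3

/-- a finitely generated group with a central element of infinite order which fixes a vertex -/
theorem cen_mem (hC : Inherits C) (hA : AcylExt C) {G V : Type} [Group G] [MulAction G V]
    {X : SimpleGraph V} (hX : OnTree G X) (hinv : NoInv X (⊤ : Subgroup G))
    (hv : ∀ v : V, C (MulAction.stabilizer G v)) (hE : EdgeVC G X) (hfg : Group.FG G) (y : G)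
    (hy : ∀ g : G, g * y = y * g) (hy0 : ¬ IsOfFinOrder y) (v0 : V) (h0 : y • v0 = v0) : C G := by
  classical
  obtain ⟨W1, hW1, hX1⟩ := fix_tree hX y hy v0 h0
  obtain ⟨W, Y, hY, hYX, hB⟩ := exists_subtree hX1 hfg
  let B : ℕ → W1 → W1 → Prop := fun n a b => ∃ s : Finset G, s.card ≤ n ∧
    ∀ g : G, g • a = a → g • b = b → ∃ t ∈ s, ∃ k : ℤ, g = t * y ^ k
  have m1 : ∀ (m n : ℕ) (a b : W1), m ≤ n → B m a b → B n a b := by
    rintro m n a b hmn ⟨s, hs, h⟩
    exact ⟨s, hs.trans hmn, h⟩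
  have m2 : ∀ (n : ℕ) (g : G) (a b : W1), B n a b → B n (g • a) (g • b) := by
    rintro n g a b ⟨s, hs, h⟩
    refine ⟨s.image (fun t => g * t * g⁻¹), Finset.card_image_le.trans hs, ?_⟩
    intro x hxa hxb
    obtain ⟨t, ht, k, hk⟩ := h (g⁻¹ * x * g)
      (by rw [mul_smul, mul_smul, hxa, inv_smul_smul]) (by rw [mul_smul, mul_smul, hxb, inv_smul_smul])
    refine ⟨g * t * g⁻¹, Finset.mem_image.2 ⟨t, ht, rfl⟩, k, ?_⟩
    have h1 : Commute g⁻¹ (y ^ k) := (show Commute g⁻¹ y from hy g⁻¹).zpow_right k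
    calc x = g * (g⁻¹ * x * g) * g⁻¹ := by group
      _ = g * t * (y ^ k * g⁻¹) := by rw [hk]; group
      _ = g * t * g⁻¹ * y ^ k := by rw [← h1.eq]; group
  have m3 : ∀ a b : W1, (X.comap (fun w : W1 => (w : V))).Adj a b → ∃ n, B n a b := by
    intro a b hab
    obtain ⟨s, hs⟩ := vc_index (hE a.1 b.1 hab) (y := y)
      (Subgroup.mem_inf.2 ⟨(hW1 _).1 a.2, (hW1 _).1 b.2⟩) hy0
    refine ⟨s.card, s, le_rfl, fun g hga hgb => ?_⟩
    exact hs g (Subgroup.mem_inf.2 ⟨congrArg (fun z : W1 => (z : V)) hga,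
      congrArg (fun z : W1 => (z : V)) hgb⟩)
  obtain ⟨N, hN⟩ := hB B m1 m2 m3
  have hcount : Countable G := countable_of_fg hfg
  have hyn : (Subgroup.zpowers y).Normal := by
    refine ⟨?_⟩
    rintro _ ⟨k, rfl⟩ g
    have h1 : Commute g (y ^ k) := (show Commute g y from hy g).zpow_right k
    refine ⟨k, ?_⟩
    change y ^ k = g * y ^ k * g⁻¹
    rw [h1.eq, mul_inv_cancel_right]
  have hker : Subgroup.zpowers y ≤ (MulAction.toPermHom G W).ker := by
    rw [Subgroup.zpowers_le]
    change MulAction.toPermHom G W y = 1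
    refine Equiv.ext (fun w => ?_)
    change y • w = w
    apply Subtype.ext
    exact (Subtype.ext ((hW1 _).1 w.1.2) : y • w.1 = w.1)
  let f : G ⧸ Subgroup.zpowers y →* Equiv.Perm W := QuotientGroup.lift _ (MulAction.toPermHom G W) hker
  let _ : MulAction (G ⧸ Subgroup.zpowers y) W := MulAction.compHom W f
  have hsm : ∀ (g : G) (w : W), (QuotientGroup.mk' (Subgroup.zpowers y) g) • w = g • w :=
    fun g w => rfl
  refine hA G (G ⧸ Subgroup.zpowers y) W (QuotientGroup.mk' _) Y
    (QuotientGroup.mk'_surjective _) hY.tree ?_ ?_ ⟨1, N, ?_⟩ ?_ ?_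
  · intro q v w h
    obtain ⟨g, rfl⟩ := QuotientGroup.mk'_surjective _ q
    rw [hsm, hsm]
    exact hY.adj g v w h
  · intro q v w h h1 h2
    obtain ⟨g, rfl⟩ := QuotientGroup.mk'_surjective _ q
    rw [hsm] at h1 h2
    exact hinv g trivial v.1.1 w.1.1 (hYX v w h) (congrArg (fun z : W => (z.1.1 : V)) h1)
      (congrArg (fun z : W => (z.1.1 : V)) h2)
  · intro v w hd
    have hne : v ≠ w := by
      rintro rfl
      rw [SimpleGraph.dist_self] at hd
      omega
    obtain ⟨a, ha, hfa⟩ := first_edge (G := G) hY (le_refl Y)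
      (hY.tree.connected.preconnected v w) hne
    obtain ⟨s, hs, hs'⟩ := hN v a ha
    refine ⟨s.image (QuotientGroup.mk' (Subgroup.zpowers y)), Finset.card_image_le.trans hs, ?_⟩
    intro q h1 h2
    obtain ⟨g, rfl⟩ := QuotientGroup.mk'_surjective _ q
    rw [hsm] at h1 h2
    have h3 := hfa g h1 h2
    obtain ⟨t, ht, k, hk⟩ := hs' g (congrArg (fun z : W => z.1) h1)
      (congrArg (fun z : W => z.1) h3)
    refine Finset.mem_image.2 ⟨t, ht, ?_⟩
    rw [hk, map_mul, map_zpow]
    have h4 : QuotientGroup.mk' (Subgroup.zpowers y) y = 1 :=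
      (QuotientGroup.eq_one_iff y).2 (Subgroup.mem_zpowers y)
    rw [h4, one_zpow, mul_one]
  · intro w
    refine hC.of_injective (H := MulAction.stabilizer G w.1.1)
      { toFun := fun x => ⟨x.1, ?_⟩
        map_one' := rfl
        map_mul' := fun _ _ => rfl } ?_ (hv w.1.1)
    · have h1 : (QuotientGroup.mk' (Subgroup.zpowers y) x.1) • w = w := x.2
      rw [hsm] at h1
      exact congrArg (fun z : W => (z.1.1 : V)) h1
    · intro a b hab
      exact Subtype.ext (congrArg (fun z : MulAction.stabilizer G w.1.1 => (z : G)) hab)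
  · intro U hU
    refine pre_mem hC _ (QuotientGroup.mk'_surjective _) y hy ?_ U hU
    intro g hg
    exact (QuotientGroup.eq_one_iff g).1 hg

end Pool.Agent.H76.VC
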