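import Pool.Agent.H76.VC.Path

/-!
# Translations of axes in trees

Module VC LIN. An element of which no power `z ^ k`, `k ≠ 0`, fixes a vertex is a translation of an axis.
-/

set_option autoImplicit false

namespace Pool.Agent.H76.VC

open Pool.Agent.H98.FJ Pool.Agent.H93.TR

variable {G V : Type} [Group G] [MulAction G V] {X : SimpleGraph V}

/-- in a tree a vertex has at most one neighbour which is nearer to a given vertex -/
theorem nearer_unique (hX : X.IsTree) {v x a b : V} (ha : X.Adj a x) (hb : X.Adj b x)
    (ha' : X.dist v a + 1 = X.dist v x) (hb' : X.dist v b + 1 = X.dist v x) : a = b := by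
  obtain ⟨p, -, hp⟩ := hX.connected.exists_path_of_dist v a
  obtain ⟨q, -, hq⟩ := hX.connected.exists_path_of_dist v b
  have h1 : (p.concat ha).IsPath := by
    apply SimpleGraph.Walk.isPath_of_length_eq_dist
    rw [SimpleGraph.Walk.length_concat, hp, ha']
  have h2 : (q.concat hb).IsPath := by
    apply SimpleGraph.Walk.isPath_of_length_eq_dist
    rw [SimpleGraph.Walk.length_concat, hq, hb']
  have h3 : p.concat ha = q.concat hb := (hX.existsUnique_path v x).unique h1 h2
  have h4 : (p.concat ha).penultimate = (q.concat hb).penultimate := by rw [h3]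
  rw [SimpleGraph.Walk.penultimate_concat, SimpleGraph.Walk.penultimate_concat] at h4
  exact h4

/-- a walk in a tree without backtracking is a geodesic -/
theorem line_dist (hX : X.IsTree) (p : ℕ → V) (h1 : ∀ i, X.Adj (p i) (p (i + 1)))
    (h2 : ∀ i, p i ≠ p (i + 2)) (n : ℕ) :
    X.dist (p 0) (p n) = n ∧ X.dist (p 0) (p (n + 1)) = n + 1 := by
  induction n with
  | zero =>
    refine ⟨SimpleGraph.dist_self, ?_⟩
    rw [zero_add, SimpleGraph.dist_eq_one_iff_adj]
    exact h1 0
  | succ n ih =>
    refine ⟨ih.2, ?_⟩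
    rcases hX.dist_eq_dist_add_one_of_adj (p 0) (h1 (n + 1)) with h | h
    · exfalso
      apply h2 n
      refine nearer_unique hX (v := p 0) (h1 n) (h1 (n + 1)).symm ?_ ?_
      · rw [ih.1, ih.2]
      · rw [show n + 2 = n + 1 + 1 from rfl]
        omega
    · omega

theorem dist_sm' (hX : OnTree G X) (g : G) (v w : V) :
    X.dist (g • v) (g • w) = X.dist v w := by
  have h : ∀ (g : G) (v w : V), X.dist (g • v) (g • w) ≤ X.dist v w := by
    intro g v w
    obtain ⟨p, -, hp⟩ := hX.tree.connected.exists_path_of_dist v w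
    let φ : X →g X := ⟨fun x => g • x, fun {a b} h => hX.adj g a b h⟩
    rw [← hp, ← SimpleGraph.Walk.length_map φ p]
    exact SimpleGraph.dist_le _
  refine le_antisymm (h g v w) ?_
  have h3 := h g⁻¹ (g • v) (g • w)
  rwa [inv_smul_smul, inv_smul_smul] at h3

/-- an element no power of which fixes a vertex is a translation of an axis -/
theorem linear (hX : OnTree G X) (_hinv : NoInv X (⊤ : Subgroup G)) (z : G)
    (hz : ∀ (k : ℤ) (v : V), z ^ k • v = v → k = 0) :
    ∃ (v : V) (l : ℕ), 1 ≤ l ∧ ∀ N : ℕ, X.dist v (z ^ N • v) = N * l := by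
  classical
  have : Nonempty V := hX.tree.connected.nonempty
  obtain ⟨v, hv⟩ : ∃ v : V, ∀ w : V, X.dist v (z • v) ≤ X.dist w (z • w) := by
    obtain ⟨v, hv⟩ : ∃ v, v ∈ Set.range (fun v : V => X.dist v (z • v)) ∧
        ∀ w ∈ Set.range (fun v : V => X.dist v (z • v)), v ≤ w := by
      have hne : (Set.range (fun v : V => X.dist v (z • v))).Nonempty := Set.range_nonempty _
      exact ⟨sInf _, Nat.sInf_mem hne, fun w hw => Nat.sInf_le hw⟩
    obtain ⟨⟨x, hx⟩, h2⟩ := hv
    refine ⟨x, fun w => ?_⟩
    have h3 := h2 _ ⟨w, rfl⟩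
    simp only at hx h3
    omega
  obtain ⟨p, hp0, hpl, hadj, hinj, -⟩ := exists_path hX v (z • v)
  set l : ℕ := X.dist v (z • v) with hl
  have hl1 : 1 ≤ l := by
    rcases Nat.eq_zero_or_pos l with h | h
    · exfalso
      have h2 : v = z • v := by
        rw [h] at hpl
        rw [← hpl, hp0]
      have h3 := hz 1 v (by rw [zpow_one]; exact h2.symm)
      omega
    · exact h
  set q : ℕ → V := fun n => z ^ (n / l) • p (n % l) with hq
  have hqe : ∀ k r : ℕ, r ≤ l → q (k * l + r) = z ^ k • p r := by
    intro k r hr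
    rcases Nat.lt_or_ge r l with h | h
    · simp only [hq]
      rw [Nat.add_comm, Nat.add_mul_div_right _ _ (by omega), Nat.add_mul_mod_self_right,
        Nat.div_eq_of_lt h, Nat.mod_eq_of_lt h, zero_add]
    · have h2 : r = l := le_antisymm hr h
      subst h2
      simp only [hq]
      rw [show k * l + l = (k + 1) * l by ring, Nat.mul_div_cancel _ (by omega),
        Nat.mul_mod_left, hp0, hpl, pow_succ, mul_smul]
  have hdec : ∀ n : ℕ, ∃ k r : ℕ, r < l ∧ n = k * l + r := fun n =>
    ⟨n / l, n % l, Nat.mod_lt _ (by omega), by rw [mul_comm]; exact (Nat.div_add_mod n l).symm⟩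
  have h1 : ∀ i, X.Adj (q i) (q (i + 1)) := by
    intro i
    obtain ⟨k, r, hr, rfl⟩ := hdec i
    rw [add_assoc, hqe k r (by omega), hqe k (r + 1) (by omega)]
    exact hX.adj _ _ _ (hadj r hr)
  have hdp : ∀ i k, i + k ≤ l → X.dist (p i) (p (i + k)) ≤ k := by
    intro i k
    induction k with
    | zero => intro _; simp
    | succ k ih =>
      intro h
      have h3 := hX.tree.connected.dist_triangle (u := p i) (v := p (i + k)) (w := p (i + (k + 1)))
      have h4 : X.dist (p (i + k)) (p (i + (k + 1))) = 1 := by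
        rw [SimpleGraph.dist_eq_one_iff_adj]
        exact hadj (i + k) (by omega)
      have h5 := ih (by omega)
      omega
  have h2 : ∀ i, q i ≠ q (i + 2) := by
    intro i
    obtain ⟨k, r, hr, rfl⟩ := hdec i
    rcases Nat.lt_or_ge (r + 1) l with h | h
    · rw [add_assoc, hqe k r (by omega), hqe k (r + 2) (by omega)]
      intro h3
      have h4 := hinj r (by omega) (r + 2) (by omega) (MulAction.injective _ h3)
      omega
    · have h5 : r = l - 1 := by omega
      have h6 : k * l + r + 2 = (k + 1) * l + 1 := by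
        rw [h5, add_mul, one_mul]
        omega
      rw [h6, hqe k r (by omega), hqe (k + 1) 1 (by omega), pow_succ, mul_smul]
      intro h3
      have h4 : p r = z • p 1 := MulAction.injective _ h3
      rcases Nat.lt_or_ge 1 l with h7 | h7
      · have h8 := hv (p 1)
        rw [← h4] at h8
        have h9 := hdp 1 (r - 1) (by omega)
        rw [show 1 + (r - 1) = r by omega] at h9
        omega
      · have h8 : l = 1 := by omega
        have h9 : r = 0 := by omega
        rw [h9, hp0] at h4
        rw [h8] at hpl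
        rw [hpl, ← mul_smul] at h4
        have h10 := hz 2 v (by rw [zpow_two]; exact h4.symm)
        omega
  refine ⟨v, l, hl1, fun N => ?_⟩
  have h3 := (line_dist hX.tree q h1 h2 (N * l)).1
  have h4 : q 0 = v := by
    have h5 := hqe 0 0 (by omega)
    rw [zero_mul, zero_add, pow_zero, one_smul, hp0] at h5
    exact h5
  have h5 : q (N * l) = z ^ N • v := by
    have h6 := hqe N 0 (by omega)
    rw [add_zero, hp0] at h6
    exact h6
  rw [h4, h5] at h3
  exact h3

end Pool.Agent.H76.VC
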