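import Pool.Agent.H76.VC.Cls
import Pool.Agent.H76.VC.Lin

/-!
# Balanced groups acting on trees

Module VC BALT. Proof of `bal_tree`. Let `z` be of infinite order, `g * z ^ m * g⁻¹ = z ^ n`, `m, n ≠ 0`.
Case 1: some power `z ^ k`, `k ≠ 0`, fixes two adjacent vertices: `z ^ k` is balanced by `he`, and
`g * (z ^ k) ^ m * g⁻¹ = (z ^ k) ^ n`.
Case 2: no such power, but some power `z ^ k`, `k ≠ 0`, fixes a vertex `v`. `z ^ (k * n) = g * z ^ (k * m) * g⁻¹` fixes `v` and
`g • v`; if `g • v ≠ v` it fixes an edge (`first_edge`), a contradiction. So `g` and `z ^ k` are in the stabiliser of `v`,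
which is balanced.
Case 3: no power `z ^ k`, `k ≠ 0`, fixes a vertex. Let `v` be a vertex with `X.dist v (z • v) = l` minimal, `l ≥ 1`. Then
`X.dist v (z ^ N • v) = N * l` for all natural numbers `N` (`linear`): let `p` be the path from `v` to `z • v`; the walk
`p, z • p, z ^ 2 • p, ...` has no backtracking: a backtracking at `z • v` means `p (l - 1) = z • p 1`; if `l = 1` this is
`v = z ^ 2 • v`; otherwise `X.dist (p 1) (z • p 1) = l - 2`. (`SimpleGraph.IsAcyclic.isPath_iff_isChain` or similar: a walk in a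
tree without backtracking is a path, hence a geodesic.) Suppose `|m| < |n|` (otherwise exchange `m` and `n` and replace `g` by
`g⁻¹`). By induction `g ^ j * z ^ (m ^ j) * (g ^ j)⁻¹ = z ^ (n ^ j)`. So
`|n| ^ j * l = X.dist v (z ^ (n ^ j) • v) ≤ 2 * j * X.dist v (g • v) + |m| ^ j * l` for all `j`, a contradiction for large `j`.
-/

set_option autoImplicit false

namespace Pool.Agent.H76.VC

open Pool.Agent.H98.FJ Pool.Agent.H93.TR

/-- all elements of infinite order are balanced -/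
def BalG (G : Type) [Group G] : Prop := ∀ z : G, ¬ IsOfFinOrder z → Bal z

variable {G V : Type} [Group G] [MulAction G V] {X : SimpleGraph V}

private theorem pow_gap (a j : ℕ) (ha : 1 ≤ a) : a ^ j + 2 ^ j ≤ (a + 1) ^ j + 1 := by
  induction j with
  | zero => simp
  | succ j ih =>
    obtain ⟨b, rfl⟩ : ∃ b, a = b + 1 := ⟨a - 1, by omega⟩
    have h1 : 1 ≤ (b + 1) ^ j := Nat.one_le_pow _ _ (by omega)
    have h2 : 1 ≤ 2 ^ j := Nat.one_le_two_pow
    have h3 : b * 1 ≤ b * 2 ^ j := Nat.mul_le_mul_left b h2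
    have h4 : (b + 1 + 1) * ((b + 1) ^ j + 2 ^ j) ≤ (b + 1 + 1) * ((b + 1 + 1) ^ j + 1) := Nat.mul_le_mul_left _ ih
    rw [pow_succ, pow_succ, pow_succ]
    nlinarith

private theorem no_growth (a b c l : ℕ) (ha : 1 ≤ a) (hab : a < b) (hl : 1 ≤ l)
    (h : ∀ j : ℕ, b ^ j * l ≤ 2 * (j * c) + a ^ j * l) : False := by
  have h1 : ∀ j : ℕ, 2 ^ j ≤ 2 * (j * c) + 1 := by
    intro j
    have h2 := h j
    have h3 := pow_gap a j ha
    have h4 : (a + 1) ^ j ≤ b ^ j := Nat.pow_le_pow_left hab j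
    obtain ⟨x, hx⟩ : ∃ x, b ^ j = a ^ j + x := ⟨b ^ j - a ^ j, by
      have := Nat.pow_le_pow_left hab.le j
      omega⟩
    rw [hx, add_mul] at h2
    have h5 : x * 1 ≤ x * l := Nat.mul_le_mul_left x hl
    omega
  have h2 := h1 (2 * (4 * c + 1))
  have h3 : 4 * c + 1 < 2 ^ (4 * c + 1) := Nat.lt_two_pow_self
  rw [mul_comm 2 (4 * c + 1), pow_mul] at h2
  nlinarith

private theorem conj_iter {g z : G} {m n : ℤ} (h : g * z ^ m * g⁻¹ = z ^ n) (j : ℕ) :
    g ^ j * z ^ (m ^ j) * (g ^ j)⁻¹ = z ^ (n ^ j) := by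
  induction j with
  | zero => simp
  | succ j ih =>
    have h1 : g ^ j * z ^ (m ^ (j + 1)) * (g ^ j)⁻¹ = z ^ (n ^ j * m) := by
      rw [pow_succ, zpow_mul, ← conj_zpow', ih, ← zpow_mul]
    calc g ^ (j + 1) * z ^ (m ^ (j + 1)) * (g ^ (j + 1))⁻¹ = g * (g ^ j * z ^ (m ^ (j + 1)) * (g ^ j)⁻¹) * g⁻¹ := by
          rw [pow_succ' g j]
          group
      _ = z ^ (n ^ (j + 1)) := by
          rw [h1, mul_comm (n ^ j) m, zpow_mul, ← conj_zpow', h, ← zpow_mul]
          rw [pow_succ, mul_comm (n ^ j) n]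

/-- the translation length is multiplied by the absolute value of the exponent -/
private theorem le_of_conj (hX : OnTree G X) {z : G} {v : V} {l : ℕ} (hl : 1 ≤ l)
    (hd : ∀ N : ℕ, X.dist v (z ^ N • v) = N * l) {g : G} {m n : ℤ} (hm : m ≠ 0)
    (h : g * z ^ m * g⁻¹ = z ^ n) : n.natAbs ≤ m.natAbs := by
  by_contra hlt
  have hz : ∀ a : ℤ, X.dist v (z ^ a • v) = a.natAbs * l := by
    intro a
    rcases Int.natAbs_eq a with ha | ha
    · rw [ha, zpow_natCast, hd, Int.natAbs_natCast]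
    · rw [ha, zpow_neg, zpow_natCast, Int.natAbs_neg, Int.natAbs_natCast, ← hd]
      rw [← dist_sm' hX (z ^ a.natAbs), smul_inv_smul, SimpleGraph.dist_comm]
  have hg : ∀ j : ℕ, X.dist v (g ^ j • v) ≤ j * X.dist v (g • v) := by
    intro j
    induction j with
    | zero => simp
    | succ j ih =>
      have h1 := hX.tree.connected.dist_triangle (u := v) (v := g ^ j • v) (w := g ^ (j + 1) • v)
      have h2 : X.dist (g ^ j • v) (g ^ (j + 1) • v) = X.dist v (g • v) := by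
        rw [pow_succ, mul_smul, dist_sm' hX]
      rw [h2] at h1
      rw [add_mul, one_mul]
      omega
  refine no_growth m.natAbs n.natAbs (X.dist v (g • v)) l (by omega) (by omega) hl fun j => ?_
  have h1 : X.dist v (z ^ (n ^ j) • v) ≤ X.dist v (g ^ j • v) + X.dist v (z ^ (m ^ j) • v) + X.dist v (g ^ j • v) := by
    rw [← conj_iter h j, mul_smul, mul_smul]
    have h2 := hX.tree.connected.dist_triangle (u := v) (v := g ^ j • v)
      (w := g ^ j • z ^ (m ^ j) • (g ^ j)⁻¹ • v)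
    have h3 := hX.tree.connected.dist_triangle (u := g ^ j • v) (v := g ^ j • z ^ (m ^ j) • v)
      (w := g ^ j • z ^ (m ^ j) • (g ^ j)⁻¹ • v)
    have h6 : X.dist (g ^ j • v) (g ^ j • z ^ (m ^ j) • v) = X.dist v (z ^ (m ^ j) • v) := dist_sm' hX _ _ _
    have h7 : X.dist (g ^ j • z ^ (m ^ j) • v) (g ^ j • z ^ (m ^ j) • (g ^ j)⁻¹ • v) = X.dist v ((g ^ j)⁻¹ • v) := by
      rw [dist_sm' hX, dist_sm' hX]
    rw [h6, h7] at h3
    have h4 : X.dist v ((g ^ j)⁻¹ • v) = X.dist v (g ^ j • v) := by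
      rw [← dist_sm' hX (g ^ j), smul_inv_smul, SimpleGraph.dist_comm]
    omega
  rw [hz, hz, Int.natAbs_pow, Int.natAbs_pow] at h1
  have h5 := hg j
  omega

theorem bal_tree (hX : OnTree G X) (hinv : NoInv X (⊤ : Subgroup G))
    (hv : ∀ v : V, BalG (MulAction.stabilizer G v))
    (he : ∀ (z : G) (v w : V), X.Adj v w → z • v = v → z • w = w → ¬ IsOfFinOrder z → Bal z) :
    BalG G := by
  intro z hz g m n hm hn h
  have hpow : ∀ k : ℤ, k ≠ 0 → ¬ IsOfFinOrder (z ^ k) := by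
    intro k hk hf
    obtain ⟨a, ha, h1⟩ := isOfFinOrder_iff_zpow_eq_one.1 hf
    refine hz (isOfFinOrder_iff_zpow_eq_one.2 ⟨k * a, mul_ne_zero hk ha, ?_⟩)
    rw [zpow_mul, h1]
  have hk : ∀ k : ℤ, g * (z ^ k) ^ m * g⁻¹ = (z ^ k) ^ n := by
    intro k
    rw [← zpow_mul, ← zpow_mul, mul_comm k m, mul_comm k n, zpow_mul, zpow_mul, ← conj_zpow', h]
  by_cases c1 : ∃ (k : ℤ) (v w : V), k ≠ 0 ∧ X.Adj v w ∧ z ^ k • v = v ∧ z ^ k • w = w
  · obtain ⟨k, v, w, hk0, hvw, h1, h2⟩ := c1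
    exact he (z ^ k) v w hvw h1 h2 (hpow k hk0) g m n hm hn (hk k)
  by_cases c2 : ∃ (k : ℤ) (v : V), k ≠ 0 ∧ z ^ k • v = v
  · obtain ⟨k, v, hk0, h1⟩ := c2
    have hfix : ∀ a : ℤ, (z ^ k) ^ a • v = v := by
      intro a
      have h2 : z ^ k ∈ MulAction.stabilizer G v := h1
      exact (MulAction.stabilizer G v).zpow_mem h2 a
    have h2 : g • v = v := by
      by_contra hne
      obtain ⟨a, ha, h3⟩ := first_edge hX (P := X) le_rfl (hX.tree.connected.preconnected v (g • v)) (Ne.symm hne)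
      have h4 : (z ^ k) ^ n • (g • v) = g • v := by
        rw [← hk k, mul_smul, mul_smul, inv_smul_smul, hfix]
      have h5 := h3 ((z ^ k) ^ n) (hfix n) h4
      rw [← zpow_mul] at h5
      refine c1 ⟨k * n, v, a, mul_ne_zero hk0 hn, ha, ?_, h5⟩
      rw [zpow_mul]
      exact hfix n
    have hy : ¬ IsOfFinOrder (⟨z ^ k, h1⟩ : MulAction.stabilizer G v) := by
      intro hf
      apply hpow k hk0
      obtain ⟨a, ha, h3⟩ := isOfFinOrder_iff_zpow_eq_one.1 hf
      exact isOfFinOrder_iff_zpow_eq_one.2 ⟨a, ha, congrArg Subtype.val h3⟩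
    exact hv v ⟨z ^ k, h1⟩ hy ⟨g, h2⟩ m n hm hn (Subtype.ext (hk k))
  · have hz' : ∀ (k : ℤ) (v : V), z ^ k • v = v → k = 0 := by
      intro k v h1
      by_contra h2
      exact c2 ⟨k, v, h2, h1⟩
    obtain ⟨v, l, hl, hd⟩ := linear hX hinv z hz'
    have h1 := le_of_conj hX hl hd hm h
    have h2 := le_of_conj hX hl hd hn (com_inv h)
    rw [Int.abs_eq_natAbs, Int.abs_eq_natAbs]
    omega

end Pool.Agent.H76.VC
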