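import Pool.Agent.H76.VC.Fin
import Pool.Agent.H76.VC.BalT

/-!
# Amalgamated products of balanced groups are balanced
-/

set_option autoImplicit false

namespace Pool.Agent.H76.VC

open Pool.Agent.H98.FJ Pool.Agent.H93.TR

theorem not_fin_map {A B : Type} [Group A] [Group B] (f : A →* B) (hf : Function.Injective f)
    {z : A} (hz : ¬ IsOfFinOrder z) : ¬ IsOfFinOrder (f z) := by
  intro h
  apply hz
  rw [isOfFinOrder_iff_pow_eq_one] at h ⊢
  obtain ⟨n, hn, h1⟩ := h
  exact ⟨n, hn, hf (by rw [map_pow, h1, map_one])⟩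

theorem balG_of_injective {A B : Type} [Group A] [Group B] (f : A →* B)
    (hf : Function.Injective f) (h : BalG B) : BalG A := by
  intro z hz g m n hm hn h1
  refine h (f z) (not_fin_map f hf hz) (f g) m n hm hn ?_
  rw [← map_zpow, ← map_inv, ← map_mul, ← map_mul, h1, map_zpow]

theorem balG_smul {G T : Type} [Group G] [MulAction G T] (g : G) (t : T)
    (h : BalG (MulAction.stabilizer G t)) : BalG (MulAction.stabilizer G (g • t)) := by
  refine balG_of_injective (B := MulAction.stabilizer G t)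
    { toFun := fun x => ⟨g⁻¹ * x.1 * g, ?_⟩
      map_one' := ?_
      map_mul' := ?_ } ?_ h
  · have h1 : (x : G) • g • t = g • t := x.2
    change (g⁻¹ * x.1 * g) • t = t
    rw [mul_smul, mul_smul, h1, inv_smul_smul]
  · apply Subtype.ext
    change g⁻¹ * 1 * g = 1
    group
  · intro x y
    apply Subtype.ext
    change g⁻¹ * (x.1 * y.1) * g = (g⁻¹ * x.1 * g) * (g⁻¹ * y.1 * g)
    group
  · intro x y hxy
    have h1 : g⁻¹ * x.1 * g = g⁻¹ * y.1 * g :=
      congrArg (fun z : MulAction.stabilizer G t => (z : G)) hxy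
    exact Subtype.ext (mul_left_cancel (mul_right_cancel h1))

/-- virtually cyclic groups are balanced -/
theorem balG_vc {E : Type} [Group E] (hE : VirtuallyCyclic E) : BalG E := by
  intro z hz g m n hm hn h1
  -- the powers
  have hpow : ∀ j : ℕ, g ^ j * z ^ (m ^ j) * (g ^ j)⁻¹ = z ^ (n ^ j) := by
    intro j
    induction j with
    | zero => simp
    | succ j ih =>
      have h2 : g * z ^ (m * n ^ j) * g⁻¹ = z ^ (n * n ^ j) := by
        rw [zpow_mul, ← conj_zpow', h1, ← zpow_mul]
      have h3 : g ^ j * z ^ (m ^ j * m) * (g ^ j)⁻¹ = z ^ (n ^ j * m) := by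
        rw [zpow_mul, ← conj_zpow', ih, ← zpow_mul]
      calc g ^ (j + 1) * z ^ m ^ (j + 1) * (g ^ (j + 1))⁻¹
          = g * (g ^ j * z ^ (m ^ j * m) * (g ^ j)⁻¹) * g⁻¹ := by
            rw [pow_succ' g j, pow_succ m j]
            group
        _ = g * z ^ (m * n ^ j) * g⁻¹ := by rw [h3, mul_comm]
        _ = z ^ n ^ (j + 1) := by rw [h2, pow_succ' n j]
  have htop : VirtuallyCyclic (⊤ : Subgroup E) :=
    vc_of_injective ((⊤ : Subgroup E).subtype) Subtype.val_injective hE
  have hcomm : ∃ k : ℕ, 0 < k ∧ ∃ i : ℤ, i ≠ 0 ∧ Commute (g ^ k) (z ^ i) := by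
    by_cases hg : IsOfFinOrder g
    · rw [isOfFinOrder_iff_pow_eq_one] at hg
      obtain ⟨k, hk, h2⟩ := hg
      exact ⟨k, hk, 1, one_ne_zero, by rw [h2]; exact Commute.one_left _⟩
    · obtain ⟨a, b, ha, hb, hab⟩ := vc_pow htop (z := g) (w := z) trivial trivial hg hz
      refine ⟨a.natAbs, Int.natAbs_pos.2 ha, 1, one_ne_zero, ?_⟩
      have h2 : Commute (g ^ a) z := by
        rw [hab]
        exact (Commute.refl z).zpow_left b
      have h3 : Commute (g ^ (a.natAbs : ℤ)) z := by
        rcases Int.natAbs_eq a with h4 | h4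
        · rw [← h4]
          exact h2
        · have h5 : (a.natAbs : ℤ) = -a := by omega
          rw [h5, zpow_neg]
          exact h2.inv_left
      rw [zpow_natCast] at h3
      rw [zpow_one]
      exact h3
  obtain ⟨k, hk, i, hi, hc⟩ := hcomm
  have h2 : z ^ (m ^ k * i) = z ^ (n ^ k * i) := by
    have h3 : Commute (g ^ k) (z ^ (m ^ k * i)) := by
      rw [mul_comm, zpow_mul]
      exact hc.zpow_right _
    have h4 : g ^ k * z ^ (m ^ k * i) * (g ^ k)⁻¹ = z ^ (n ^ k * i) := by
      rw [zpow_mul, ← conj_zpow', hpow k, ← zpow_mul]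
    rw [← h4, h3.eq, mul_inv_cancel_right]
  have h5 : m ^ k * i = n ^ k * i := injective_zpow_iff_not_isOfFinOrder.2 hz h2
  have h6 : m ^ k = n ^ k := mul_right_cancel₀ hi h5
  have h7 : |m| ^ k = |n| ^ k := by rw [← abs_pow, ← abs_pow, h6]
  exact (pow_left_inj₀ (abs_nonneg m) (abs_nonneg n) hk.ne').1 h7

theorem star_noInv {G T : Type} [Group G] [MulAction G T] {X : SimpleGraph T} {ι : Type} {c : T}
    {a : ι → T} (hS : Star G X c a) : NoInv X (⊤ : Subgroup G) := by
  intro n _ v w h h1 h2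
  obtain ⟨g, i, ⟨rfl, rfl⟩ | ⟨rfl, rfl⟩⟩ := hS.edge v w h
  · exact hS.ne (g⁻¹ * n * g) i (by rw [mul_smul, mul_smul, h1, inv_smul_smul])
  · exact hS.ne (g⁻¹ * n * g) i (by rw [mul_smul, mul_smul, h2, inv_smul_smul])

/-- the elements of infinite order of the edge stabilisers of the amalgamated product are balanced -/
theorem amalgam_edge {ι H : Type} {A : ι → Type}
    [∀ i, Group (A i)] [Group H] (φ : ∀ i, H →* A i) (hφ : ∀ i, Function.Injective (φ i))
    (hH : VirtuallyCyclic H) (hb : ∀ (i : ι) (h : H), ¬ IsOfFinOrder h → Bal (φ i h))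
    {T : Type} [MulAction (Monoid.PushoutI φ) T] {X : SimpleGraph T} {c : T} {a : ι → T}
    (hS : Star (Monoid.PushoutI φ) X c a)
    (hc : MulAction.stabilizer (Monoid.PushoutI φ) c = (Monoid.PushoutI.base φ).range)
    (ha : ∀ i, MulAction.stabilizer (Monoid.PushoutI φ) (a i) =
      (Monoid.PushoutI.of (φ := φ) i).range) :
    ∀ (z : Monoid.PushoutI φ) (v w : T), X.Adj v w → z • v = v → z • w = w →
      ¬ IsOfFinOrder z → Bal z := by
  have hbase : Function.Injective (Monoid.PushoutI.base φ) := Monoid.PushoutI.base_injective hφ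
  have hcH : VirtuallyCyclic (MulAction.stabilizer (Monoid.PushoutI φ) c) := by
    rw [hc]
    exact vc_of_injective (MonoidHom.ofInjective hbase).symm.toMonoidHom
      (MonoidHom.ofInjective hbase).symm.injective hH
  have hbal : ∀ (i : ι) (z : Monoid.PushoutI φ), z • c = c → ¬ IsOfFinOrder z → Bal z := by
    intro i0 z hzc hz
    have hz1 : z ∈ (Monoid.PushoutI.base φ).range := by
      rw [← hc]
      exact hzc
    obtain ⟨h, rfl⟩ := hz1
    have hh : ¬ IsOfFinOrder h := by
      intro h1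
      apply hz
      rw [isOfFinOrder_iff_pow_eq_one] at h1 ⊢
      obtain ⟨n, hn, h2⟩ := h1
      exact ⟨n, hn, by rw [← map_pow, h2, map_one]⟩
    have hleaf : ∀ (i : ι) (g : Monoid.PushoutI φ) (m n : ℤ), g • a i = a i → m ≠ 0 → n ≠ 0 →
        g * Monoid.PushoutI.base φ h ^ m * g⁻¹ = Monoid.PushoutI.base φ h ^ n → |m| = |n| := by
      intro i g m n hg hm hn h1
      have hg1 : g ∈ (Monoid.PushoutI.of (φ := φ) i).range := by
        rw [← ha]
        exact hg
      obtain ⟨x, rfl⟩ := hg1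
      refine hb i h hh x m n hm hn ?_
      apply Monoid.PushoutI.of_injective hφ i
      rw [map_mul, map_mul, map_zpow, map_zpow, map_inv, Monoid.PushoutI.of_apply_eq_base]
      exact h1
    exact star_bal hS hcH _ hzc hz hleaf
      (fun g m n hg hm hn h1 => hleaf i0 g m n (hS.fix g i0 hg) hm hn h1)
  intro z v w h hzv hzw hz
  have key : ∀ (g : Monoid.PushoutI φ), (∃ i : ι, True) → z • g • c = g • c → Bal z := by
    rintro g ⟨i, -⟩ h1
    have h2 : (g⁻¹ * z * g) • c = c := by
      rw [mul_smul, mul_smul, h1, inv_smul_smul]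
    have h3 : ¬ IsOfFinOrder (g⁻¹ * z * g) := by
      have h4 := not_fin_conj hz g⁻¹
      rwa [inv_inv] at h4
    have h4 := bal_conj (hbal i _ h2 h3) g
    have h5 : g * (g⁻¹ * z * g) * g⁻¹ = z := by group
    rwa [h5] at h4
  obtain ⟨g, i, ⟨rfl, rfl⟩ | ⟨rfl, rfl⟩⟩ := hS.edge v w h
  · exact key g ⟨i, trivial⟩ hzv
  · exact key g ⟨i, trivial⟩ hzw

/-- **Theorem.** The amalgamated product of balanced groups over a virtually cyclic subgroup is balanced. -/
theorem amalgam_bal {ι H : Type} {A : ι → Type}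
    [∀ i, Group (A i)] [Group H] (φ : ∀ i, H →* A i) (hφ : ∀ i, Function.Injective (φ i))
    (hH : VirtuallyCyclic H) (hb : ∀ i, BalG (A i)) : BalG (Monoid.PushoutI φ) := by
  obtain ⟨T, _, X, c, a, hS, hc, ha⟩ := exists_star φ hφ
  have hbase : Function.Injective (Monoid.PushoutI.base φ) := Monoid.PushoutI.base_injective hφ
  refine bal_tree hS.tree (star_noInv hS) ?_ (amalgam_edge φ hφ hH
    (fun i h hh => hb i _ (not_fin_map (φ i) (hφ i) hh)) hS hc ha)
  intro v
  obtain ⟨g, rfl | ⟨i, rfl⟩⟩ := hS.vert v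
  · refine balG_smul g c ?_
    rw [hc]
    exact balG_of_injective (MonoidHom.ofInjective hbase).symm.toMonoidHom
      (MonoidHom.ofInjective hbase).symm.injective (balG_vc hH)
  · refine balG_smul g (a i) ?_
    rw [ha]
    exact balG_of_injective (MonoidHom.ofInjective (Monoid.PushoutI.of_injective hφ i)).symm.toMonoidHom
      (MonoidHom.ofInjective (Monoid.PushoutI.of_injective hφ i)).symm.injective (hb i)

end Pool.Agent.H76.VC
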