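import Pool.Agent.H76.VC.ComMem
import Pool.Agent.H93.TR.Inv

/-!
# Groups acting on trees with virtually cyclic edge stabilisers
-/

set_option autoImplicit false

namespace Pool.Agent.H76.VC

open Pool.Agent.H98.FJ Pool.Agent.H93.TR

variable {C : (G : Type) → [Group G] → Prop}

/-- torsion subgroups of the edge stabiliser have at most `n` elements -/
def TBd {G V : Type} [Group G] [MulAction G V] (n : ℕ) (a b : V) : Prop :=
  ∀ F : Subgroup G, (∀ x ∈ F, x • a = a ∧ x • b = b ∧ IsOfFinOrder x) →
    ∃ s : Finset G, s.card ≤ n ∧ ∀ x ∈ F, x ∈ s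

theorem tbd_smul {G V : Type} [Group G] [MulAction G V] (n : ℕ) (g : G) (a b : V)
    (h : TBd (G := G) n a b) : TBd (G := G) n (g • a) (g • b) := by
  classical
  intro F hF
  obtain ⟨s, hs, hs'⟩ := h (F.comap (MulAut.conj g).toMonoidHom) (by
    intro x hx
    have hx' : g * x * g⁻¹ ∈ F := hx
    obtain ⟨h1, h2, h3⟩ := hF _ hx'
    rw [mul_smul, inv_smul_smul, mul_smul, smul_left_cancel_iff] at h1 h2
    refine ⟨h1, h2, ?_⟩
    by_contra h4
    exact not_fin_conj h4 g h3)
  refine ⟨s.image (fun x => g * x * g⁻¹), Finset.card_image_le.trans hs, fun x hx => ?_⟩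
  refine Finset.mem_image.2 ⟨g⁻¹ * x * g, hs' _ ?_, by group⟩
  change g * (g⁻¹ * x * g) * g⁻¹ ∈ F
  have h1 : g * (g⁻¹ * x * g) * g⁻¹ = x := by group
  rwa [h1]

/-- the theorem for finitely generated groups acting without inversions -/
theorem main_fg (hC : Inherits C) (hA : AcylExt C) {G V : Type} [Group G] [MulAction G V]
    {X : SimpleGraph V} (hX : OnTree G X) (hinv : NoInv X (⊤ : Subgroup G))
    (hv : ∀ v : V, C (MulAction.stabilizer G v)) (hE : EdgeVC G X) (hfg : Group.FG G)
    (hz : ∀ (z : G) (v w : V), X.Adj v w → z • v = v → z • w = w → ¬ IsOfFinOrder z →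
      C (Com z)) : C G := by
  classical
  obtain ⟨W, Y, hY, hYX, hB⟩ := exists_subtree hX hfg
  have hval : ∀ (g : G) (w : W), g • w = w → g • (w : V) = w := fun g w h =>
    congrArg (fun z : W => (z : V)) h
  have hE' : EdgeVC G Y := by
    intro v w h
    let ψ : (MulAction.stabilizer G v ⊓ MulAction.stabilizer G w : Subgroup G) →*
        (MulAction.stabilizer G (v : V) ⊓ MulAction.stabilizer G (w : V) : Subgroup G) :=
      { toFun := fun h => ⟨h.1, hval _ _ h.2.1, hval _ _ h.2.2⟩
        map_one' := rfl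
        map_mul' := fun _ _ => rfl }
    refine vc_of_injective ψ ?_ (hE v w (hYX v w h))
    intro a b hab
    exact Subtype.ext (congrArg (fun z : (MulAction.stabilizer G (v : V) ⊓
      MulAction.stabilizer G (w : V) : Subgroup G) => (z : G)) hab)
  have hinv' : NoInv Y (⊤ : Subgroup G) := by
    intro n _ v w h1 h2 h3
    exact hinv n trivial v w (hYX v w h1) (congrArg (fun z : W => (z : V)) h2)
      (congrArg (fun z : W => (z : V)) h3)
  have m3 : ∀ a b : V, X.Adj a b → ∃ n, TBd (G := G) n a b := by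
    intro a b hab
    obtain ⟨n, hn⟩ := vc_bound (hE a b hab)
    exact ⟨n, fun F hF => hn F (fun x hx => ⟨(hF x hx).1, (hF x hx).2.1⟩)
      (fun x hx => (hF x hx).2.2)⟩
  obtain ⟨N, hN⟩ := hB (TBd (G := G))
    (fun m n a b hmn h F hF => by
      obtain ⟨s, hs, hs'⟩ := h F hF
      exact ⟨s, hs.trans hmn, hs'⟩) (fun n g a b h => tbd_smul n g a b h) m3
  have hP := cl_parts hY hE'
  let _ : MulAction G (Cl G Y) := clAction hY
  have hG : ∀ (g : G) (i : Cl G Y) (v w : W), i.1.Adj v w → (g • i).1.Adj (g • v) (g • w) :=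
    fun g i v w h => cl_smul_adj hY g i v w h
  have hT := cone_onTree (P := fun i : Cl G Y => i.1) hY hP hG
  have hTi := cone_noInv (P := fun i : Cl G Y => i.1) hG
  have hcount : Countable G := countable_of_fg hfg
  refine hA G G (W ⊕ Cl G Y) (MonoidHom.id G) (cone (fun i : Cl G Y => i.1))
    Function.surjective_id hT.tree hT.adj ?_ ⟨5, N, ?_⟩ ?_ ?_
  · intro g v w h h1 h2
    exact hTi g trivial v w h h1 h2
  · intro x y hd
    obtain ⟨i, j, v, a, w, b, hij, hva, hwb, hfix⟩ :=
      cone_far (P := fun i : Cl G Y => i.1) hY hP hG x y hd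
    have hYva : Y.Adj v a := hP.le i hva
    obtain ⟨s, hs, hs'⟩ := hN v a hYva (MulAction.stabilizer G x ⊓ MulAction.stabilizer G y) (by
      intro g hg
      obtain ⟨h1, h2, h3, h4⟩ := hfix g hg.1 hg.2
      refine ⟨hval _ _ h1, hval _ _ h2, ?_⟩
      by_contra h5
      apply hij
      refine hP.dis i j w b ?_ hwb
      obtain ⟨P, v', w', h', rfl⟩ := i
      change (cls G Y v' w').Adj v a at hva
      change (cls G Y v' w').Adj w b
      rw [cls_eq hE' h' hva]
      exact ⟨hP.le j hwb, Or.inr (Or.inr ⟨g, h5, h1, h2, h3, h4⟩)⟩)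
    exact ⟨s, hs, fun g h1 h2 => hs' g ⟨h1, h2⟩⟩
  · rintro (w | i)
    · refine hC.of_injective (H := MulAction.stabilizer G (w : V))
        { toFun := fun x => ⟨x.1, ?_⟩
          map_one' := rfl
          map_mul' := fun _ _ => rfl } ?_ (hv w)
      · have h1 : (x : G) • (Sum.inl w : W ⊕ Cl G Y) = Sum.inl w := x.2
        exact hval _ _ (Sum.inl_injective h1)
      · intro a b hab
        exact Subtype.ext (congrArg (fun z : MulAction.stabilizer G (w : V) => (z : G)) hab)
    · obtain ⟨v, w, hi⟩ := hP.ne i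
      have hst : ∀ x : G, x ∈ (MulAction.stabilizer G (Sum.inr i : W ⊕ Cl G Y)).comap
          (MonoidHom.id G) → x • i = i := by
        intro x hx
        have h1 : (x : G) • (Sum.inr i : W ⊕ Cl G Y) = Sum.inr i := hx
        exact Sum.inr_injective h1
      by_cases ht : ∃ z : G, ¬ IsOfFinOrder z ∧ z • v = v ∧ z • w = w
      · obtain ⟨z, h0, h1, h2⟩ := ht
        have h3 : C (Com z) := hz z v w (hYX v w (hP.le i hi)) (hval _ _ h1) (hval _ _ h2) h0
        refine hC.of_injective (H := Com z)
          { toFun := fun x => ⟨x.1, cl_stab_com hY hE' hi h0 h1 h2 x.1 (hst x.1 x.2)⟩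
            map_one' := rfl
            map_mul' := fun _ _ => rfl } ?_ h3
        intro a b hab
        exact Subtype.ext (congrArg (fun y : Com z => (y : G)) hab)
      · refine hC.of_injective (H := MulAction.stabilizer G (v : V))
          { toFun := fun x => ⟨x.1, ?_⟩
            map_one' := rfl
            map_mul' := fun _ _ => rfl } ?_ (hv v)
        · refine hval _ _ (cl_stab_fin hY hE' hinv' hi ?_ x.1 (hst x.1 x.2))
          intro z h1 h2
          by_contra h3
          exact ht ⟨z, h3, h1, h2⟩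
        · intro a b hab
          exact Subtype.ext (congrArg (fun z : MulAction.stabilizer G (v : V) => (z : G)) hab)
  · intro U hU
    refine hC.of_injective (H := U)
      { toFun := fun x => ⟨x.1, x.2⟩
        map_one' := rfl
        map_mul' := fun _ _ => rfl } ?_ (vcyc_mem hC U hU)
    intro a b hab
    exact Subtype.ext (congrArg (fun z : U => (z : G)) hab)

/-- the commensurator of an element of a subgroup -/
theorem com_res (hC : Inherits C) {G : Type} [Group G] {K : Subgroup G} (z : K)
    (h : C (Com (z : G))) : C (Com z) := by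
  refine hC.of_injective (H := Com (z : G))
    { toFun := fun x => ⟨x.1.1, ?_⟩
      map_one' := rfl
      map_mul' := fun _ _ => rfl } ?_ h
  · obtain ⟨m, n, hm, hn, h1⟩ := x.2
    exact ⟨m, n, hm, hn, congrArg Subtype.val h1⟩
  · intro a b hab
    exact Subtype.ext (Subtype.ext (congrArg (fun y : Com (z : G) => (y : G)) hab))

theorem bal_res {G : Type} [Group G] {K : Subgroup G} (z : K) (h : Bal (z : G)) : Bal z := by
  intro g m n hm hn h1
  exact h g.1 m n hm hn (congrArg Subtype.val h1)

/-- the theorem for actions without inversions -/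
theorem main_noInv (hC : Inherits C) (hA : AcylExt C) {G V : Type} [Group G] [MulAction G V]
    {X : SimpleGraph V} (hX : OnTree G X) (hinv : NoInv X (⊤ : Subgroup G))
    (hv : ∀ v : V, C (MulAction.stabilizer G v)) (hE : EdgeVC G X)
    (hz : ∀ (z : G) (v w : V), X.Adj v w → z • v = v → z • w = w → ¬ IsOfFinOrder z →
      ¬ Bal z → C (Com z)) : C G := by
  have hz' : ∀ (z : G) (v w : V), X.Adj v w → z • v = v → z • w = w → ¬ IsOfFinOrder z →
      C (Com z) := by
    intro z v w h h1 h2 h3
    by_cases hb : Bal z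
    · exact com_mem hC hA hX hinv hv hE z h3 hb v h1
    · exact hz z v w h h1 h2 h3 hb
  refine of_fg hC G (fun H hH => ?_)
  refine main_fg hC hA (res_onTree hX H) (res_noInv hinv H) (res_stab hC hv H) (res_edge hE H)
    ((Group.fg_iff_subgroup_fg H).2 hH) ?_
  intro z v w h h1 h2 h3
  refine com_res hC z (hz' z.1 v w h h1 h2 ?_)
  intro h4
  apply h3
  rw [isOfFinOrder_iff_pow_eq_one] at h4 ⊢
  obtain ⟨n, hn, h5⟩ := h4
  exact ⟨n, hn, Subtype.ext h5⟩

/-- **Theorem.** A group acting on a tree with virtually cyclic edge stabilisers is in the class if the vertex stabilisers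
and the commensurators of the unbalanced elements of the edge stabilisers are in the class. -/
theorem main (hC : Inherits C) (hA : AcylExt C) {G V : Type} [Group G] [MulAction G V]
    {X : SimpleGraph V} (hX : OnTree G X)
    (hv : ∀ v : V, C (MulAction.stabilizer G v)) (hE : EdgeVC G X)
    (hz : ∀ (z : G) (v w : V), X.Adj v w → z • v = v → z • w = w → ¬ IsOfFinOrder z →
      ¬ Bal z → C (Com z)) : C G := by
  obtain ⟨H, hH, hinv⟩ := exists_noInv hX
  refine hC.index G H hH ?_
  refine main_noInv hC hA (res_onTree hX H) ?_ (res_stab hC hv H) (res_edge hE H) ?_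
  · rintro ⟨n, hn⟩ _ v w h1 h2 h3
    exact hinv n hn v w h1 h2 h3
  · intro z v w h h1 h2 h3 h4
    refine com_res hC z (hz z.1 v w h h1 h2 ?_ (fun h5 => h4 (bal_res z h5)))
    intro h5
    apply h3
    rw [isOfFinOrder_iff_pow_eq_one] at h5 ⊢
    obtain ⟨n, hn, h6⟩ := h5
    exact ⟨n, hn, Subtype.ext h6⟩

end Pool.Agent.H76.VC
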