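import Pool.Agent.H93.TR.Main

/-!
# Virtually cyclic splittings: definitions
-/

set_option autoImplicit false

namespace Pool.Agent.H76.VC

open Pool.Agent.H98.FJ Pool.Agent.H93.TR

/-- Groups which map onto a group acting acylindrically on a tree: let `p : G → Q` be surjective, where `G` is countable,
and let `Q` act on a tree without inversions. Suppose that for some `k` and `N`, for all vertices `v`, `w` at distance at
least `k`, at most `N` elements of `Q` fix `v` and `w`. If the preimages under `p` of the vertex stabilisers and of the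
virtually cyclic subgroups of `Q` are in the class then `G` is in the class. -/
def AcylExt (C : (G : Type) → [Group G] → Prop) : Prop :=
  ∀ (G Q V : Type) [Group G] [Countable G] [Group Q] [MulAction Q V] (p : G →* Q)
    (X : SimpleGraph V), Function.Surjective p → X.IsTree →
    (∀ (q : Q) (v w : V), X.Adj v w → X.Adj (q • v) (q • w)) →
    (∀ (q : Q) (v w : V), X.Adj v w → q • v = w → q • w ≠ v) →
    (∃ k N : ℕ, ∀ v w : V, k ≤ X.dist v w →
      ∃ s : Finset Q, s.card ≤ N ∧ ∀ q : Q, q • v = v → q • w = w → q ∈ s) →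
    (∀ v : V, C ((MulAction.stabilizer Q v).comap p)) →
    (∀ U : Subgroup Q, VirtuallyCyclic U → C (U.comap p)) → C G

/-- `z` is balanced: if two powers of `z` with nonzero exponents are conjugate, then the exponents have the same absolute
value. -/
def Bal {G : Type} [Group G] (z : G) : Prop :=
  ∀ (g : G) (m n : ℤ), m ≠ 0 → n ≠ 0 → g * z ^ m * g⁻¹ = z ^ n → |m| = |n|

theorem conj_zpow' {G : Type} [Group G] (g z : G) (m : ℤ) : (g * z * g⁻¹) ^ m = g * z ^ m * g⁻¹ :=
  conj_zpow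

theorem com_mul {G : Type} [Group G] {z g h : G} {m n a b : ℤ} (h1 : g * z ^ m * g⁻¹ = z ^ n)
    (h2 : h * z ^ a * h⁻¹ = z ^ b) : g * h * z ^ (a * m) * (g * h)⁻¹ = z ^ (n * b) := by
  have h3 : h * z ^ (a * m) * h⁻¹ = z ^ (b * m) := by
    rw [zpow_mul, ← conj_zpow', h2, ← zpow_mul]
  have h4 : g * z ^ (b * m) * g⁻¹ = z ^ (n * b) := by
    rw [mul_comm b m, zpow_mul, ← conj_zpow', h1, ← zpow_mul]
  calc g * h * z ^ (a * m) * (g * h)⁻¹ = g * (h * z ^ (a * m) * h⁻¹) * g⁻¹ := by group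
    _ = z ^ (n * b) := by rw [h3, h4]

theorem com_inv {G : Type} [Group G] {z g : G} {m n : ℤ} (h1 : g * z ^ m * g⁻¹ = z ^ n) :
    g⁻¹ * z ^ n * g⁻¹⁻¹ = z ^ m := by
  rw [← h1]
  group

/-- the commensurator of the cyclic subgroup generated by `z` -/
def Com {G : Type} [Group G] (z : G) : Subgroup G where
  carrier := {g | ∃ m n : ℤ, m ≠ 0 ∧ n ≠ 0 ∧ g * z ^ m * g⁻¹ = z ^ n}
  one_mem' := ⟨1, 1, one_ne_zero, one_ne_zero, by simp⟩
  mul_mem' := by
    rintro g h ⟨m, n, hm, hn, h1⟩ ⟨a, b, ha, hb, h2⟩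
    exact ⟨a * m, n * b, mul_ne_zero ha hm, mul_ne_zero hn hb, com_mul h1 h2⟩
  inv_mem' := by
    rintro g ⟨m, n, hm, hn, h1⟩
    exact ⟨n, m, hn, hm, com_inv h1⟩

theorem mem_Com {G : Type} [Group G] {z g : G} :
    g ∈ Com z ↔ ∃ m n : ℤ, m ≠ 0 ∧ n ≠ 0 ∧ g * z ^ m * g⁻¹ = z ^ n := Iff.rfl

end Pool.Agent.H76.VC
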