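import Pool.Agent.H76.VC.BS
import Pool.Agent.H76.VC.Cyc

/-!
# Amalgamated products of balanced groups

Module VC AMAL. Proof of `star_com`. Let `s` be in the commensurator of `z`: `s * z ^ m * s⁻¹ = z ^ n`. By induction on
`X.dist c (s • c)`: if it is `0` then `s` fixes `c`, hence `a i` for all `i` (if there is no `i` the group is the stabiliser of
`c`; use the first or the last possibility accordingly). Otherwise consider the path `c = p 0, p 1, p 2, ...` from `c` to
`s • c` (`exists_path`); `z ^ n` fixes `c` and `s • c`, hence the path. `p 1 = g • a i` with `g • c = c` (`Star.edge`,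
`Star.ne`), so `p 1 = a i` (`Star.fix`). Since `s • c` is not a leaf, `p 2` exists, and `p 2 = h • c`, `a i = h • a j`, so
`j = i` (`Star.inj`) and `h • a i = a i`. `z ^ n` fixes `h • c`, so `h⁻¹ * z ^ n * h` fixes `c`; by `vc_pow` (the stabiliser of
`c` is virtually cyclic) it has a common power with `z`, so `h` is in the commensurator, and so is `h⁻¹ * s`, and
`X.dist c ((h⁻¹ * s) • c) = X.dist (p 2) (s • c) = X.dist c (s • c) - 2`.

Proof of `star_bal`: the elements `s` with `s * z ^ k * s⁻¹ = z ^ k ∨ s * z ^ k * s⁻¹ = z ^ (-k)` for some `k ≠ 0` form a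
subgroup, which contains the elements of the commensurator which fix some `a i` (by `hb`) and hence all of it. If moreover
`s * z ^ m * s⁻¹ = z ^ n` then `|m| = |n|` since `z` has infinite order.
-/

set_option autoImplicit false

namespace Pool.Agent.H76.VC

open Pool.Agent.H98.FJ Pool.Agent.H93.TR

variable {G T : Type} [Group G] [MulAction G T] {X : SimpleGraph T} {ι : Type} {c : T} {a : ι → T}

private theorem dist_sm (hX : OnTree G X) (g : G) (v w : T) : X.dist (g • v) (g • w) = X.dist v w := by
  have hle : ∀ (g : G) (v w : T), X.dist (g • v) (g • w) ≤ X.dist v w := by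
    intro g v w
    obtain ⟨q, hq⟩ := hX.tree.connected.exists_walk_length_eq_dist v w
    let φ : X →g X := ⟨fun x => g • x, fun {a b} h => hX.adj g a b h⟩
    have h1 := SimpleGraph.dist_le (q.map φ)
    rw [SimpleGraph.Walk.length_map, hq] at h1
    exact h1
  refine le_antisymm (hle g v w) ?_
  have h1 := hle g⁻¹ (g • v) (g • w)
  rwa [inv_smul_smul, inv_smul_smul] at h1

private theorem dist_pth (hX : OnTree G X) {p : ℕ → T} {d : ℕ} (hp : ∀ i < d, X.Adj (p i) (p (i + 1))) (i k : ℕ)
    (h : i + k ≤ d) : X.dist (p i) (p (i + k)) ≤ k := by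
  induction k with
  | zero => simp
  | succ k ih =>
    have h1 := ih (by omega)
    have h2 := hp (i + k) (by omega)
    have h3 := hX.tree.connected.dist_triangle (u := p i) (v := p (i + k)) (w := p (i + k + 1))
    have h4 : X.dist (p (i + k)) (p (i + k + 1)) = 1 := SimpleGraph.dist_eq_one_iff_adj.2 h2
    rw [← add_assoc]
    omega

/-- the elements of the commensurator of `z` are products of such elements in the vertex stabilisers -/
theorem star_com (hS : Star G X c a) (hV : VirtuallyCyclic (MulAction.stabilizer G c)) (z : G)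
    (hz : z • c = c) (hz' : ¬ IsOfFinOrder z) :
    Com z ≤ Subgroup.closure {g | g ∈ Com z ∧ (g • c = c ∨ ∃ i, g • a i = a i)} := by
  have key : ∀ (d : ℕ) (s : G), X.dist c (s • c) = d → s ∈ Com z →
      s ∈ Subgroup.closure {g | g ∈ Com z ∧ (g • c = c ∨ ∃ i, g • a i = a i)} := by
    intro d
    induction d using Nat.strong_induction_on with
    | _ d ih =>
      intro s hd hs
      obtain ⟨m, n, hm, hn, hmn⟩ := hs
      rcases Nat.eq_zero_or_pos d with h0 | h0
      · rw [h0] at hd
        have h1 : c = s • c := hS.tree.tree.connected.dist_eq_zero_iff.1 hd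
        exact Subgroup.subset_closure ⟨⟨m, n, hm, hn, hmn⟩, Or.inl h1.symm⟩
      · obtain ⟨p, p0, pd, padj, -, pfix⟩ := exists_path hS.tree c (s • c)
        rw [hd] at pd padj
        -- `z ^ n` fixes the path
        have hzn : (z ^ n) • c = c := by
          have h1 : z ∈ MulAction.stabilizer G c := hz
          exact (MulAction.stabilizer G c).zpow_mem h1 n
        have hzm : (z ^ m) • c = c := by
          have h1 : z ∈ MulAction.stabilizer G c := hz
          exact (MulAction.stabilizer G c).zpow_mem h1 m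
        have hzs : (z ^ n) • (s • c) = s • c := by
          rw [← hmn, mul_smul, mul_smul, inv_smul_smul, hzm]
        have hfix := pfix (z ^ n) hzn hzs
        -- the first edge
        obtain ⟨i, hi⟩ : ∃ i, p 1 = a i := by
          obtain ⟨g, i, ⟨h1, h2⟩ | ⟨-, h2⟩⟩ := hS.edge _ _ (padj 0 h0)
          · rw [p0] at h1
            exact ⟨i, by rw [show p 1 = g • a i from h2, hS.fix g i h1.symm]⟩
          · rw [p0] at h2
            exact absurd (show g⁻¹ • c = a i by rw [h2, inv_smul_smul]) (hS.ne _ _)
        have hd2 : 2 ≤ d := by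
          by_contra h2
          have h3 : d = 1 := by omega
          rw [h3, hi] at pd
          exact hS.ne s i pd.symm
        -- the second edge
        obtain ⟨h, hh1, hh2⟩ : ∃ h : G, p 2 = h • c ∧ h • a i = a i := by
          obtain ⟨g, j, ⟨h1, -⟩ | ⟨h1, h2⟩⟩ := hS.edge _ _ (padj 1 (by omega))
          · rw [hi] at h1
            exact absurd h1.symm (hS.ne g i)
          · rw [hi] at h2
            have h3 := hS.inj g j i h2.symm
            subst h3
            exact ⟨g, h1, h2.symm⟩
        have hw : (h⁻¹ * z ^ n * h) • c = c := by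
          rw [mul_smul, mul_smul, ← hh1, hfix 2, hh1, inv_smul_smul]
        have hwf : ¬ IsOfFinOrder (h⁻¹ * z ^ n * h) := by
          intro h1
          apply not_fin_zpow hz' hn
          rw [isOfFinOrder_iff_zpow_eq_one] at h1 ⊢
          obtain ⟨k, hk, h2⟩ := h1
          refine ⟨k, hk, ?_⟩
          have h3 := conj_zpow' h⁻¹ (z ^ n) k
          rw [inv_inv] at h3
          rw [h3] at h2
          have h4 : (z ^ n) ^ k = h * (h⁻¹ * (z ^ n) ^ k * h) * h⁻¹ := by group
          rw [h4, h2]
          group
        obtain ⟨m', n', hm', hn', hmn'⟩ := vc_pow hV (z := z) (w := h⁻¹ * z ^ n * h) hz hw hz' hwf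
        have hhC : h ∈ Com z := by
          refine ⟨m', n * n', hm', mul_ne_zero hn hn', ?_⟩
          have h3 := conj_zpow' h⁻¹ (z ^ n) n'
          rw [inv_inv] at h3
          rw [hmn', h3, zpow_mul]
          group
        have hsC : h⁻¹ * s ∈ Com z := (Com z).mul_mem ((Com z).inv_mem hhC) ⟨m, n, hm, hn, hmn⟩
        have hlt : X.dist c ((h⁻¹ * s) • c) < d := by
          have h1 : X.dist c ((h⁻¹ * s) • c) = X.dist (h • c) (s • c) := by
            rw [← dist_sm hS.tree h c ((h⁻¹ * s) • c), smul_smul, mul_inv_cancel_left]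
          have h2 := dist_pth hS.tree padj 2 (d - 2) (by omega)
          rw [show 2 + (d - 2) = d by omega, pd, hh1] at h2
          rw [h1]
          omega
        have h5 := ih _ hlt (h⁻¹ * s) rfl hsC
        have h6 : h ∈ Subgroup.closure {g | g ∈ Com z ∧ (g • c = c ∨ ∃ i, g • a i = a i)} :=
          Subgroup.subset_closure ⟨hhC, Or.inr ⟨i, hh2⟩⟩
        have h7 := Subgroup.mul_mem _ h6 h5
        rwa [mul_inv_cancel_left] at h7
  intro s hs
  exact key _ s rfl hs

/-- balanced in the vertex groups: balanced in the group -/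
theorem star_bal (hS : Star G X c a) (hV : VirtuallyCyclic (MulAction.stabilizer G c)) (z : G)
    (hz : z • c = c) (hz' : ¬ IsOfFinOrder z)
    (hb : ∀ (i : ι) (g : G) (m n : ℤ), g • a i = a i → m ≠ 0 → n ≠ 0 →
      g * z ^ m * g⁻¹ = z ^ n → |m| = |n|)
    (hc : ∀ (g : G) (m n : ℤ), g • c = c → m ≠ 0 → n ≠ 0 →
      g * z ^ m * g⁻¹ = z ^ n → |m| = |n|) : Bal z := by
  have key : ∀ g ∈ Subgroup.closure {g | g ∈ Com z ∧ (g • c = c ∨ ∃ i, g • a i = a i)},
      ∃ k l : ℤ, k ≠ 0 ∧ (l = k ∨ l = -k) ∧ g * z ^ k * g⁻¹ = z ^ l := by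
    intro g hg
    induction hg using Subgroup.closure_induction with
    | mem g hg =>
      obtain ⟨⟨m, n, hm, hn, hmn⟩, h1⟩ := hg
      have h2 : |m| = |n| := by
        rcases h1 with h1 | ⟨i, h1⟩
        · exact hc g m n h1 hm hn hmn
        · exact hb i g m n h1 hm hn hmn
      refine ⟨m, n, hm, ?_, hmn⟩
      rcases abs_eq_abs.1 h2 with h3 | h3
      · exact Or.inl h3.symm
      · exact Or.inr (by rw [h3, neg_neg])
    | one => exact ⟨1, 1, one_ne_zero, Or.inl rfl, by simp⟩
    | mul g h _ _ ih1 ih2 =>
      obtain ⟨m, n, hm, hn, h1⟩ := ih1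
      obtain ⟨p, q, hp, hq, h2⟩ := ih2
      refine ⟨p * m, n * q, mul_ne_zero hp hm, ?_, com_mul h1 h2⟩
      rcases hn with rfl | rfl <;> rcases hq with rfl | rfl
      · left; ring
      · right; ring
      · right; ring
      · left; ring
    | inv g _ ih =>
      obtain ⟨m, n, hm, hn, h1⟩ := ih
      refine ⟨n, m, ?_, ?_, com_inv h1⟩
      · rcases hn with rfl | rfl
        · exact hm
        · exact neg_ne_zero.2 hm
      · rcases hn with rfl | rfl
        · left; rfl
        · right; ring
  intro g m n hm hn hmn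
  obtain ⟨k, l, hk, hl, h1⟩ := key g (star_com hS hV z hz hz' ⟨m, n, hm, hn, hmn⟩)
  have h2 : z ^ (n * k) = z ^ (l * m) := by
    rw [zpow_mul, ← hmn, zpow_mul z l, ← h1, conj_zpow', conj_zpow', ← zpow_mul, ← zpow_mul, mul_comm m k]
  have h3 := (injective_zpow_iff_not_isOfFinOrder.2 hz') h2
  have h4 : |n| * |k| = |k| * |m| := by
    rw [← abs_mul, h3, abs_mul]
    congr 1
    rcases hl with rfl | rfl
    · rfl
    · exact abs_neg k
  have h5 : 0 < |k| := abs_pos.2 hk
  have h6 : |k| * |n| = |k| * |m| := by rw [mul_comm]; exact h4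
  exact (mul_left_cancel₀ h5.ne' h6).symm

end Pool.Agent.H76.VC
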