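import Pool.Agent.H76.VC.Path

/-!
# The tree of an amalgamated product

Module VC BS. The Bass-Serre tree of the amalgamated product `*_H (A i)` of a family of groups over a common subgroup `H`,
for any index type: the vertices are the cosets `g H` and the cosets `g (A i)`, for each coset `g H` and each `i` there is an
edge between `g H` and `g (A i)`.

Proof. Vertices: `(Monoid.PushoutI φ ⧸ (base φ).range) ⊕ (Σ i, Monoid.PushoutI φ ⧸ (of i).range)`. Connected: the group is
generated by the images of the `A i` and of `H`. Acyclic (`acyclic_parent`): there is a parent map with decreasing rank such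
that one end of each edge is the parent of the other end. Let `len g` and `idx g` be the length and the first index of the
normal form of `g⁻¹`. The parent of `g H` is `g (A i)` if `idx g = some i`; the parent of `g (A i)` is `g H` for the elements `g`
of the coset with `idx g ≠ some i` (they exist, `split`, and form one coset of `H`, `same`). The ranks are `2 len g`, and
`2 len g + 1` for these representatives.
-/

set_option autoImplicit false

namespace Pool.Agent.H76.VC

open Pool.Agent.H98.FJ Pool.Agent.H93.TR Monoid Monoid.PushoutI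

/-- A group acts on a tree which is the star of an orbit of edges: `c` is the centre, `a i` are the leaves of the
fundamental domain. -/
structure Star (G : Type) [Group G] {T : Type} [MulAction G T] (X : SimpleGraph T) {ι : Type}
    (c : T) (a : ι → T) : Prop where
  tree : OnTree G X
  adj : ∀ i, X.Adj c (a i)
  edge : ∀ v w, X.Adj v w → ∃ (g : G) (i : ι),
    (v = g • c ∧ w = g • a i) ∨ (w = g • c ∧ v = g • a i)
  vert : ∀ v, ∃ g : G, v = g • c ∨ ∃ i, v = g • a i
  ne : ∀ (g : G) (i : ι), g • c ≠ a i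
  fix : ∀ (g : G) (i : ι), g • c = c → g • a i = a i
  inj : ∀ (g : G) (i j : ι), g • a i = a j → i = j

/-! ### Graphs with a parent map -/

/-- a graph with a parent map is acyclic -/
private theorem acyclic_parent {V : Type} {X : SimpleGraph V} (r : V → ℕ) (f : V → V)
    (hr : ∀ z, r (f z) ≤ r z)
    (hX : ∀ z z', X.Adj z z' → (f z' = z ∧ r z < r z') ∨ (f z = z' ∧ r z' < r z)) : X.IsAcyclic := by
  rw [SimpleGraph.isAcyclic_iff_forall_adj_isBridge]
  have hit : ∀ (k : ℕ) (z : V), r (f^[k] z) ≤ r z := by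
    intro k
    induction k with
    | zero => exact fun z => le_refl _
    | succ k ih =>
      intro z
      rw [Function.iterate_succ_apply]
      exact (ih (f z)).trans (hr z)
  have key : ∀ x y : V, f x = y → r y < r x → ¬ (X.deleteEdges {s(x, y)}).Reachable x y := by
    intro x y hxy hlt hreach
    let D : V → Prop := fun z => ∃ k : ℕ, f^[k] z = x
    have hstep : ∀ z z' : V, (f z' = z) → ¬ (z' = x ∧ z = y) → (D z ↔ D z') := by
      intro z z' hz hne
      constructor
      · rintro ⟨k, hk⟩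
        refine ⟨k + 1, ?_⟩
        rw [Function.iterate_succ_apply, hz, hk]
      · rintro ⟨k, hk⟩
        cases k with
        | zero =>
          exfalso
          have h1 : z' = x := hk
          exact hne ⟨h1, by rw [← hz, h1, hxy]⟩
        | succ k =>
          rw [Function.iterate_succ_apply, hz] at hk
          exact ⟨k, hk⟩
    have hadj : ∀ z z' : V, (X.deleteEdges {s(x, y)}).Adj z z' → (D z ↔ D z') := by
      intro z z' h
      rw [SimpleGraph.deleteEdges_adj] at h
      obtain ⟨h1, h2⟩ := h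
      rcases hX z z' h1 with ⟨h3, -⟩ | ⟨h3, -⟩
      · refine hstep z z' h3 ?_
        rintro ⟨rfl, rfl⟩
        exact h2 Sym2.eq_swap
      · refine (hstep z' z h3 ?_).symm
        rintro ⟨rfl, rfl⟩
        exact h2 rfl
    have hall : ∀ z z' : V, (X.deleteEdges {s(x, y)}).Reachable z z' → (D z ↔ D z') := by
      rintro z z' ⟨q⟩
      induction q with
      | nil => exact Iff.rfl
      | cons h q ih => exact (hadj _ _ h).trans ih
    have h1 : D x := ⟨0, rfl⟩
    obtain ⟨k, hk⟩ := (hall x y hreach).1 h1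
    have h2 := hit k y
    rw [hk] at h2
    omega
  intro v w hvw
  rw [SimpleGraph.isBridge_iff]
  rcases hX v w hvw with ⟨h1, h2⟩ | ⟨h1, h2⟩
  · intro h
    refine key w v h1 h2 ?_
    rw [Sym2.eq_swap]
    exact h.symm
  · exact key v w h1 h2

/-! ### Normal forms -/

section NF

variable {ι H : Type} {A : ι → Type} [∀ i, Group (A i)] [Group H] {φ : ∀ i, H →* A i}
  {d : NormalWord.Transversal φ} [DecidableEq ι] [∀ i, DecidableEq (A i)]

/-- the length of the normal form of the inverse -/
private noncomputable def len (d : NormalWord.Transversal φ) (g : PushoutI φ) : ℕ :=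
  (g⁻¹ • (NormalWord.empty : NormalWord d)).toList.length

/-- the first index of the normal form of the inverse -/
private noncomputable def idx (d : NormalWord.Transversal φ) (g : PushoutI φ) : Option ι :=
  (g⁻¹ • (NormalWord.empty : NormalWord d)).fstIdx

private theorem len_base (g : PushoutI φ) (h : H) : len d (g * base φ h) = len d g := by
  unfold len
  rw [mul_inv_rev, ← map_inv, mul_smul, NormalWord.base_smul_def]

private theorem idx_base (g : PushoutI φ) (h : H) : idx d (g * base φ h) = idx d g := by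
  unfold idx
  rw [mul_inv_rev, ← map_inv, mul_smul, NormalWord.base_smul_def]

private theorem of_step (g : PushoutI φ) (i : ι) (a : A i) (ha : a ∉ (φ i).range) (hg : idx d g ≠ some i) :
    idx d (g * PushoutI.of i a) = some i ∧ len d (g * PushoutI.of i a) = len d g + 1 := by
  have ha' : a⁻¹ ∉ (φ i).range := fun h => ha (by simpa using inv_mem h)
  have hg' : (g⁻¹ • (NormalWord.empty : NormalWord d)).fstIdx ≠ some i := hg
  have h1 : (g * PushoutI.of i a)⁻¹ • (NormalWord.empty : NormalWord d) =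
      NormalWord.cons a⁻¹ (g⁻¹ • (NormalWord.empty : NormalWord d)) hg' ha' := by
    rw [NormalWord.cons_eq_smul, mul_inv_rev, ← map_inv, mul_smul]
  constructor
  · unfold idx
    rw [h1]
    unfold CoprodI.Word.fstIdx
    rw [NormalWord.cons_toList]
    rfl
  · unfold len
    rw [h1, NormalWord.cons_toList, List.length_cons]

private theorem split_word (i : ι) (w : NormalWord d) (hw : w.fstIdx = some i) :
    ∃ (a : A i) (w' : NormalWord d), w.prod = PushoutI.of i a * w'.prod ∧ w'.fstIdx ≠ some i ∧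
      w'.toList.length + 1 = w.toList.length := by
  induction w using NormalWord.consRecOn with
  | empty =>
    exact absurd hw (by simp [CoprodI.Word.fstIdx])
  | cons j g w hmw hgn hgr hw1 ih =>
    have h1 : (NormalWord.cons g w hmw hgr).fstIdx = some j := by
      unfold CoprodI.Word.fstIdx
      rw [NormalWord.cons_toList]
      rfl
    rw [h1] at hw
    obtain rfl : j = i := Option.some.inj hw
    refine ⟨g, w, NormalWord.prod_cons g w hmw hgr, hmw, ?_⟩
    rw [NormalWord.cons_toList, List.length_cons]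
  | base h w hw1 ih =>
    rw [NormalWord.base_smul_def] at hw ⊢
    obtain ⟨a, w', h1, h2, h3⟩ := ih hw
    refine ⟨φ i h * a, w', ?_, h2, h3⟩
    rw [← NormalWord.base_smul_def, NormalWord.prod_smul, h1, map_mul, of_apply_eq_base, mul_assoc]

private theorem split (g : PushoutI φ) (i : ι) :
    ∃ a : A i, idx d (g * PushoutI.of i a) ≠ some i ∧
      (idx d g = some i → len d (g * PushoutI.of i a) + 1 = len d g) := by
  by_cases hg : idx d g = some i
  · obtain ⟨a, w', h1, h2, h3⟩ := split_word i (g⁻¹ • (NormalWord.empty : NormalWord d)) hg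
    rw [NormalWord.prod_smul, NormalWord.prod_empty, mul_one] at h1
    have h4 : (g * PushoutI.of i a)⁻¹ = w'.prod := by
      rw [mul_inv_rev, h1, inv_mul_cancel_left]
    refine ⟨a, ?_, fun _ => ?_⟩
    · unfold idx
      rw [h4, NormalWord.prod_smul_empty]
      exact h2
    · unfold len
      rw [h4, NormalWord.prod_smul_empty]
      exact h3
  · refine ⟨1, ?_, fun h => absurd h hg⟩
    rw [map_one, mul_one]
    exact hg

/-- two elements of a coset of `A i` which both do not end with a letter of `A i` differ by an element of the base -/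
private theorem same (g : PushoutI φ) (i : ι) (a : A i) (h1 : idx d g ≠ some i)
    (h2 : idx d (g * PushoutI.of i a) ≠ some i) : PushoutI.of (φ := φ) i a ∈ (base φ).range := by
  by_contra h3
  have h4 : a ∉ (φ i).range := by
    rintro ⟨x, rfl⟩
    exact h3 ⟨x, (of_apply_eq_base φ i x).symm⟩
  exact h2 (of_step g i a h4 h1).1

end NF

/-! ### The tree -/

/-- the vertices: the cosets of the base and the cosets of the factors -/
private abbrev Vx {ι H : Type} {A : ι → Type} [∀ i, Group (A i)] [Group H] (φ : ∀ i, H →* A i) : Type :=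
  (PushoutI φ ⧸ (base φ).range) ⊕ (Σ i, PushoutI φ ⧸ (PushoutI.of (φ := φ) i).range)

/-- the cosets of the same element -/
private def adjx {ι H : Type} {A : ι → Type} [∀ i, Group (A i)] [Group H] (φ : ∀ i, H →* A i) : Vx φ → Vx φ → Prop
  | Sum.inl x, Sum.inr y => ∃ g : PushoutI φ, x = (g : PushoutI φ ⧸ (base φ).range) ∧ y = ⟨y.1, (g : PushoutI φ ⧸ (PushoutI.of (φ := φ) y.1).range)⟩
  | Sum.inr y, Sum.inl x => ∃ g : PushoutI φ, x = (g : PushoutI φ ⧸ (base φ).range) ∧ y = ⟨y.1, (g : PushoutI φ ⧸ (PushoutI.of (φ := φ) y.1).range)⟩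
  | _, _ => False

/-- the tree of the amalgamated product -/
private def Xg {ι H : Type} {A : ι → Type} [∀ i, Group (A i)] [Group H] (φ : ∀ i, H →* A i) : SimpleGraph (Vx φ) where
  Adj := adjx φ
  symm := ⟨by
    rintro (v | i) (w | j) h
    · exact h
    · exact h
    · exact h
    · exact h⟩
  loopless := ⟨by
    rintro (v | i) h
    · exact h
    · exact h⟩

section Tree

variable {ι H : Type} {A : ι → Type} [∀ i, Group (A i)] [Group H] {φ : ∀ i, H →* A i}

private theorem adj_mk (g : PushoutI φ) (i : ι) :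
    (Xg φ).Adj (Sum.inl (g : PushoutI φ ⧸ (base φ).range)) (Sum.inr ⟨i, (g : PushoutI φ ⧸ (PushoutI.of (φ := φ) i).range)⟩) :=
  ⟨g, rfl, rfl⟩

private theorem adj_cases {v w : Vx φ} (h : (Xg φ).Adj v w) : ∃ (g : PushoutI φ) (i : ι),
    (v = Sum.inl (g : PushoutI φ ⧸ (base φ).range) ∧ w = Sum.inr ⟨i, (g : PushoutI φ ⧸ (PushoutI.of (φ := φ) i).range)⟩) ∨
    (w = Sum.inl (g : PushoutI φ ⧸ (base φ).range) ∧ v = Sum.inr ⟨i, (g : PushoutI φ ⧸ (PushoutI.of (φ := φ) i).range)⟩) := by
  rcases v with x | ⟨i, y⟩ <;> rcases w with x' | ⟨j, y'⟩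
  · exact absurd h (fun h => h)
  · obtain ⟨g, h1, h2⟩ := h
    exact ⟨g, j, Or.inl ⟨by rw [h1], by rw [h2]⟩⟩
  · obtain ⟨g, h1, h2⟩ := h
    exact ⟨g, i, Or.inr ⟨by rw [h1], by rw [h2]⟩⟩
  · exact absurd h (fun h => h)

private theorem base_le (i : ι) : (base φ).range ≤ (PushoutI.of (φ := φ) i).range := by
  rintro _ ⟨h, rfl⟩
  exact ⟨φ i h, of_apply_eq_base φ i h⟩

private theorem mk_base (g : PushoutI φ) (h : H) :
    ((g * base φ h : PushoutI φ) : PushoutI φ ⧸ (base φ).range) = (g : PushoutI φ ⧸ (base φ).range) :=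
  QuotientGroup.mk_mul_of_mem g ⟨h, rfl⟩

private theorem mk_of (g : PushoutI φ) (i : ι) (a : A i) :
    ((g * PushoutI.of i a : PushoutI φ) : PushoutI φ ⧸ (PushoutI.of (φ := φ) i).range) =
      (g : PushoutI φ ⧸ (PushoutI.of (φ := φ) i).range) :=
  QuotientGroup.mk_mul_of_mem g ⟨a, rfl⟩

private theorem conn : (Xg φ).Connected := by
  have h1 : ∀ (g : PushoutI φ) (i : ι) (a : A i), (Xg φ).Reachable
      (Sum.inl (g : PushoutI φ ⧸ (base φ).range)) (Sum.inl ((g * PushoutI.of i a : PushoutI φ) : PushoutI φ ⧸ (base φ).range)) := by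
    intro g i a
    have h2 := adj_mk (φ := φ) (g * PushoutI.of i a) i
    rw [mk_of] at h2
    exact (adj_mk g i).reachable.trans h2.symm.reachable
  have h2 : ∀ (x g : PushoutI φ), (Xg φ).Reachable
      (Sum.inl (g : PushoutI φ ⧸ (base φ).range)) (Sum.inl ((g * x : PushoutI φ) : PushoutI φ ⧸ (base φ).range)) := by
    intro x
    induction x using PushoutI.induction_on with
    | of i a => exact fun g => h1 g i a
    | base h =>
      intro g
      rw [mk_base]
    | mul x y hx hy =>
      intro g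
      rw [← mul_assoc]
      exact (hx g).trans (hy (g * x))
  have h3 : ∀ v : Vx φ, (Xg φ).Reachable (Sum.inl ((1 : PushoutI φ) : PushoutI φ ⧸ (base φ).range)) v := by
    have h4 : ∀ g : PushoutI φ, (Xg φ).Reachable (Sum.inl ((1 : PushoutI φ) : PushoutI φ ⧸ (base φ).range))
        (Sum.inl (g : PushoutI φ ⧸ (base φ).range)) := by
      intro g
      have h5 := h2 g 1
      rwa [one_mul] at h5
    rintro (x | ⟨i, y⟩)
    · obtain ⟨g, rfl⟩ := QuotientGroup.mk_surjective x
      exact h4 g
    · obtain ⟨g, rfl⟩ := QuotientGroup.mk_surjective y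
      exact (h4 g).trans (adj_mk g i).reachable
  have : Nonempty (Vx φ) := ⟨Sum.inl ((1 : PushoutI φ) : PushoutI φ ⧸ (base φ).range)⟩
  exact ⟨fun v w => (h3 v).symm.trans (h3 w)⟩

private theorem acyc (hφ : ∀ i, Function.Injective (φ i)) : (Xg φ).IsAcyclic := by
  classical
  obtain ⟨d⟩ := NormalWord.transversal_nonempty φ hφ
  -- representatives of the cosets of the base
  let p : PushoutI φ ⧸ (base φ).range → PushoutI φ := Quotient.out
  have hp : ∀ g : PushoutI φ, ∃ h : H, p (g : PushoutI φ ⧸ (base φ).range) = g * base φ h := by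
    intro g
    have h1 : (p (g : PushoutI φ ⧸ (base φ).range) : PushoutI φ ⧸ (base φ).range) = (g : PushoutI φ ⧸ (base φ).range) :=
      QuotientGroup.out_eq' _
    obtain ⟨h, hh⟩ := QuotientGroup.eq.1 h1.symm
    exact ⟨h, by rw [hh, mul_inv_cancel_left]⟩
  -- representatives of the cosets of the factors
  have hq0 : ∀ (i : ι) (y : PushoutI φ ⧸ (PushoutI.of (φ := φ) i).range), ∃ g : PushoutI φ,
      (g : PushoutI φ ⧸ (PushoutI.of (φ := φ) i).range) = y ∧ idx d g ≠ some i := by
    intro i y
    obtain ⟨g, rfl⟩ := QuotientGroup.mk_surjective y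
    obtain ⟨a, h1, -⟩ := split (d := d) g i
    exact ⟨g * PushoutI.of i a, mk_of g i a, h1⟩
  choose q hq1 hq2 using hq0
  have hq3 : ∀ (g : PushoutI φ) (i : ι), idx d g ≠ some i →
      ∃ h : H, q i (g : PushoutI φ ⧸ (PushoutI.of (φ := φ) i).range) = g * base φ h := by
    intro g i hg
    obtain ⟨a, ha⟩ := QuotientGroup.eq.1 (hq1 i (g : PushoutI φ ⧸ (PushoutI.of (φ := φ) i).range)).symm
    have h1 : q i (g : PushoutI φ ⧸ (PushoutI.of (φ := φ) i).range) = g * PushoutI.of i a := by
      rw [ha, mul_inv_cancel_left]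
    have h2 := hq2 i (g : PushoutI φ ⧸ (PushoutI.of (φ := φ) i).range)
    rw [h1] at h2
    obtain ⟨h, hh⟩ := same g i a hg h2
    exact ⟨h, by rw [h1, hh]⟩
  let r : Vx φ → ℕ := Sum.elim (fun x => 2 * len d (p x)) (fun y => 2 * len d (q y.1 y.2) + 1)
  let f : Vx φ → Vx φ := Sum.elim
    (fun x => match idx d (p x) with
      | none => Sum.inl x
      | some i => Sum.inr ⟨i, ((p x : PushoutI φ) : PushoutI φ ⧸ (PushoutI.of (φ := φ) i).range)⟩)
    (fun y => Sum.inl ((q y.1 y.2 : PushoutI φ) : PushoutI φ ⧸ (base φ).range))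
  have hrl : ∀ g : PushoutI φ, r (Sum.inl (g : PushoutI φ ⧸ (base φ).range)) = 2 * len d g := by
    intro g
    obtain ⟨h, hh⟩ := hp g
    show 2 * len d (p _) = _
    rw [hh, len_base]
  have hil : ∀ g : PushoutI φ, idx d (p (g : PushoutI φ ⧸ (base φ).range)) = idx d g := by
    intro g
    obtain ⟨h, hh⟩ := hp g
    rw [hh, idx_base]
  -- the parent of a coset of the base
  have hfl : ∀ (g : PushoutI φ) (i : ι), idx d g = some i →
      f (Sum.inl (g : PushoutI φ ⧸ (base φ).range)) = Sum.inr ⟨i, (g : PushoutI φ ⧸ (PushoutI.of (φ := φ) i).range)⟩ ∧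
      r (Sum.inr ⟨i, (g : PushoutI φ ⧸ (PushoutI.of (φ := φ) i).range)⟩) < r (Sum.inl (g : PushoutI φ ⧸ (base φ).range)) := by
    intro g i hg
    obtain ⟨h, hh⟩ := hp g
    constructor
    · show (match idx d (p (g : PushoutI φ ⧸ (base φ).range)) with
        | none => Sum.inl (g : PushoutI φ ⧸ (base φ).range)
        | some i => Sum.inr ⟨i, ((p (g : PushoutI φ ⧸ (base φ).range) : PushoutI φ) : PushoutI φ ⧸ (PushoutI.of (φ := φ) i).range)⟩ : Vx φ) = _
      rw [hil g, hg, hh]
      have h2 : ((g * base φ h : PushoutI φ) : PushoutI φ ⧸ (PushoutI.of (φ := φ) i).range) =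
          (g : PushoutI φ ⧸ (PushoutI.of (φ := φ) i).range) :=
        QuotientGroup.mk_mul_of_mem g (base_le i ⟨h, rfl⟩)
      exact congrArg (fun t => (Sum.inr ⟨i, t⟩ : Vx φ)) h2
    · rw [hrl]
      obtain ⟨a, h1, h2⟩ := split (d := d) g i
      have h3 := h2 hg
      obtain ⟨h', hh'⟩ := hq3 (g * PushoutI.of i a) i h1
      rw [mk_of] at hh'
      show 2 * len d (q i _) + 1 < _
      rw [hh', len_base]
      omega
  have hfr : ∀ (g : PushoutI φ) (i : ι), idx d g ≠ some i →
      f (Sum.inr ⟨i, (g : PushoutI φ ⧸ (PushoutI.of (φ := φ) i).range)⟩) = Sum.inl (g : PushoutI φ ⧸ (base φ).range) ∧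
      r (Sum.inl (g : PushoutI φ ⧸ (base φ).range)) < r (Sum.inr ⟨i, (g : PushoutI φ ⧸ (PushoutI.of (φ := φ) i).range)⟩) := by
    intro g i hg
    obtain ⟨h, hh⟩ := hq3 g i hg
    constructor
    · show (Sum.inl ((q i (g : PushoutI φ ⧸ (PushoutI.of (φ := φ) i).range) : PushoutI φ) : PushoutI φ ⧸ (base φ).range) : Vx φ) = _
      rw [hh, mk_base]
    · rw [hrl]
      show _ < 2 * len d (q i _) + 1
      rw [hh, len_base]
      omega
  refine acyclic_parent r f ?_ ?_
  · rintro (x | ⟨i, y⟩)
    · obtain ⟨g, rfl⟩ := QuotientGroup.mk_surjective x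
      cases hg : idx d g with
      | none =>
        have h1 : f (Sum.inl (g : PushoutI φ ⧸ (base φ).range)) = Sum.inl (g : PushoutI φ ⧸ (base φ).range) := by
          show (match idx d (p (g : PushoutI φ ⧸ (base φ).range)) with
            | none => Sum.inl (g : PushoutI φ ⧸ (base φ).range)
            | some i => Sum.inr ⟨i, ((p (g : PushoutI φ ⧸ (base φ).range) : PushoutI φ) : PushoutI φ ⧸ (PushoutI.of (φ := φ) i).range)⟩ : Vx φ) = _
          rw [hil g, hg]
        exact (congrArg r h1).le
      | some i =>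
        obtain ⟨h1, h2⟩ := hfl g i hg
        exact (congrArg r h1).le.trans h2.le
    · obtain ⟨g, rfl⟩ := QuotientGroup.mk_surjective y
      show r (Sum.inl ((q i (g : PushoutI φ ⧸ (PushoutI.of (φ := φ) i).range) : PushoutI φ) : PushoutI φ ⧸ (base φ).range)) ≤
        2 * len d (q i (g : PushoutI φ ⧸ (PushoutI.of (φ := φ) i).range)) + 1
      rw [hrl]
      omega
  · intro z z' hz
    obtain ⟨g, i, ⟨rfl, rfl⟩ | ⟨rfl, rfl⟩⟩ := adj_cases hz
    · by_cases hg : idx d g = some i
      · exact Or.inr (hfl g i hg)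
      · exact Or.inl (hfr g i hg)
    · by_cases hg : idx d g = some i
      · exact Or.inl (hfl g i hg)
      · exact Or.inr (hfr g i hg)

end Tree

/-- the Bass-Serre tree of an amalgamated product -/
theorem exists_star {ι H : Type} {A : ι → Type} [∀ i, Group (A i)] [Group H]
    (φ : ∀ i, H →* A i) (hφ : ∀ i, Function.Injective (φ i)) :
    ∃ (T : Type) (_ : MulAction (Monoid.PushoutI φ) T) (X : SimpleGraph T) (c : T) (a : ι → T),
      Star (Monoid.PushoutI φ) X c a ∧
      MulAction.stabilizer (Monoid.PushoutI φ) c = (Monoid.PushoutI.base φ).range ∧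
      ∀ i, MulAction.stabilizer (Monoid.PushoutI φ) (a i) =
        (Monoid.PushoutI.of (φ := φ) i).range := by
  refine ⟨Vx φ, inferInstance, Xg φ, Sum.inl ((1 : PushoutI φ) : PushoutI φ ⧸ (base φ).range),
    fun i => Sum.inr ⟨i, ((1 : PushoutI φ) : PushoutI φ ⧸ (PushoutI.of (φ := φ) i).range)⟩, ?_, ?_, ?_⟩
  · have hc : ∀ g : PushoutI φ, g • (Sum.inl ((1 : PushoutI φ) : PushoutI φ ⧸ (base φ).range) : Vx φ) =
        Sum.inl (g : PushoutI φ ⧸ (base φ).range) := by
      intro g
      show (Sum.inl ((g * 1 : PushoutI φ) : PushoutI φ ⧸ (base φ).range) : Vx φ) = _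
      rw [mul_one]
    have ha : ∀ (g : PushoutI φ) (i : ι), g • (Sum.inr ⟨i, ((1 : PushoutI φ) : PushoutI φ ⧸ (PushoutI.of (φ := φ) i).range)⟩ : Vx φ) =
        Sum.inr ⟨i, (g : PushoutI φ ⧸ (PushoutI.of (φ := φ) i).range)⟩ := by
      intro g i
      show (Sum.inr ⟨i, ((g * 1 : PushoutI φ) : PushoutI φ ⧸ (PushoutI.of (φ := φ) i).range)⟩ : Vx φ) = _
      rw [mul_one]
    refine ⟨⟨⟨conn, acyc hφ⟩, ?_⟩, fun i => adj_mk 1 i, ?_, ?_, ?_, ?_, ?_⟩
    · intro g v w hvw
      obtain ⟨x, i, ⟨rfl, rfl⟩ | ⟨rfl, rfl⟩⟩ := adj_cases hvw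
      · exact adj_mk (g * x) i
      · exact (adj_mk (g * x) i).symm
    · intro v w hvw
      obtain ⟨x, i, ⟨rfl, rfl⟩ | ⟨rfl, rfl⟩⟩ := adj_cases hvw
      · exact ⟨x, i, Or.inl ⟨(hc x).symm, (ha x i).symm⟩⟩
      · exact ⟨x, i, Or.inr ⟨(hc x).symm, (ha x i).symm⟩⟩
    · rintro (x | ⟨i, y⟩)
      · obtain ⟨g, rfl⟩ := QuotientGroup.mk_surjective x
        exact ⟨g, Or.inl (hc g).symm⟩
      · obtain ⟨g, rfl⟩ := QuotientGroup.mk_surjective y
        exact ⟨g, Or.inr ⟨i, (ha g i).symm⟩⟩
    · intro g i h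
      rw [hc] at h
      exact Sum.inl_ne_inr h
    · intro g i h
      rw [hc] at h
      rw [ha]
      have h1 : (g : PushoutI φ ⧸ (base φ).range) = ((1 : PushoutI φ) : PushoutI φ ⧸ (base φ).range) := Sum.inl_injective h
      have h2 : (g : PushoutI φ ⧸ (PushoutI.of (φ := φ) i).range) = ((1 : PushoutI φ) : PushoutI φ ⧸ (PushoutI.of (φ := φ) i).range) :=
        QuotientGroup.eq.2 (base_le i (QuotientGroup.eq.1 h1))
      rw [h2]
    · intro g i j h
      rw [ha] at h
      have h1 := Sum.inr_injective h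
      exact congrArg Sigma.fst h1
  · ext g
    rw [MulAction.mem_stabilizer_iff]
    have h1 : (g • (Sum.inl ((1 : PushoutI φ) : PushoutI φ ⧸ (base φ).range) : Vx φ) =
        Sum.inl ((1 : PushoutI φ) : PushoutI φ ⧸ (base φ).range)) ↔
        g • ((1 : PushoutI φ) : PushoutI φ ⧸ (base φ).range) = ((1 : PushoutI φ) : PushoutI φ ⧸ (base φ).range) :=
      Sum.inl_injective.eq_iff
    rw [h1, ← MulAction.mem_stabilizer_iff, MulAction.stabilizer_quotient]
  · intro i
    ext g
    rw [MulAction.mem_stabilizer_iff]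
    have h1 : (g • (Sum.inr ⟨i, ((1 : PushoutI φ) : PushoutI φ ⧸ (PushoutI.of (φ := φ) i).range)⟩ : Vx φ) =
        Sum.inr ⟨i, ((1 : PushoutI φ) : PushoutI φ ⧸ (PushoutI.of (φ := φ) i).range)⟩) ↔
        g • ((1 : PushoutI φ) : PushoutI φ ⧸ (PushoutI.of (φ := φ) i).range) =
          ((1 : PushoutI φ) : PushoutI φ ⧸ (PushoutI.of (φ := φ) i).range) := by
      constructor
      · intro h
        have h2 := Sum.inr_injective h
        exact eq_of_heq (Sigma.mk.inj h2).2
      · intro h
        show (Sum.inr ⟨i, g • ((1 : PushoutI φ) : PushoutI φ ⧸ (PushoutI.of (φ := φ) i).range)⟩ : Vx φ) = _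
        rw [h]
    rw [h1, ← MulAction.mem_stabilizer_iff, MulAction.stabilizer_quotient]

end Pool.Agent.H76.VC
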