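import Pool.Agent.H76.VC.Cone
import Pool.Agent.H76.VC.Cyc

/-!
# Classes of edges with commensurable infinite stabilisers
-/

set_option autoImplicit false

namespace Pool.Agent.H76.VC

open Pool.Agent.H98.FJ Pool.Agent.H93.TR

theorem not_fin_conj {G : Type} [Group G] {z : G} (hz : ¬ IsOfFinOrder z) (g : G) :
    ¬ IsOfFinOrder (g * z * g⁻¹) := by
  intro h
  apply hz
  rw [isOfFinOrder_iff_pow_eq_one] at h ⊢
  obtain ⟨n, hn, h1⟩ := h
  refine ⟨n, hn, ?_⟩
  rw [conj_pow] at h1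
  exact conj_eq_one_iff.1 h1

variable {G V : Type} [Group G] [MulAction G V] {X : SimpleGraph V}

/-- some element of infinite order fixes the four points -/
def Lk (G : Type) [Group G] {V : Type} [MulAction G V] (v w a b : V) : Prop :=
  ∃ z : G, ¬ IsOfFinOrder z ∧ z • v = v ∧ z • w = w ∧ z • a = a ∧ z • b = b

theorem Lk.symm {v w a b : V} (h : Lk G v w a b) : Lk G a b v w := by
  obtain ⟨z, h0, h1, h2, h3, h4⟩ := h
  exact ⟨z, h0, h3, h4, h1, h2⟩

theorem Lk.swapl {v w a b : V} (h : Lk G v w a b) : Lk G w v a b := by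
  obtain ⟨z, h0, h1, h2, h3, h4⟩ := h
  exact ⟨z, h0, h2, h1, h3, h4⟩

theorem Lk.swapr {v w a b : V} (h : Lk G v w a b) : Lk G v w b a := by
  obtain ⟨z, h0, h1, h2, h3, h4⟩ := h
  exact ⟨z, h0, h1, h2, h4, h3⟩

theorem Lk.smul {v w a b : V} (h : Lk G v w a b) (g : G) :
    Lk G (g • v) (g • w) (g • a) (g • b) := by
  obtain ⟨z, h0, h1, h2, h3, h4⟩ := h
  refine ⟨g * z * g⁻¹, not_fin_conj h0 g, ?_, ?_, ?_, ?_⟩ <;>
    rw [mul_smul, mul_smul, inv_smul_smul] <;> simp only [h1, h2, h3, h4]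

theorem zpow_fix {z : G} {v : V} (h : z • v = v) (m : ℤ) : z ^ m • v = v := by
  have h1 : z ^ m ∈ MulAction.stabilizer G v := Subgroup.zpow_mem _ h m
  exact h1

/-- the edge stabilisers are virtually cyclic -/
def EdgeVC (G : Type) [Group G] {V : Type} [MulAction G V] (X : SimpleGraph V) : Prop :=
  ∀ v w : V, X.Adj v w →
    VirtuallyCyclic (MulAction.stabilizer G v ⊓ MulAction.stabilizer G w : Subgroup G)

theorem Lk.trans (hE : EdgeVC G X) {v w a b c d : V} (hab : X.Adj a b) (h1 : Lk G v w a b)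
    (h2 : Lk G a b c d) : Lk G v w c d := by
  obtain ⟨z, h0, hv, hw, ha, hb⟩ := h1
  obtain ⟨y, hy0, hya, hyb, hc, hd⟩ := h2
  obtain ⟨m, n, hm, hn, hmn⟩ := vc_pow (hE a b hab) (z := z) (w := y)
    (Subgroup.mem_inf.2 ⟨ha, hb⟩) (Subgroup.mem_inf.2 ⟨hya, hyb⟩) h0 hy0
  refine ⟨z ^ m, not_fin_zpow h0 hm, zpow_fix hv m, zpow_fix hw m, ?_, ?_⟩
  · rw [hmn]
    exact zpow_fix hc n
  · rw [hmn]
    exact zpow_fix hd n

/-- the graph of the edges of the class of `(v, w)` -/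
def cls (G : Type) [Group G] {V : Type} [MulAction G V] (X : SimpleGraph V) (v w : V) :
    SimpleGraph V where
  Adj a b := X.Adj a b ∧ ((a = v ∧ b = w) ∨ (a = w ∧ b = v) ∨ Lk G v w a b)
  symm := ⟨by
    rintro a b ⟨h, h1⟩
    refine ⟨h.symm, ?_⟩
    rcases h1 with ⟨h1, h2⟩ | ⟨h1, h2⟩ | h1
    · exact Or.inr (Or.inl ⟨h2, h1⟩)
    · exact Or.inl ⟨h2, h1⟩
    · exact Or.inr (Or.inr h1.swapr)⟩
  loopless := ⟨fun a h => X.loopless.irrefl a h.1⟩

theorem cls_adj {v w a b : V} : (cls G X v w).Adj a b ↔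
    X.Adj a b ∧ ((a = v ∧ b = w) ∨ (a = w ∧ b = v) ∨ Lk G v w a b) := Iff.rfl

theorem cls_self {v w : V} (h : X.Adj v w) : (cls G X v w).Adj v w :=
  ⟨h, Or.inl ⟨rfl, rfl⟩⟩

theorem cls_symm {v w a b : V} (h : X.Adj v w) (h1 : (cls G X v w).Adj a b) :
    (cls G X a b).Adj v w := by
  refine ⟨h, ?_⟩
  rcases h1.2 with ⟨h2, h3⟩ | ⟨h2, h3⟩ | h2
  · exact Or.inl ⟨h2.symm, h3.symm⟩
  · exact Or.inr (Or.inl ⟨h3.symm, h2.symm⟩)
  · exact Or.inr (Or.inr h2.symm)

theorem cls_le (hE : EdgeVC G X) {v w a b : V} (h1 : (cls G X v w).Adj a b) :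
    cls G X a b ≤ cls G X v w := by
  intro c d hcd
  refine ⟨hcd.1, ?_⟩
  rcases h1.2 with ⟨rfl, rfl⟩ | ⟨rfl, rfl⟩ | h2
  · exact hcd.2
  · rcases hcd.2 with ⟨h3, h4⟩ | ⟨h3, h4⟩ | h3
    · exact Or.inr (Or.inl ⟨h3, h4⟩)
    · exact Or.inl ⟨h3, h4⟩
    · exact Or.inr (Or.inr h3.swapl)
  · rcases hcd.2 with ⟨rfl, rfl⟩ | ⟨rfl, rfl⟩ | h3
    · exact Or.inr (Or.inr h2)
    · exact Or.inr (Or.inr h2.swapr)
    · exact Or.inr (Or.inr (h2.trans hE h1.1 h3))

theorem cls_eq (hE : EdgeVC G X) {v w a b : V} (h : X.Adj v w) (h1 : (cls G X v w).Adj a b) :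
    cls G X v w = cls G X a b :=
  le_antisymm (cls_le hE (cls_symm h h1)) (cls_le hE h1)

/-- the set of classes -/
def Cl (G : Type) [Group G] {V : Type} [MulAction G V] (X : SimpleGraph V) : Type :=
  {P : SimpleGraph V // ∃ v w, X.Adj v w ∧ P = cls G X v w}

theorem cls_smul (hX : OnTree G X) (g : G) (v w : V) :
    (cls G X v w).comap (fun x => g⁻¹ • x) = cls G X (g • v) (g • w) := by
  have hadj : ∀ (h : G) (a b : V), X.Adj (h • a) (h • b) ↔ X.Adj a b := by
    intro h a b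
    constructor
    · intro h1
      have h2 := hX.adj h⁻¹ _ _ h1
      rwa [inv_smul_smul, inv_smul_smul] at h2
    · exact hX.adj h a b
  ext a b
  rw [SimpleGraph.comap_adj, cls_adj, cls_adj, hadj, inv_smul_eq_iff, inv_smul_eq_iff,
    inv_smul_eq_iff, inv_smul_eq_iff]
  have h3 : Lk G v w (g⁻¹ • a) (g⁻¹ • b) ↔ Lk G (g • v) (g • w) a b := by
    constructor
    · intro h
      have h4 := h.smul g
      rwa [smul_inv_smul, smul_inv_smul] at h4
    · intro h
      have h4 := h.smul g⁻¹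
      rwa [inv_smul_smul, inv_smul_smul] at h4
  rw [h3]

/-- the action on the classes -/
@[reducible] def clAction (hX : OnTree G X) : MulAction G (Cl G X) where
  smul g P := ⟨P.1.comap (fun x => g⁻¹ • x), by
    obtain ⟨P, v, w, h, rfl⟩ := P
    exact ⟨g • v, g • w, hX.adj g v w h, cls_smul hX g v w⟩⟩
  one_smul P := by
    apply Subtype.ext
    change P.1.comap (fun x => (1 : G)⁻¹ • x) = P.1
    ext a b
    simp
  mul_smul g h P := by
    apply Subtype.ext
    change P.1.comap (fun x => (g * h)⁻¹ • x) =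
      (P.1.comap (fun x => h⁻¹ • x)).comap (fun x => g⁻¹ • x)
    ext a b
    simp [mul_inv_rev, mul_smul]

theorem cl_smul_adj (hX : OnTree G X) (g : G) (i : Cl G X) (v w : V) (h : i.1.Adj v w) :
    ((clAction hX).toSMul.smul g i).1.Adj (g • v) (g • w) := by
  change i.1.Adj (g⁻¹ • g • v) (g⁻¹ • g • w)
  rwa [inv_smul_smul, inv_smul_smul]

/-- the classes are a partition of the edges into connected graphs -/
theorem cl_parts (hX : OnTree G X) (hE : EdgeVC G X) :
    Parts X (fun i : Cl G X => i.1) where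
  le := by
    rintro ⟨P, v, w, h, rfl⟩ a b hab
    exact hab.1
  cov v w h := ⟨⟨cls G X v w, v, w, h, rfl⟩, cls_self h⟩
  dis := by
    rintro ⟨P, v, w, h, rfl⟩ ⟨Q, v', w', h', rfl⟩ a b h1 h2
    apply Subtype.ext
    change cls G X v w = cls G X v' w'
    rw [cls_eq hE h h1, cls_eq hE h' h2]
  ne := by
    rintro ⟨P, v, w, h, rfl⟩
    exact ⟨v, w, cls_self h⟩
  con := by
    rintro ⟨P, a, b, h, rfl⟩ v w v' w' h1 h2
    change (cls G X a b).Adj v w at h1
    change (cls G X a b).Adj v' w' at h2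
    change (cls G X a b).Reachable v v'
    rw [cls_eq hE h h1] at h2 ⊢
    have hvw := h1.1
    rcases h2.2 with ⟨rfl, rfl⟩ | ⟨rfl, rfl⟩ | ⟨z, h0, hv, hw, hv', hw'⟩
    · exact SimpleGraph.Reachable.refl _
    · exact (cls_self hvw).reachable
    · obtain ⟨q, hq⟩ := fixed_walk (G := G) hX v v'
      have hq' := hq z hv hv'
      clear hq
      have key : ∀ (x y : V) (q : X.Walk x y), (∀ u ∈ q.support, z • u = u) →
          (cls G X v w).Reachable x y := by
        intro x y q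
        induction q with
        | nil => exact fun _ => SimpleGraph.Reachable.refl _
        | @cons x x' y hadj q ih =>
          intro hs
          rw [SimpleGraph.Walk.support_cons] at hs
          have hx := hs x List.mem_cons_self
          have hx' := hs x' (List.mem_cons_of_mem _ q.start_mem_support)
          have h3 : (cls G X v w).Adj x x' :=
            ⟨hadj, Or.inr (Or.inr ⟨z, h0, hv, hw, hx, hx'⟩)⟩
          exact h3.reachable.trans (ih (fun u hu => hs u (List.mem_cons_of_mem _ hu)))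
      exact key v v' q hq'

theorem cl_fix_adj (hX : OnTree G X) {v w : V} {i : Cl G X} (hi : i.1.Adj v w)
    (g : G) (hg : (clAction hX).toSMul.smul g i = i) : i.1.Adj (g • v) (g • w) := by
  have h1 := cl_smul_adj hX g i v w hi
  rwa [hg] at h1

/-- the stabiliser of the class of an edge whose stabiliser is a torsion group -/
theorem cl_stab_fin (hX : OnTree G X) (hE : EdgeVC G X) (hinv : NoInv X (⊤ : Subgroup G))
    {v w : V} {i : Cl G X} (hi : i.1.Adj v w)
    (ht : ∀ z : G, z • v = v → z • w = w → IsOfFinOrder z) (g : G)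
    (hg : (clAction hX).toSMul.smul g i = i) : g • v = v := by
  have h1 := cl_fix_adj hX hi g hg
  have h2 : X.Adj v w := (cl_parts hX hE).le i hi
  obtain ⟨P, a, b, hab, rfl⟩ := i
  change (cls G X a b).Adj v w at hi
  change (cls G X a b).Adj (g • v) (g • w) at h1
  rw [cls_eq hE hab hi] at h1
  rcases h1.2 with ⟨h3, -⟩ | ⟨h3, h4⟩ | ⟨z, h0, hv, hw, -, -⟩
  · exact h3
  · exact absurd h4 (fun h4 => hinv g trivial v w h2 h3 h4)
  · exact absurd (ht z hv hw) h0

/-- the stabiliser of the class of an edge which is fixed by an element of infinite order is contained in the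
commensurator of this element -/
theorem cl_stab_com (hX : OnTree G X) (hE : EdgeVC G X) {v w : V} {i : Cl G X}
    (hi : i.1.Adj v w) {z : G} (hz : ¬ IsOfFinOrder z) (hv : z • v = v) (hw : z • w = w) (g : G)
    (hg : (clAction hX).toSMul.smul g i = i) : g ∈ Com z := by
  have h1 := cl_fix_adj hX hi g hg
  have h2 : X.Adj v w := (cl_parts hX hE).le i hi
  have h3 : X.Adj (g • v) (g • w) := hX.adj g v w h2
  have hgv : (g * z * g⁻¹) • g • v = g • v := by
    rw [mul_smul, inv_smul_smul, mul_smul, hv]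
  have hgw : (g * z * g⁻¹) • g • w = g • w := by
    rw [mul_smul, inv_smul_smul, mul_smul, hw]
  obtain ⟨P, a, b, hab, rfl⟩ := i
  change (cls G X a b).Adj v w at hi
  change (cls G X a b).Adj (g • v) (g • w) at h1
  rw [cls_eq hE hab hi] at h1
  have key : ∃ m n : ℤ, m ≠ 0 ∧ n ≠ 0 ∧ (g * z * g⁻¹) ^ m = z ^ n := by
    rcases h1.2 with ⟨h4, h5⟩ | ⟨h4, h5⟩ | ⟨y, h0, hyv, hyw, hygv, hygw⟩
    · rw [h4] at hgv
      rw [h5] at hgw
      exact vc_pow (hE v w h2) (Subgroup.mem_inf.2 ⟨hgv, hgw⟩) (Subgroup.mem_inf.2 ⟨hv, hw⟩)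
        (not_fin_conj hz g) hz
    · rw [h4] at hgv
      rw [h5] at hgw
      exact vc_pow (hE v w h2) (Subgroup.mem_inf.2 ⟨hgw, hgv⟩) (Subgroup.mem_inf.2 ⟨hv, hw⟩)
        (not_fin_conj hz g) hz
    · obtain ⟨k, l, hk, hl, h6⟩ := vc_pow (hE v w h2) (z := z) (w := y)
        (Subgroup.mem_inf.2 ⟨hv, hw⟩) (Subgroup.mem_inf.2 ⟨hyv, hyw⟩) hz h0
      obtain ⟨k', l', hk', hl', h7⟩ := vc_pow (hE _ _ h3) (z := g * z * g⁻¹) (w := y)
        (Subgroup.mem_inf.2 ⟨hgv, hgw⟩) (Subgroup.mem_inf.2 ⟨hygv, hygw⟩) (not_fin_conj hz g) h0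
      refine ⟨k' * l, k * l', mul_ne_zero hk' hl, mul_ne_zero hk hl', ?_⟩
      rw [zpow_mul, h7, zpow_mul, h6, ← zpow_mul, ← zpow_mul, mul_comm]
  obtain ⟨m, n, hm, hn, h6⟩ := key
  rw [conj_zpow'] at h6
  exact ⟨m, n, hm, hn, h6⟩

end Pool.Agent.H76.VC
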