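import Pool.Agent.H76.VC.Path

/-!
# Trees of cylinders

Module VC CONE. The edge set of a tree `X` is partitioned into subtrees `P i`. The cone graph has the vertices of `X` and
the indices as vertices; `v` and `i` are adjacent if `v` is a vertex of `P i`.

Proof of `cone_tree`. Connected: clear (`cov`, `ne`). Acyclic: every edge `(v, i)` of the cone graph is a bridge
(`SimpleGraph.isAcyclic_iff_forall_adj_isBridge`). Let `D` be the set of vertices of `X` which can be reached from `v` in `X`
without the edges of `P i` at `v`, and `D'` the set of the indices `j ≠ i` such that some vertex of `D` is in `P j`. For an edge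
`(x, j)` of the cone graph different from `(v, i)` one has `x ∈ D` if and only if `j ∈ D'`: if `j ≠ i` this holds since `P j` is
connected and does not contain edges of `P i` (`dis`); if `j = i` then `x ≠ v`, and there is a path in `P i` from `v` to `x`, its
first edge is in `P i`, and it is the path in the tree `X`; so `x ∉ D`. But `v ∈ D` and `i ∉ D'`.
-/

set_option autoImplicit false

namespace Pool.Agent.H76.VC

open Pool.Agent.H98.FJ Pool.Agent.H93.TR

/-- a partition of the edges into connected graphs -/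
structure Parts {V I : Type} (X : SimpleGraph V) (P : I → SimpleGraph V) : Prop where
  le : ∀ i, P i ≤ X
  cov : ∀ v w, X.Adj v w → ∃ i, (P i).Adj v w
  dis : ∀ i j v w, (P i).Adj v w → (P j).Adj v w → i = j
  ne : ∀ i, ∃ v w, (P i).Adj v w
  con : ∀ i v w v' w', (P i).Adj v w → (P i).Adj v' w' → (P i).Reachable v v'

/-- the adjacency of the cone graph -/
def coneAdj {V I : Type} (P : I → SimpleGraph V) : V ⊕ I → V ⊕ I → Prop
  | Sum.inl v, Sum.inr i => ∃ w, (P i).Adj v w
  | Sum.inr i, Sum.inl v => ∃ w, (P i).Adj v w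
  | _, _ => False

/-- the cone graph -/
def cone {V I : Type} (P : I → SimpleGraph V) : SimpleGraph (V ⊕ I) where
  Adj := coneAdj P
  symm := ⟨by
    rintro (v | i) (w | j) h
    · exact h
    · exact h
    · exact h
    · exact h⟩
  loopless := ⟨by
    rintro (v | i) h
    · exact h
    · exact h⟩

theorem cone_inl_inr {V I : Type} {P : I → SimpleGraph V} {v : V} {i : I} :
    (cone P).Adj (Sum.inl v) (Sum.inr i) ↔ ∃ w, (P i).Adj v w := Iff.rfl

/-- the graph `X` without the edges of `P` at `v` -/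
private def cutAt {V : Type} (X P : SimpleGraph V) (v : V) : SimpleGraph V where
  Adj a b := X.Adj a b ∧ ¬ (P.Adj a b ∧ (a = v ∨ b = v))
  symm := ⟨fun a b h => ⟨h.1.symm, fun h' => h.2 ⟨h'.1.symm, h'.2.symm⟩⟩⟩
  loopless := ⟨fun _ h => h.1.ne rfl⟩

private theorem cutAt_le {V : Type} (X P : SimpleGraph V) (v : V) : cutAt X P v ≤ X := fun _ _ h => h.1

private theorem cone_conn {V I : Type} {X : SimpleGraph V} {P : I → SimpleGraph V} (hX : X.IsTree)
    (hP : Parts X P) : (cone P).Connected := by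
  have h1 : ∀ v w : V, X.Reachable v w → (cone P).Reachable (Sum.inl v) (Sum.inl w) := by
    rintro v w ⟨q⟩
    induction q with
    | nil => exact SimpleGraph.Reachable.refl _
    | @cons a b _ hab q ih =>
      obtain ⟨i, hi⟩ := hP.cov a b hab
      have h2 : (cone P).Adj (Sum.inl a) (Sum.inr i) := ⟨b, hi⟩
      have h3 : (cone P).Adj (Sum.inl b) (Sum.inr i) := ⟨a, hi.symm⟩
      exact (h2.reachable.trans h3.symm.reachable).trans ih
  obtain ⟨v0⟩ := hX.connected.nonempty
  have h2 : ∀ x : V ⊕ I, (cone P).Reachable (Sum.inl v0) x := by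
    rintro (v | i)
    · exact h1 v0 v (hX.connected.preconnected v0 v)
    · obtain ⟨v, w, hvw⟩ := hP.ne i
      have h3 : (cone P).Adj (Sum.inl v) (Sum.inr i) := ⟨w, hvw⟩
      exact (h1 v0 v (hX.connected.preconnected v0 v)).trans h3.reachable
  have : Nonempty (V ⊕ I) := ⟨Sum.inl v0⟩
  exact ⟨fun x y => (h2 x).symm.trans (h2 y)⟩

/-- the cone edge `(v, i)` is a bridge -/
private theorem cone_bridge {V I : Type} {X : SimpleGraph V} {P : I → SimpleGraph V} (hX : X.IsTree)
    (hP : Parts X P) (v : V) (i : I) (hvi : ∃ w, (P i).Adj v w) :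
    ¬ ((cone P) \ SimpleGraph.fromEdgeSet {s(Sum.inl v, Sum.inr i)}).Reachable (Sum.inl v) (Sum.inr i) := by
  let D : V → Prop := fun x => (cutAt X (P i) v).Reachable v x
  let S : V ⊕ I → Prop := Sum.elim D (fun j => j ≠ i ∧ ∃ x, D x ∧ ∃ w, (P j).Adj x w)
  have hS : ∀ (x : V) (j : I), (∃ w, (P j).Adj x w) → ¬ (x = v ∧ j = i) → (D x ↔ S (Sum.inr j)) := by
    intro x j hxj hne
    constructor
    · intro hx
      refine ⟨?_, x, hx, hxj⟩
      rintro rfl
      have hxv : v ≠ x := fun h => hne ⟨h.symm, rfl⟩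
      obtain ⟨w, hw⟩ := hvi
      obtain ⟨w', hw'⟩ := hxj
      obtain ⟨p, hp⟩ := (hP.con j v w x w' hw hw').exists_isPath
      obtain ⟨p', hp'⟩ := (show (cutAt X (P j) v).Reachable v x from hx).exists_isPath
      have h1 : p.mapLe (hP.le j) = p'.mapLe (cutAt_le X (P j) v) :=
        (hX.existsUnique_path v x).unique ((SimpleGraph.Walk.isPath_mapLe _).2 hp)
          ((SimpleGraph.Walk.isPath_mapLe _).2 hp')
      cases p with
      | nil => exact hxv rfl
      | @cons _ a _ h q =>
        cases p' with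
        | nil => exact hxv rfl
        | @cons _ a' _ h' q' =>
          have h2 : a = a' := by
            have h3 := congrArg (fun r => SimpleGraph.Walk.getVert r 1) h1
            simpa using h3
          subst h2
          exact h'.2 ⟨h, Or.inl rfl⟩
    · rintro ⟨hji, x', hx', w', hw'⟩
      obtain ⟨w, hw⟩ := hxj
      obtain ⟨q⟩ := hP.con j x' w' x w hw' hw
      have hle : P j ≤ cutAt X (P i) v := fun a b hab =>
        ⟨hP.le j hab, fun h => hji (hP.dis j i a b hab h.1)⟩
      exact SimpleGraph.Reachable.trans hx' ⟨q.mapLe hle⟩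
  have hadj : ∀ x y : V ⊕ I, ((cone P) \ SimpleGraph.fromEdgeSet {s(Sum.inl v, Sum.inr i)}).Adj x y →
      (S x ↔ S y) := by
    rintro (x | j) (y | k) h
    · exact absurd ((SimpleGraph.sdiff_adj _ _ _ _).1 h).1 (fun h => h)
    · obtain ⟨h1, h2⟩ := (SimpleGraph.sdiff_adj _ _ _ _).1 h
      refine hS x k h1 ?_
      rintro ⟨rfl, rfl⟩
      exact h2 ((SimpleGraph.fromEdgeSet_adj _).2 ⟨rfl, Sum.inl_ne_inr⟩)
    · obtain ⟨h1, h2⟩ := (SimpleGraph.sdiff_adj _ _ _ _).1 h
      refine (hS y j h1 ?_).symm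
      rintro ⟨rfl, rfl⟩
      exact h2 ((SimpleGraph.fromEdgeSet_adj _).2 ⟨Sym2.eq_swap, Sum.inr_ne_inl⟩)
    · exact absurd ((SimpleGraph.sdiff_adj _ _ _ _).1 h).1 (fun h => h)
  have hreach : ∀ x y : V ⊕ I, ((cone P) \ SimpleGraph.fromEdgeSet {s(Sum.inl v, Sum.inr i)}).Reachable x y →
      (S x ↔ S y) := by
    rintro x y ⟨q⟩
    induction q with
    | nil => exact Iff.rfl
    | cons h q ih => exact (hadj _ _ h).trans ih
  intro hr
  have h1 : S (Sum.inl v) := SimpleGraph.Reachable.refl _
  exact ((hreach _ _ hr).1 h1).1 rfl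

theorem cone_tree {V I : Type} {X : SimpleGraph V} {P : I → SimpleGraph V} (hX : X.IsTree)
    (hP : Parts X P) : (cone P).IsTree := by
  refine ⟨cone_conn hX hP, ?_⟩
  rw [SimpleGraph.isAcyclic_iff_forall_adj_isBridge]
  rintro (v | i) (w | j) h
  · exact absurd h (fun h => h)
  · rw [SimpleGraph.isBridge_iff]
    exact cone_bridge hX hP v j h
  · rw [SimpleGraph.isBridge_iff]
    intro hr
    refine cone_bridge hX hP w i h ?_
    rw [Sym2.eq_swap] at hr
    exact hr.symm
  · exact absurd h (fun h => h)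

section action

variable {G V I : Type} [Group G] [MulAction G V] [MulAction G I] {X : SimpleGraph V}
  {P : I → SimpleGraph V}

theorem cone_onTree (hX : OnTree G X) (hP : Parts X P)
    (hG : ∀ (g : G) (i : I) (v w : V), (P i).Adj v w → (P (g • i)).Adj (g • v) (g • w)) :
    OnTree G (cone P) := by
  refine ⟨cone_tree hX.tree hP, ?_⟩
  rintro g (v | i) (w | j) h
  · exact absurd h (fun h => h)
  · obtain ⟨a, ha⟩ := h
    exact ⟨g • a, hG g j v a ha⟩
  · obtain ⟨a, ha⟩ := h
    exact ⟨g • a, hG g i w a ha⟩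
  · exact absurd h (fun h => h)

theorem cone_noInv (hG : ∀ (g : G) (i : I) (v w : V), (P i).Adj v w → (P (g • i)).Adj (g • v) (g • w)) :
    NoInv (cone P) (⊤ : Subgroup G) := by
  rintro n - (v | i) (w | j) h h1 h2
  · exact h
  · exact Sum.inl_ne_inr h1
  · exact Sum.inr_ne_inl h1
  · exact h

/-- five consecutive vertices, the first one in `V` -/
private theorem cone_five (hX : OnTree G X) (hP : Parts X P) {x y : V ⊕ I} {p : ℕ → V ⊕ I} {d k : ℕ} (hk : k + 4 ≤ d)
    (h1 : ∀ i < d, (cone P).Adj (p i) (p (i + 1))) (h2 : ∀ i ≤ d, ∀ j ≤ d, p i = p j → i = j)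
    (h3 : ∀ g : G, g • x = x → g • y = y → ∀ i, g • p i = p i) {v : V} (hv : p k = Sum.inl v) :
    ∃ (i j : I) (v a w b : V), i ≠ j ∧ (P i).Adj v a ∧ (P j).Adj w b ∧
      ∀ g : G, g • x = x → g • y = y → g • v = v ∧ g • a = a ∧ g • w = w ∧ g • b = b := by
  have a0 := h1 k (by omega)
  have a1 := h1 (k + 1) (by omega)
  have a2 := h1 (k + 2) (by omega)
  have a3 := h1 (k + 3) (by omega)
  rw [hv] at a0
  rcases hp1 : p (k + 1) with v' | i
  · rw [hp1] at a0
    exact absurd a0 (fun h => h)
  rw [show k + 1 + 1 = k + 2 from rfl, hp1] at a1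
  rw [hp1] at a0
  rcases hp2 : p (k + 2) with w | i'
  swap
  · rw [hp2] at a1
    exact absurd a1 (fun h => h)
  rw [show k + 2 + 1 = k + 3 from rfl, hp2] at a2
  rw [hp2] at a1
  rcases hp3 : p (k + 3) with w' | j
  · rw [hp3] at a2
    exact absurd a2 (fun h => h)
  rw [show k + 3 + 1 = k + 4 from rfl, hp3] at a3
  rw [hp3] at a2
  rcases hp4 : p (k + 4) with u | j'
  swap
  · rw [hp4] at a3
    exact absurd a3 (fun h => h)
  rw [hp4] at a3
  have hij : i ≠ j := by
    rintro rfl
    have := h2 (k + 1) (by omega) (k + 3) (by omega) (hp1.trans hp3.symm)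
    omega
  have hvw : v ≠ w := by
    rintro rfl
    have := h2 k (by omega) (k + 2) (by omega) (hv.trans hp2.symm)
    omega
  have hwu : w ≠ u := by
    rintro rfl
    have := h2 (k + 2) (by omega) (k + 4) (by omega) (hp2.trans hp4.symm)
    omega
  obtain ⟨c0, hc0⟩ := a0
  obtain ⟨c1, hc1⟩ := a1
  obtain ⟨c2, hc2⟩ := a2
  obtain ⟨c3, hc3⟩ := a3
  obtain ⟨a, ha, hfa⟩ := first_edge (G := G) hX (hP.le i) (hP.con i _ _ _ _ hc0 hc1) hvw
  obtain ⟨b, hb, hfb⟩ := first_edge (G := G) hX (hP.le j) (hP.con j _ _ _ _ hc2 hc3) hwu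
  refine ⟨i, j, v, a, w, b, hij, ha, hb, fun g hgx hgy => ?_⟩
  have e0 : g • v = v := by
    have := h3 g hgx hgy k
    rw [hv, Sum.smul_inl] at this
    exact Sum.inl_injective this
  have e2 : g • w = w := by
    have := h3 g hgx hgy (k + 2)
    rw [hp2, Sum.smul_inl] at this
    exact Sum.inl_injective this
  have e4 : g • u = u := by
    have := h3 g hgx hgy (k + 4)
    rw [hp4, Sum.smul_inl] at this
    exact Sum.inl_injective this
  exact ⟨e0, hfa g e0 e2, e2, hfb g e2 e4⟩

/-- Two vertices of the cone graph at distance at least `5`: the elements which fix them fix two edges of `X` in different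
parts. Take five consecutive vertices `v0, i, v1, j, v2` on the path (`exists_path`), and the first edges (`first_edge`) of
the paths from `v0` to `v1` and from `v1` to `v2`. -/
theorem cone_far (hX : OnTree G X) (hP : Parts X P)
    (hG : ∀ (g : G) (i : I) (v w : V), (P i).Adj v w → (P (g • i)).Adj (g • v) (g • w))
    (x y : V ⊕ I) (hd : 5 ≤ (cone P).dist x y) :
    ∃ (i j : I) (v a w b : V), i ≠ j ∧ (P i).Adj v a ∧ (P j).Adj w b ∧
      ∀ g : G, g • x = x → g • y = y → g • v = v ∧ g • a = a ∧ g • w = w ∧ g • b = b := by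
  obtain ⟨p, -, -, h1, h2, h3⟩ := exists_path (cone_onTree hX hP hG) x y
  rcases hp0 : p 0 with v | i
  · exact cone_five hX hP (k := 0) (by omega) h1 h2 h3 hp0
  · have a0 := h1 0 (by omega)
    rw [hp0] at a0
    rcases hp1 : p (0 + 1) with v | i'
    · exact cone_five hX hP (k := 0 + 1) (by omega) h1 h2 h3 hp1
    · rw [hp1] at a0
      exact absurd a0 (fun h => h)

end action

end Pool.Agent.H76.VC
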