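import Pool.Agent.H76.VC.Main
import Pool.Agent.H76.VC.Amal

/-!
# Amalgamated products over virtually cyclic subgroups
-/

set_option autoImplicit false

namespace Pool.Agent.H76.VC

open Pool.Agent.H98.FJ Pool.Agent.H93.TR

variable {C : (G : Type) → [Group G] → Prop}

theorem bal_conj {G : Type} [Group G] {z : G} (h : Bal z) (g : G) : Bal (g * z * g⁻¹) := by
  intro x m n hm hn h1
  refine h (g⁻¹ * x * g) m n hm hn ?_
  rw [conj_zpow', conj_zpow'] at h1
  calc g⁻¹ * x * g * z ^ m * (g⁻¹ * x * g)⁻¹ = g⁻¹ * (x * (g * z ^ m * g⁻¹) * x⁻¹) * g := by group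
    _ = z ^ n := by rw [h1]; group

theorem stab_smul_inj (hC : Inherits C) {G T : Type} [Group G] [MulAction G T] (g : G) (t : T)
    (h : C (MulAction.stabilizer G t)) : C (MulAction.stabilizer G (g • t)) := by
  refine hC.of_injective (H := MulAction.stabilizer G t)
    { toFun := fun x => ⟨g⁻¹ * x.1 * g, ?_⟩
      map_one' := ?_
      map_mul' := ?_ } ?_ h
  · have h1 : (x : G) • g • t = g • t := x.2
    change (g⁻¹ * x.1 * g) • t = t
    rw [mul_smul, mul_smul, h1, inv_smul_smul]
  · apply Subtype.ext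
    change g⁻¹ * 1 * g = 1
    group
  · intro x y
    apply Subtype.ext
    change g⁻¹ * (x.1 * y.1) * g = (g⁻¹ * x.1 * g) * (g⁻¹ * y.1 * g)
    group
  · intro x y hxy
    have h1 : g⁻¹ * x.1 * g = g⁻¹ * y.1 * g :=
      congrArg (fun z : MulAction.stabilizer G t => (z : G)) hxy
    exact Subtype.ext (mul_left_cancel (mul_right_cancel h1))

/-- **Theorem.** Amalgamated products over virtually cyclic subgroups which are balanced in the factors. -/
theorem amalgam (hC : Inherits C) (hA : AcylExt C) {ι H : Type} {A : ι → Type}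
    [∀ i, Group (A i)] [Group H] (φ : ∀ i, H →* A i) (hφ : ∀ i, Function.Injective (φ i))
    (hH : VirtuallyCyclic H) (hAi : ∀ i, C (A i))
    (hb : ∀ (i : ι) (h : H), ¬ IsOfFinOrder h → Bal (φ i h)) : C (Monoid.PushoutI φ) := by
  obtain ⟨T, _, X, c, a, hS, hc, ha⟩ := exists_star φ hφ
  have hbase : Function.Injective (Monoid.PushoutI.base φ) := Monoid.PushoutI.base_injective hφ
  have hcH : VirtuallyCyclic (MulAction.stabilizer (Monoid.PushoutI φ) c) := by
    rw [hc]
    exact vc_of_injective (MonoidHom.ofInjective hbase).symm.toMonoidHom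
      (MonoidHom.ofInjective hbase).symm.injective hH
  have hcC : C (MulAction.stabilizer (Monoid.PushoutI φ) c) := vcyc_mem hC _ hcH
  have haC : ∀ i, C (MulAction.stabilizer (Monoid.PushoutI φ) (a i)) := by
    intro i
    rw [ha]
    exact hC.iso _ _ (MonoidHom.ofInjective (Monoid.PushoutI.of_injective hφ i)) (hAi i)
  have hbal : ∀ (i : ι) (z : Monoid.PushoutI φ), z • c = c → ¬ IsOfFinOrder z → Bal z := by
    intro i0 z hzc hz
    have hz1 : z ∈ (Monoid.PushoutI.base φ).range := by
      rw [← hc]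
      exact hzc
    obtain ⟨h, rfl⟩ := hz1
    have hh : ¬ IsOfFinOrder h := by
      intro h1
      apply hz
      rw [isOfFinOrder_iff_pow_eq_one] at h1 ⊢
      obtain ⟨n, hn, h2⟩ := h1
      exact ⟨n, hn, by rw [← map_pow, h2, map_one]⟩
    have hleaf : ∀ (i : ι) (g : Monoid.PushoutI φ) (m n : ℤ), g • a i = a i → m ≠ 0 → n ≠ 0 →
        g * Monoid.PushoutI.base φ h ^ m * g⁻¹ = Monoid.PushoutI.base φ h ^ n → |m| = |n| := by
      intro i g m n hg hm hn h1
      have hg1 : g ∈ (Monoid.PushoutI.of (φ := φ) i).range := by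
        rw [← ha]
        exact hg
      obtain ⟨x, rfl⟩ := hg1
      refine hb i h hh x m n hm hn ?_
      apply Monoid.PushoutI.of_injective hφ i
      rw [map_mul, map_mul, map_zpow, map_zpow, map_inv, Monoid.PushoutI.of_apply_eq_base]
      exact h1
    exact star_bal hS hcH _ hzc hz hleaf
      (fun g m n hg hm hn h1 => hleaf i0 g m n (hS.fix g i0 hg) hm hn h1)
  refine main hC hA hS.tree ?_ ?_ ?_
  · intro v
    obtain ⟨g, rfl | ⟨i, rfl⟩⟩ := hS.vert v
    · exact stab_smul_inj hC g c hcC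
    · exact stab_smul_inj hC g (a i) (haC i)
  · intro v w h
    have key : ∀ (g : Monoid.PushoutI φ) (K : Subgroup (Monoid.PushoutI φ)),
        (∀ x ∈ K, x • g • c = g • c) → VirtuallyCyclic K := by
      intro g K hK
      refine vc_of_injective (B := MulAction.stabilizer (Monoid.PushoutI φ) c)
        { toFun := fun x => ⟨g⁻¹ * x.1 * g, ?_⟩
          map_one' := ?_
          map_mul' := ?_ } ?_ hcH
      · have h1 := hK x.1 x.2
        change (g⁻¹ * x.1 * g) • c = c
        rw [mul_smul, mul_smul, h1, inv_smul_smul]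
      · apply Subtype.ext
        change g⁻¹ * 1 * g = 1
        group
      · intro x y
        apply Subtype.ext
        change g⁻¹ * (x.1 * y.1) * g = (g⁻¹ * x.1 * g) * (g⁻¹ * y.1 * g)
        group
      · intro x y hxy
        have h1 : g⁻¹ * x.1 * g = g⁻¹ * y.1 * g :=
          congrArg (fun z : MulAction.stabilizer (Monoid.PushoutI φ) c => (z : Monoid.PushoutI φ)) hxy
        exact Subtype.ext (mul_left_cancel (mul_right_cancel h1))
    obtain ⟨g, i, ⟨rfl, rfl⟩ | ⟨rfl, rfl⟩⟩ := hS.edge v w h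
    · exact key g _ (fun x hx => hx.1)
    · exact key g _ (fun x hx => hx.2)
  · intro z v w h hzv hzw hz hnb
    exfalso
    apply hnb
    have key : ∀ (g : Monoid.PushoutI φ), (∃ i : ι, True) → z • g • c = g • c → Bal z := by
      rintro g ⟨i, -⟩ h1
      have h2 : (g⁻¹ * z * g) • c = c := by
        rw [mul_smul, mul_smul, h1, inv_smul_smul]
      have h3 : ¬ IsOfFinOrder (g⁻¹ * z * g) := by
        have h4 := not_fin_conj hz g⁻¹
        rwa [inv_inv] at h4
      have h4 := bal_conj (hbal i _ h2 h3) g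
      have h5 : g * (g⁻¹ * z * g) * g⁻¹ = z := by group
      rwa [h5] at h4
    obtain ⟨g, i, ⟨rfl, rfl⟩ | ⟨rfl, rfl⟩⟩ := hS.edge v w h
    · exact key g ⟨i, trivial⟩ hzv
    · exact key g ⟨i, trivial⟩ hzw

end Pool.Agent.H76.VC
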