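import Pool.Agent.H76.VC.HNT
import Pool.Agent.H76.VC.Fin

/-!
# HNN extensions over virtually cyclic subgroups

Module VC HN. `exists_loop` (the tree) is in `HNT.lean`, `loop_bal` in `HNB.lean`. Assembly as in `Fin.lean`.
-/

set_option autoImplicit false

namespace Pool.Agent.H76.VC

open Pool.Agent.H98.FJ Pool.Agent.H93.TR

/-- **Theorem.** HNN extensions along balanced virtually cyclic subgroups. -/
theorem hnn {C : (G : Type) → [Group G] → Prop} (hC : Inherits C) (hA : AcylExt C) {H : Type}
    [Group H] (A B : Subgroup H) (φ : A ≃* B) (hH : C H) (hVC : VirtuallyCyclic A)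
    (ha : ∀ a : A, ¬ IsOfFinOrder a → Bal (a : H))
    (hb : ∀ b : B, ¬ IsOfFinOrder b → Bal (b : H))
    (hab : ∀ (a : A) (g : H) (m n : ℤ), ¬ IsOfFinOrder a → m ≠ 0 → n ≠ 0 →
      g * (φ a : H) ^ m * g⁻¹ = (a : H) ^ n → |m| = |n|) : C (HNNExtension H A B φ) := by
  obtain ⟨T, _, X, c, hL, hc, hcB⟩ := exists_loop A B φ
  have hofi : Function.Injective (HNNExtension.of (φ := φ)) := HNNExtension.of_injective φ
  have hcC : C (MulAction.stabilizer (HNNExtension H A B φ) c) := by
    rw [hc]
    exact hC.iso _ _ (MonoidHom.ofInjective hofi) hH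
  -- the stabiliser of the edge
  let E : Subgroup (HNNExtension H A B φ) :=
    MulAction.stabilizer (HNNExtension H A B φ) c ⊓
      MulAction.stabilizer (HNNExtension H A B φ) ((HNNExtension.t : HNNExtension H A B φ) • c)
  have hEB : ∀ g ∈ E, ∃ b : B, g = HNNExtension.of (b : H) := by
    intro g hg
    obtain ⟨b, hb, h⟩ := hcB g hg.1 hg.2
    exact ⟨⟨b, hb⟩, h⟩
  have hE : VirtuallyCyclic E := by
    choose β hβ using hEB
    refine vc_of_injective (B := A)
      { toFun := fun x => φ.symm (β x.1 x.2)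
        map_one' := ?_
        map_mul' := ?_ } ?_ hVC
    · have h1 : β (1 : HNNExtension H A B φ) E.one_mem = 1 := by
        apply Subtype.ext
        apply hofi
        rw [← hβ, OneMemClass.coe_one, map_one]
      change φ.symm (β (1 : HNNExtension H A B φ) _) = 1
      rw [h1, map_one]
    · intro x y
      have h1 : β (x.1 * y.1) (E.mul_mem x.2 y.2) = β x.1 x.2 * β y.1 y.2 := by
        apply Subtype.ext
        apply hofi
        rw [← hβ, Subgroup.coe_mul, map_mul, ← hβ, ← hβ]
      change φ.symm (β (x.1 * y.1) _) = φ.symm (β x.1 x.2) * φ.symm (β y.1 y.2)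
      rw [h1, map_mul]
    · intro x y hxy
      have h1 : β x.1 x.2 = β y.1 y.2 := φ.symm.injective hxy
      apply Subtype.ext
      rw [hβ x.1 x.2, hβ y.1 y.2, h1]
  have hfin : ∀ x : H, ¬ IsOfFinOrder (HNNExtension.of x : HNNExtension H A B φ) → ¬ IsOfFinOrder x := by
    intro x hx h1
    apply hx
    rw [isOfFinOrder_iff_pow_eq_one] at h1 ⊢
    obtain ⟨n, hn, h2⟩ := h1
    exact ⟨n, hn, by rw [← map_pow, h2, map_one]⟩
  have hbal : ∀ z ∈ E, ¬ IsOfFinOrder z → Bal z := by
    intro z hzE hz
    obtain ⟨b, rfl⟩ := hEB z hzE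
    have hb1 : ¬ IsOfFinOrder (b : H) := hfin _ hz
    have hb2 : ¬ IsOfFinOrder b := by
      intro h1
      apply hb1
      rw [isOfFinOrder_iff_pow_eq_one] at h1 ⊢
      obtain ⟨n, hn, h2⟩ := h1
      exact ⟨n, hn, by rw [← Subgroup.coe_pow, h2, Subgroup.coe_one]⟩
    obtain ⟨a, rfl⟩ := φ.surjective b
    have ha2 : ¬ IsOfFinOrder a := by
      intro h1
      apply hb2
      rw [isOfFinOrder_iff_pow_eq_one] at h1 ⊢
      obtain ⟨n, hn, h2⟩ := h1
      exact ⟨n, hn, by rw [← map_pow, h2, map_one]⟩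
    have hta : (HNNExtension.t : HNNExtension H A B φ)⁻¹ * HNNExtension.of ((φ a : B) : H) * HNNExtension.t =
        HNNExtension.of (a : H) := by
      have h1 := HNNExtension.of_mul_t (A := A) (B := B) (φ := φ) (φ a)
      rw [mul_assoc, h1, MulEquiv.symm_apply_apply, inv_mul_cancel_left]
    have hg : ∀ g : HNNExtension H A B φ, g • c = c → ∃ x : H, g = HNNExtension.of x := by
      intro g hg
      have h1 : g ∈ (HNNExtension.of (φ := φ)).range := by
        rw [← hc]
        exact hg
      obtain ⟨x, hx⟩ := h1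
      exact ⟨x, hx.symm⟩
    refine loop_bal hL hE _ hzE.1 hzE.2 hz ?_ ?_ ?_
    · intro g m n hgc hm hn h1
      obtain ⟨x, rfl⟩ := hg g hgc
      refine hb (φ a) hb2 x m n hm hn ?_
      apply hofi
      rw [map_mul, map_mul, map_zpow, map_zpow, map_inv]
      exact h1
    · intro g m n hgc hm hn h1
      obtain ⟨x, rfl⟩ := hg g hgc
      rw [hta] at h1
      refine ha a ha2 x m n hm hn ?_
      apply hofi
      rw [map_mul, map_mul, map_zpow, map_zpow, map_inv]
      exact h1
    · intro g m n hgc hm hn h1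
      obtain ⟨x, rfl⟩ := hg g hgc
      rw [hta] at h1
      refine hab a x m n ha2 hm hn ?_
      apply hofi
      rw [map_mul, map_mul, map_zpow, map_zpow, map_inv]
      exact h1
  have hconjE : ∀ (g x : HNNExtension H A B φ), x • g • c = g • c →
      x • g • (HNNExtension.t : HNNExtension H A B φ) • c = g • (HNNExtension.t : HNNExtension H A B φ) • c →
      g⁻¹ * x * g ∈ E := by
    intro g x h1 h2
    refine Subgroup.mem_inf.2 ⟨?_, ?_⟩
    · change (g⁻¹ * x * g) • c = c
      rw [mul_smul, mul_smul, h1, inv_smul_smul]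
    · change (g⁻¹ * x * g) • (HNNExtension.t : HNNExtension H A B φ) • c = (HNNExtension.t : HNNExtension H A B φ) • c
      rw [mul_smul, mul_smul, h2, inv_smul_smul]
  refine main hC hA hL.tree ?_ ?_ ?_
  · intro v
    obtain ⟨g, rfl⟩ := hL.vert v
    exact stab_smul_inj hC g c hcC
  · intro v w h
    have key : ∀ (g : HNNExtension H A B φ) (K : Subgroup (HNNExtension H A B φ)),
        (∀ x ∈ K, x • g • c = g • c) → (∀ x ∈ K, x • g • (HNNExtension.t : HNNExtension H A B φ) • c =
          g • (HNNExtension.t : HNNExtension H A B φ) • c) → VirtuallyCyclic K := by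
      intro g K hK hK'
      refine vc_of_injective (B := E)
        { toFun := fun x => ⟨g⁻¹ * x.1 * g, hconjE g x.1 (hK x.1 x.2) (hK' x.1 x.2)⟩
          map_one' := ?_
          map_mul' := ?_ } ?_ hE
      · apply Subtype.ext
        change g⁻¹ * 1 * g = 1
        group
      · intro x y
        apply Subtype.ext
        change g⁻¹ * (x.1 * y.1) * g = (g⁻¹ * x.1 * g) * (g⁻¹ * y.1 * g)
        group
      · intro x y hxy
        have h1 : g⁻¹ * x.1 * g = g⁻¹ * y.1 * g :=
          congrArg (fun z : E => (z : HNNExtension H A B φ)) hxy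
        exact Subtype.ext (mul_left_cancel (mul_right_cancel h1))
    obtain ⟨g, ⟨rfl, rfl⟩ | ⟨rfl, rfl⟩⟩ := hL.edge v w h
    · exact key g _ (fun x hx => hx.1) (fun x hx => hx.2)
    · exact key g _ (fun x hx => hx.2) (fun x hx => hx.1)
  · intro z v w h hzv hzw hz hnb
    exfalso
    apply hnb
    have key : ∀ g : HNNExtension H A B φ, z • g • c = g • c →
        z • g • (HNNExtension.t : HNNExtension H A B φ) • c = g • (HNNExtension.t : HNNExtension H A B φ) • c → Bal z := by
      intro g h1 h2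
      have h3 : ¬ IsOfFinOrder (g⁻¹ * z * g) := by
        have h4 := not_fin_conj hz g⁻¹
        rwa [inv_inv] at h4
      have h4 := bal_conj (hbal _ (hconjE g z h1 h2) h3) g
      have h5 : g * (g⁻¹ * z * g) * g⁻¹ = z := by group
      rwa [h5] at h4
    obtain ⟨g, ⟨rfl, rfl⟩ | ⟨rfl, rfl⟩⟩ := hL.edge v w h
    · exact key g hzv hzw
    · exact key g hzw hzv

end Pool.Agent.H76.VC
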