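import Pool.Agent.H76.VC.HN
import Pool.Agent.H76.VC.Fin2

/-!
# HNN extensions of balanced groups are balanced
-/

set_option autoImplicit false

namespace Pool.Agent.H76.VC

open Pool.Agent.H98.FJ Pool.Agent.H93.TR

theorem not_fin_of_map {A B : Type} [Group A] [Group B] (f : A →* B) {x : A}
    (hx : ¬ IsOfFinOrder (f x)) : ¬ IsOfFinOrder x := by
  intro h1
  apply hx
  rw [isOfFinOrder_iff_pow_eq_one] at h1 ⊢
  obtain ⟨n, hn, h2⟩ := h1
  exact ⟨n, hn, by rw [← map_pow, h2, map_one]⟩

/-- the elements of infinite order of the edge stabilisers of the HNN extension are balanced -/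
theorem hnn_edge {H : Type} [Group H] (A B : Subgroup H) (φ : A ≃* B) (hVC : VirtuallyCyclic A)
    (ha : ∀ a : A, ¬ IsOfFinOrder a → Bal (a : H))
    (hb : ∀ b : B, ¬ IsOfFinOrder b → Bal (b : H))
    (hab : ∀ (a : A) (g : H) (m n : ℤ), ¬ IsOfFinOrder a → m ≠ 0 → n ≠ 0 →
      g * (φ a : H) ^ m * g⁻¹ = (a : H) ^ n → |m| = |n|)
    {T : Type} [MulAction (HNNExtension H A B φ) T] {X : SimpleGraph T} {c : T}
    (hL : Loop (HNNExtension H A B φ) X c HNNExtension.t)
    (hc : MulAction.stabilizer (HNNExtension H A B φ) c = (HNNExtension.of (φ := φ)).range)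
    (hcB : ∀ g : HNNExtension H A B φ, g • c = c →
      g • (HNNExtension.t : HNNExtension H A B φ) • c = (HNNExtension.t : HNNExtension H A B φ) • c →
      ∃ b ∈ B, g = HNNExtension.of b) :
    ∀ (z : HNNExtension H A B φ) (v w : T), X.Adj v w → z • v = v → z • w = w →
      ¬ IsOfFinOrder z → Bal z := by
  have hofi : Function.Injective (HNNExtension.of (φ := φ)) := HNNExtension.of_injective φ
  let E : Subgroup (HNNExtension H A B φ) :=
    MulAction.stabilizer (HNNExtension H A B φ) c ⊓
      MulAction.stabilizer (HNNExtension H A B φ) ((HNNExtension.t : HNNExtension H A B φ) • c)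
  have hEB : ∀ g ∈ E, ∃ b : B, g = HNNExtension.of (b : H) := by
    intro g hg
    obtain ⟨b, hb, h⟩ := hcB g hg.1 hg.2
    exact ⟨⟨b, hb⟩, h⟩
  have hE : VirtuallyCyclic E := by
    choose β hβ using hEB
    refine vc_of_injective (B := A)
      { toFun := fun x => φ.symm (β x.1 x.2)
        map_one' := ?_
        map_mul' := ?_ } ?_ hVC
    · have h1 : β (1 : HNNExtension H A B φ) E.one_mem = 1 := by
        apply Subtype.ext
        apply hofi
        rw [← hβ, OneMemClass.coe_one, map_one]
      change φ.symm (β (1 : HNNExtension H A B φ) _) = 1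
      rw [h1, map_one]
    · intro x y
      have h1 : β (x.1 * y.1) (E.mul_mem x.2 y.2) = β x.1 x.2 * β y.1 y.2 := by
        apply Subtype.ext
        apply hofi
        rw [← hβ, Subgroup.coe_mul, map_mul, ← hβ, ← hβ]
      change φ.symm (β (x.1 * y.1) _) = φ.symm (β x.1 x.2) * φ.symm (β y.1 y.2)
      rw [h1, map_mul]
    · intro x y hxy
      have h1 : β x.1 x.2 = β y.1 y.2 := φ.symm.injective hxy
      apply Subtype.ext
      rw [hβ x.1 x.2, hβ y.1 y.2, h1]
  have hbal : ∀ z ∈ E, ¬ IsOfFinOrder z → Bal z := by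
    intro z hzE hz
    obtain ⟨b, rfl⟩ := hEB z hzE
    have hb1 : ¬ IsOfFinOrder (b : H) := not_fin_of_map (HNNExtension.of (φ := φ)) hz
    have hb2 : ¬ IsOfFinOrder b := not_fin_of_map B.subtype hb1
    obtain ⟨a, rfl⟩ := φ.surjective b
    have ha2 : ¬ IsOfFinOrder a := not_fin_of_map φ.toMonoidHom hb2
    have hta : (HNNExtension.t : HNNExtension H A B φ)⁻¹ * HNNExtension.of ((φ a : B) : H) *
        HNNExtension.t = HNNExtension.of (a : H) := by
      have h1 := HNNExtension.of_mul_t (A := A) (B := B) (φ := φ) (φ a)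
      rw [mul_assoc, h1, MulEquiv.symm_apply_apply, inv_mul_cancel_left]
    have hg : ∀ g : HNNExtension H A B φ, g • c = c → ∃ x : H, g = HNNExtension.of x := by
      intro g hg
      have h1 : g ∈ (HNNExtension.of (φ := φ)).range := by
        rw [← hc]
        exact hg
      obtain ⟨x, hx⟩ := h1
      exact ⟨x, hx.symm⟩
    refine loop_bal hL hE _ hzE.1 hzE.2 hz ?_ ?_ ?_
    · intro g m n hgc hm hn h1
      obtain ⟨x, rfl⟩ := hg g hgc
      refine hb (φ a) hb2 x m n hm hn ?_
      apply hofi
      rw [map_mul, map_mul, map_zpow, map_zpow, map_inv]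
      exact h1
    · intro g m n hgc hm hn h1
      obtain ⟨x, rfl⟩ := hg g hgc
      rw [hta] at h1
      refine ha a ha2 x m n hm hn ?_
      apply hofi
      rw [map_mul, map_mul, map_zpow, map_zpow, map_inv]
      exact h1
    · intro g m n hgc hm hn h1
      obtain ⟨x, rfl⟩ := hg g hgc
      rw [hta] at h1
      refine hab a x m n ha2 hm hn ?_
      apply hofi
      rw [map_mul, map_mul, map_zpow, map_zpow, map_inv]
      exact h1
  have hconjE : ∀ (g x : HNNExtension H A B φ), x • g • c = g • c →
      x • g • (HNNExtension.t : HNNExtension H A B φ) • c =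
        g • (HNNExtension.t : HNNExtension H A B φ) • c → g⁻¹ * x * g ∈ E := by
    intro g x h1 h2
    refine Subgroup.mem_inf.2 ⟨?_, ?_⟩
    · change (g⁻¹ * x * g) • c = c
      rw [mul_smul, mul_smul, h1, inv_smul_smul]
    · change (g⁻¹ * x * g) • (HNNExtension.t : HNNExtension H A B φ) • c =
        (HNNExtension.t : HNNExtension H A B φ) • c
      rw [mul_smul, mul_smul, h2, inv_smul_smul]
  intro z v w h hzv hzw hz
  have key : ∀ g : HNNExtension H A B φ, z • g • c = g • c →
      z • g • (HNNExtension.t : HNNExtension H A B φ) • c =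
        g • (HNNExtension.t : HNNExtension H A B φ) • c → Bal z := by
    intro g h1 h2
    have h3 : ¬ IsOfFinOrder (g⁻¹ * z * g) := by
      have h4 := not_fin_conj hz g⁻¹
      rwa [inv_inv] at h4
    have h4 := bal_conj (hbal _ (hconjE g z h1 h2) h3) g
    have h5 : g * (g⁻¹ * z * g) * g⁻¹ = z := by group
    rwa [h5] at h4
  obtain ⟨g, ⟨rfl, rfl⟩ | ⟨rfl, rfl⟩⟩ := hL.edge v w h
  · exact key g hzv hzw
  · exact key g hzw hzv

/-- the exponent sum of the stable letter -/
def expo {H : Type} [Group H] (A B : Subgroup H) (φ : A ≃* B) :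
    HNNExtension H A B φ →* Multiplicative ℤ :=
  HNNExtension.lift 1 (Multiplicative.ofAdd 1) (fun _ => by simp)

/-- **Theorem.** HNN extensions of balanced groups along virtually cyclic subgroups are balanced, if the stable letter
preserves the size. -/
theorem hnn_bal {H : Type} [Group H] (A B : Subgroup H) (φ : A ≃* B) (hVC : VirtuallyCyclic A)
    (hH : BalG H)
    (hab : ∀ (a : A) (g : H) (m n : ℤ), ¬ IsOfFinOrder a → m ≠ 0 → n ≠ 0 →
      g * (φ a : H) ^ m * g⁻¹ = (a : H) ^ n → |m| = |n|) : BalG (HNNExtension H A B φ) := by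
  obtain ⟨T, _, X, c, hL, hc, hcB⟩ := exists_loop A B φ
  have hofi : Function.Injective (HNNExtension.of (φ := φ)) := HNNExtension.of_injective φ
  have hcx : ∀ g : HNNExtension H A B φ, g • c = c → expo A B φ g = 1 := by
    intro g hg
    have h1 : g ∈ (HNNExtension.of (φ := φ)).range := by
      rw [← hc]
      exact hg
    obtain ⟨x, rfl⟩ := h1
    exact HNNExtension.lift_of _ _ _ _
  have ht : expo A B φ HNNExtension.t = Multiplicative.ofAdd 1 := HNNExtension.lift_t _ _ _
  have hinv : NoInv X (⊤ : Subgroup (HNNExtension H A B φ)) := by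
    have key : ∀ n g : HNNExtension H A B φ,
        n • g • c = g • (HNNExtension.t : HNNExtension H A B φ) • c →
        n • g • (HNNExtension.t : HNNExtension H A B φ) • c = g • c → False := by
      intro n g h1 h2
      have h3 := hcx ((HNNExtension.t : HNNExtension H A B φ)⁻¹ * g⁻¹ * n * g) (by
        rw [mul_smul, mul_smul, mul_smul, h1, inv_smul_smul, inv_smul_smul])
      have h4 := hcx (g⁻¹ * n * g * HNNExtension.t) (by
        rw [mul_smul, mul_smul, mul_smul, h2, inv_smul_smul])
      rw [map_mul, map_mul, map_mul, map_inv, map_inv, ht] at h3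
      rw [map_mul, map_mul, map_mul, map_inv, ht] at h4
      have h5 : expo A B φ n = Multiplicative.ofAdd 1 := by
        have h6 : (Multiplicative.ofAdd (1 : ℤ))⁻¹ * (expo A B φ g)⁻¹ * expo A B φ n * expo A B φ g =
            (Multiplicative.ofAdd (1 : ℤ))⁻¹ * expo A B φ n := by
          rw [mul_assoc, mul_assoc, mul_comm (expo A B φ n), inv_mul_cancel_left]
        rw [h6] at h3
        exact (inv_mul_eq_one.1 h3).symm
      have h7 : (expo A B φ g)⁻¹ * expo A B φ n * expo A B φ g = expo A B φ n := by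
        rw [mul_assoc, mul_comm (expo A B φ n), inv_mul_cancel_left]
      rw [h7, h5] at h4
      have h8 : (1 : ℤ) + 1 = 0 := h4
      omega
    intro n _ v w h h1 h2
    obtain ⟨g, ⟨rfl, rfl⟩ | ⟨rfl, rfl⟩⟩ := hL.edge v w h
    · exact key n g h1 h2
    · exact key n g h2 h1
  refine bal_tree hL.tree hinv ?_ (hnn_edge A B φ hVC
    (fun a h => hH _ (not_fin_map A.subtype Subtype.val_injective h))
    (fun b h => hH _ (not_fin_map B.subtype Subtype.val_injective h)) hab hL hc hcB)
  intro v
  obtain ⟨g, rfl⟩ := hL.vert v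
  refine balG_smul g c ?_
  rw [hc]
  exact balG_of_injective (MonoidHom.ofInjective hofi).symm.toMonoidHom
    (MonoidHom.ofInjective hofi).symm.injective hH

end Pool.Agent.H76.VC
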