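import Pool.Agent.H76.VC.Path
import Pool.Agent.H76.VC.Cyc

/-!
# Balance in a group acting on a tree with one orbit of vertices and edges

Module VC HN, part `loop_bal`. Let `v0 = t⁻¹ * w0 * t`. Claim: if `x, y` are in `{w0, v0}` and `g * x ^ m * g⁻¹ = y ^ n`,
`m, n ≠ 0`, then `|m| = |n|`. Induction on `X.dist c (g • c)`. If it is `0` then `g` fixes `c` and this is one of `hw`, `hv`,
`hwv` (for `x = v0`, `y = w0` use `g⁻¹`). Otherwise let `p 1` be the first vertex of the path from `c` to `g • c`;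
`y ^ n` fixes `c` and `g • c`, so it fixes `p 1 = (h * t) • c` or `(h * t⁻¹) • c`, `h • c = c`. By `vc_pow`
`(h⁻¹ * y ^ n * h) ^ a = w0 ^ b` (resp. `v0 ^ b`), and `|n * a| = |b|` by the case of distance `0`; one step back the
distance is smaller and `|m * a| = |b|`.
-/

set_option autoImplicit false

namespace Pool.Agent.H76.VC

open Pool.Agent.H98.FJ Pool.Agent.H93.TR

/-- A group acts on a tree with one orbit of vertices and one orbit of edges. -/
structure Loop (G : Type) [Group G] {T : Type} [MulAction G T] (X : SimpleGraph T) (c : T)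
    (t : G) : Prop where
  tree : OnTree G X
  adj : X.Adj c (t • c)
  edge : ∀ v w, X.Adj v w → ∃ g : G,
    (v = g • c ∧ w = g • t • c) ∨ (w = g • c ∧ v = g • t • c)
  vert : ∀ v, ∃ g : G, v = g • c

/-- the equation one step further -/
private theorem lb_conj {G : Type} [Group G] {g x y : G} {m n : ℤ} (h : g * x ^ m * g⁻¹ = y ^ n) (k : G) (a : ℤ) :
    k * g * x ^ (m * a) * (k * g)⁻¹ = k * y ^ (n * a) * k⁻¹ := by
  have h1 : g * x ^ (m * a) * g⁻¹ = y ^ (n * a) := by
    rw [zpow_mul, ← conj_zpow', h, ← zpow_mul]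
  rw [← h1]
  group

private theorem lb_abs {m n a b : ℤ} (ha : a ≠ 0) (h1 : |n * a| = |b|) (h2 : |m * a| = |b|) : |m| = |n| := by
  have h3 : |m| * |a| = |n| * |a| := by
    rw [← abs_mul, ← abs_mul, h1, h2]
  exact mul_right_cancel₀ (abs_ne_zero.2 ha) h3

theorem loop_bal {G T : Type} [Group G] [MulAction G T] {X : SimpleGraph T} {c : T} {t : G}
    (hL : Loop G X c t)
    (hV : VirtuallyCyclic (MulAction.stabilizer G c ⊓ MulAction.stabilizer G (t • c) : Subgroup G))
    (w0 : G) (h1 : w0 • c = c) (h2 : w0 • t • c = t • c) (h0 : ¬ IsOfFinOrder w0)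
    (hw : ∀ (g : G) (m n : ℤ), g • c = c → m ≠ 0 → n ≠ 0 → g * w0 ^ m * g⁻¹ = w0 ^ n → |m| = |n|)
    (hv : ∀ (g : G) (m n : ℤ), g • c = c → m ≠ 0 → n ≠ 0 →
      g * (t⁻¹ * w0 * t) ^ m * g⁻¹ = (t⁻¹ * w0 * t) ^ n → |m| = |n|)
    (hwv : ∀ (g : G) (m n : ℤ), g • c = c → m ≠ 0 → n ≠ 0 →
      g * w0 ^ m * g⁻¹ = (t⁻¹ * w0 * t) ^ n → |m| = |n|) : Bal w0 := by
  obtain ⟨v0, hv0⟩ : ∃ v0 : G, v0 = t⁻¹ * w0 * t := ⟨_, rfl⟩
  rw [← hv0] at hv hwv
  have hX := hL.tree
  have hw0 : w0 = t * v0 * t⁻¹ := by rw [hv0]; group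
  -- `w0`, `v0` fix `c` and have infinite order
  have hfix : ∀ y, y = w0 ∨ y = v0 → y • c = c := by
    rintro y (rfl | rfl)
    · exact h1
    · rw [hv0, mul_smul, mul_smul, h2, inv_smul_smul]
  have hfz : ∀ y, y = w0 ∨ y = v0 → ∀ n : ℤ, y ^ n • c = c := by
    intro y hy n
    exact (MulAction.stabilizer G c).zpow_mem (MulAction.mem_stabilizer_iff.2 (hfix y hy)) n
  have hcj : ∀ (k z : G), ¬ IsOfFinOrder z → ¬ IsOfFinOrder (k⁻¹ * z * k) := by
    intro k z hz hk
    apply hz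
    rw [isOfFinOrder_iff_pow_eq_one] at hk ⊢
    obtain ⟨n, hn, h3⟩ := hk
    refine ⟨n, hn, ?_⟩
    have h4 : (k⁻¹ * z * k) ^ n = k⁻¹ * z ^ n * k := by
      have := @conj_pow G _ n k⁻¹ z
      rwa [inv_inv] at this
    rw [h4] at h3
    have h5 : z ^ n = k * (k⁻¹ * z ^ n * k) * k⁻¹ := by group
    rw [h5, h3, mul_one, mul_inv_cancel]
  have hinf : ∀ y, y = w0 ∨ y = v0 → ¬ IsOfFinOrder y := by
    rintro y (rfl | rfl)
    · exact h0
    · rw [hv0]
      exact hcj t _ h0
  -- distance `0`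
  have hzero : ∀ (g x y : G) (m n : ℤ), g • c = c → (x = w0 ∨ x = v0) → (y = w0 ∨ y = v0) → m ≠ 0 → n ≠ 0 →
      g * x ^ m * g⁻¹ = y ^ n → |m| = |n| := by
    rintro g x y m n hg (hx | hx) (hy | hy) hm hn he
    · exact hw g m n hg hm hn (by rw [← hx, he, hx, hy])
    · exact hwv g m n hg hm hn (by rw [← hx, he, hy])
    · have hg' : g⁻¹ • c = c := by rw [inv_smul_eq_iff, hg]
      refine (hwv g⁻¹ n m hg' hn hm ?_).symm
      rw [← hx, ← hy, ← he]
      group
    · exact hv g m n hg hm hn (by rw [← hx, he, hx, hy])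
  -- the induction
  have key : ∀ (d : ℕ) (g x y : G) (m n : ℤ), X.dist c (g • c) ≤ d → (x = w0 ∨ x = v0) → (y = w0 ∨ y = v0) →
      m ≠ 0 → n ≠ 0 → g * x ^ m * g⁻¹ = y ^ n → |m| = |n| := by
    intro d
    induction d with
    | zero =>
      intro g x y m n hd hx hy hm hn he
      refine hzero g x y m n ?_ hx hy hm hn he
      exact ((hX.tree.connected.dist_eq_zero_iff).1 (Nat.le_zero.1 hd)).symm
    | succ d ih =>
      intro g x y m n hd hx hy hm hn he
      by_cases hc : c = g • c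
      · exact hzero g x y m n hc.symm hx hy hm hn he
      obtain ⟨p, hp0, hp1, hp2, -, hp3⟩ := exists_path (G := G) hX c (g • c)
      have hpos : 0 < X.dist c (g • c) := hX.tree.connected.pos_dist_of_ne hc
      have hadj : X.Adj c (p 1) := by
        have := hp2 0 hpos
        rwa [hp0] at this
      -- the walk from `p 1` to `g • c`
      have hwalk : ∀ j, 1 + j ≤ X.dist c (g • c) → ∃ q : X.Walk (p 1) (p (1 + j)), q.length = j := by
        intro j
        induction j with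
        | zero => intro _; exact ⟨SimpleGraph.Walk.nil, rfl⟩
        | succ j ihj =>
          intro hj
          obtain ⟨q, hq⟩ := ihj (by omega)
          exact ⟨q.concat (hp2 (1 + j) (by omega)), by rw [SimpleGraph.Walk.length_concat, hq]⟩
      obtain ⟨j, hj⟩ : ∃ j, 1 + j = X.dist c (g • c) := ⟨X.dist c (g • c) - 1, by omega⟩
      have hd1 : X.dist (p 1) (g • c) ≤ d := by
        obtain ⟨q, hq⟩ := hwalk j hj.le
        have h3 : X.dist (p 1) (p (1 + j)) ≤ j := (SimpleGraph.dist_le q).trans hq.le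
        rw [hj, hp1] at h3
        omega
      -- `y ^ n` fixes `p 1`
      have hyg : y ^ n • g • c = g • c := by
        rw [← he, mul_smul, mul_smul, inv_smul_smul, hfz x hx m]
      have hyp : y ^ n • p 1 = p 1 := hp3 (y ^ n) (hfz y hy n) hyg 1
      have hyn : ¬ IsOfFinOrder (y ^ n) := not_fin_zpow (hinf y hy) hn
      -- the two cases
      obtain ⟨h, hh | hh⟩ : ∃ h : G, (h • c = c ∧ p 1 = (h * t) • c) ∨ (h • c = c ∧ p 1 = (h * t⁻¹) • c) := by
        obtain ⟨h, ⟨e1, e2⟩ | ⟨e1, e2⟩⟩ := hL.edge c (p 1) hadj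
        · exact ⟨h, Or.inl ⟨e1.symm, by rw [mul_smul]; exact e2⟩⟩
        · refine ⟨h * t, Or.inr ⟨by rw [mul_smul]; exact e2.symm, ?_⟩⟩
          rw [mul_assoc, mul_inv_cancel, mul_one]
          exact e1
      · obtain ⟨hc1, hc2⟩ := hh
        have hci : h⁻¹ • c = c := by rw [inv_smul_eq_iff, hc1]
        have hu1 : (h⁻¹ * y ^ n * h) • c = c := by
          rw [mul_smul, mul_smul, hc1, hfz y hy n, hci]
        have hu2 : (h⁻¹ * y ^ n * h) • t • c = t • c := by
          have e1 : h • t • c = p 1 := by rw [hc2, mul_smul]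
          rw [mul_smul, mul_smul, e1, hyp, ← e1, inv_smul_smul]
        obtain ⟨a, b, ha, hb, hab⟩ := vc_pow hV (z := h⁻¹ * y ^ n * h) (w := w0) ⟨hu1, hu2⟩ ⟨h1, h2⟩
          (hcj h _ hyn) h0
        have hab' : h⁻¹ * y ^ (n * a) * h⁻¹⁻¹ = w0 ^ b := by
          rw [← hab, zpow_mul, inv_inv]
          have := @conj_zpow' G _ h⁻¹ (y ^ n) a
          rw [inv_inv] at this
          rw [this]
        have e1 : |n * a| = |b| := hzero h⁻¹ y w0 (n * a) b hci hy (Or.inl rfl) (mul_ne_zero hn ha) hb hab'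
        have e2 : |m * a| = |b| := by
          refine ih ((h * t)⁻¹ * g) x v0 (m * a) b ?_ hx (Or.inr rfl) (mul_ne_zero hm ha) hb ?_
          · have e3 := dist_smul hX (h * t) c (((h * t)⁻¹ * g) • c)
            rw [← e3, smul_smul, mul_inv_cancel_left, ← hc2]
            exact hd1
          · rw [lb_conj he (h * t)⁻¹ a]
            have e4 : v0 ^ b = t⁻¹ * w0 ^ b * t⁻¹⁻¹ := by
              rw [← conj_zpow', inv_inv, ← hv0]
            rw [e4, ← hab']
            group
        exact lb_abs ha e1 e2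
      · obtain ⟨hc1, hc2⟩ := hh
        have hci : h⁻¹ • c = c := by rw [inv_smul_eq_iff, hc1]
        have hu1 : (t * (h⁻¹ * y ^ n * h) * t⁻¹) • c = c := by
          have e1 : h • t⁻¹ • c = p 1 := by rw [hc2, mul_smul]
          rw [mul_smul, mul_smul, mul_smul, mul_smul, e1, hyp, ← e1, inv_smul_smul, smul_inv_smul]
        have hu2 : (t * (h⁻¹ * y ^ n * h) * t⁻¹) • t • c = t • c := by
          rw [mul_smul, mul_smul, inv_smul_smul, mul_smul, mul_smul, hc1, hfz y hy n, hci]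
        have hui : ¬ IsOfFinOrder (t * (h⁻¹ * y ^ n * h) * t⁻¹) := by
          have := hcj t⁻¹ _ (hcj h _ hyn)
          rwa [inv_inv] at this
        obtain ⟨a, b, ha, hb, hab⟩ := vc_pow hV (z := t * (h⁻¹ * y ^ n * h) * t⁻¹) (w := w0) ⟨hu1, hu2⟩ ⟨h1, h2⟩
          hui h0
        have hab' : h⁻¹ * y ^ (n * a) * h⁻¹⁻¹ = v0 ^ b := by
          have e4 : v0 ^ b = t⁻¹ * w0 ^ b * t⁻¹⁻¹ := by
            rw [← conj_zpow', inv_inv, ← hv0]
          rw [e4, ← hab, conj_zpow', zpow_mul]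
          have := @conj_zpow' G _ h⁻¹ (y ^ n) a
          rw [inv_inv] at this
          rw [this]
          group
        have e1 : |n * a| = |b| := hzero h⁻¹ y v0 (n * a) b hci hy (Or.inr rfl) (mul_ne_zero hn ha) hb hab'
        have e2 : |m * a| = |b| := by
          refine ih ((h * t⁻¹)⁻¹ * g) x w0 (m * a) b ?_ hx (Or.inl rfl) (mul_ne_zero hm ha) hb ?_
          · have e3 := dist_smul hX (h * t⁻¹) c (((h * t⁻¹)⁻¹ * g) • c)
            rw [← e3, smul_smul, mul_inv_cancel_left, ← hc2]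
            exact hd1
          · rw [lb_conj he (h * t⁻¹)⁻¹ a]
            have e4 : w0 ^ b = t * v0 ^ b * t⁻¹ := by
              rw [← conj_zpow', ← hw0]
            rw [e4, ← hab']
            group
        exact lb_abs ha e1 e2
  intro g m n hm hn he
  exact key _ g w0 w0 m n le_rfl (Or.inl rfl) (Or.inl rfl) hm hn he

end Pool.Agent.H76.VC
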