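import Pool.Agent.H76.VC.HNB

/-!
# The tree of an HNN extension (module VC HN, first part: `exists_loop`; helper98)

As in `Pool/Agent/H63/RK/Tree.lean` (the side function is copied from there). Vertices: the cosets of the base; `c` is the base,
`g` and `g * t` span an edge. An element `of x` which fixes `t • c` is in `of '' B`: otherwise the side function takes the same
value at `of x * t` and `of x`, but `of x * t = t * of y`.
-/

set_option autoImplicit false

namespace Pool.Agent.H76.VC

open Pool.Agent.H98.FJ Pool.Agent.H93.TR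

section side

open HNNExtension HNNExtension.NormalWord

variable {G : Type*} [Group G] {A B : Subgroup G} (φ : A ≃* B)

/-- the letters of `unitsSMul` if there is no cancellation -/
private theorem list_add {d : TransversalPair G A B} (u : ℤˣ) (w : NormalWord d)
    (h : ¬ Cancels u w) :
    (unitsSMul φ u w).toList = (u, (((d.compl u).equiv w.head).2 : G)) :: w.toList := by
  unfold unitsSMul
  rw [dif_neg h]
  simp only [cons_toList, group_smul_head, group_smul_toList, inv_mul_cancel_right]
  rw [unitsSMulGroup_snd]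

/-- the letters of `unitsSMul` if there is a cancellation -/
private theorem list_can {d : TransversalPair G A B} (u : ℤˣ) (w : NormalWord d)
    (h : Cancels u w) : ∃ g : G, w.toList = (-u, g) :: (unitsSMul φ u w).toList := by
  have h' := h
  unfold unitsSMul
  rw [dif_pos h]
  induction w using consRecOn with
  | ofGroup g => exact absurd h'.2 (by simp)
  | cons g u' w h1 h2 _ =>
    have h3 : u' = -u := by
      have := h'.2
      simpa using this
    subst h3
    refine ⟨w.head, ?_⟩
    simp [unitsSMulWithCancel]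

/-- the side function -/
private theorem side (A B : Subgroup G) (φ : A ≃* B) :
    ∃ σ : HNNExtension G A B φ → Prop, (∀ (d : HNNExtension G A B φ) (b : G), σ (d * of b) ↔ σ d) ∧
      (∀ d : HNNExtension G A B φ, (¬ ∃ b ∈ B, d = of b) → (σ (d * t) ↔ σ d)) ∧ σ t ∧ ¬ σ 1 := by
  classical
  choose T hT using fun u : ℤˣ => (toSubgroup A B u).exists_isComplement_right 1
  obtain ⟨D, hD⟩ : ∃ D : TransversalPair G A B, ∀ u, (1 : G) ∈ D.set u :=
    ⟨⟨T, fun u => (hT u).1⟩, fun u => (hT u).2⟩
  have hone : ∀ (u : ℤˣ) (g : G), (((D.compl u).equiv g).2 : G) = 1 ↔ g ∈ toSubgroup A B u := by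
    intro u g
    constructor
    · intro h
      have h1 := (D.compl u).equiv_fst_mul_equiv_snd g
      rw [h, mul_one] at h1
      rw [← h1]
      exact ((D.compl u).equiv g).1.2
    · intro h
      exact (D.compl u).coe_equiv_snd_eq_one_iff_mem (hD u) |>.2 h
  let W : HNNExtension G A B φ → NormalWord D := fun x => x • (empty : NormalWord D)
  refine ⟨fun x => (W x⁻¹).toList.getLast? = some ((-1 : ℤˣ), (1 : G)), ?_, ?_, ?_, ?_⟩
  · intro x b
    show (W (x * of b)⁻¹).toList.getLast? = _ ↔ (W x⁻¹).toList.getLast? = _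
    have e : W (x * of b)⁻¹ = (b⁻¹ : G) • W x⁻¹ := by
      show (x * of b)⁻¹ • (empty : NormalWord D) = _
      rw [mul_inv_rev, mul_smul, ← map_inv, of_smul_eq_smul]
    rw [e, group_smul_toList]
  · intro x hx
    show (W (x * t)⁻¹).toList.getLast? = _ ↔ (W x⁻¹).toList.getLast? = _
    have e : W (x * t)⁻¹ = unitsSMul φ (-1) (W x⁻¹) := by
      show (x * t)⁻¹ • (empty : NormalWord D) = _
      rw [mul_inv_rev, mul_smul, ← t_pow_smul_eq_unitsSMul]
      simp
      rfl
    rw [e]
    by_cases hc : Cancels (-1 : ℤˣ) (W x⁻¹)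
    · obtain ⟨g, hg⟩ := list_can φ (-1) (W x⁻¹) hc
      rw [hg]
      cases hl : (unitsSMul φ (-1) (W x⁻¹)).toList with
      | nil => simp
      | cons a l => simp [List.getLast?_cons_cons]
    · rw [list_add φ (-1) (W x⁻¹) hc]
      cases hl : (W x⁻¹).toList with
      | cons a l => simp [List.getLast?_cons_cons]
      | nil =>
        have hne : ((((D.compl (-1 : ℤˣ)).equiv (W x⁻¹).head).2 : G)) ≠ 1 := by
          intro h1
          rw [hone] at h1
          apply hx
          refine ⟨(W x⁻¹).head⁻¹, inv_mem h1, ?_⟩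
          have h2 : (W x⁻¹).prod φ = x⁻¹ := by
            show (x⁻¹ • (empty : NormalWord D)).prod φ = x⁻¹
            rw [prod_smul, prod_empty, mul_one]
          have h3 : (W x⁻¹).prod φ = of (W x⁻¹).head := by
            unfold ReducedWord.prod
            rw [hl]
            simp
          rw [map_inv, ← h3, h2, inv_inv]
        simp only [List.getLast?_singleton, Option.some.injEq, Prod.mk.injEq, true_and,
          List.getLast?_nil, reduceCtorEq, iff_false]
        exact hne
  · show (W t⁻¹).toList.getLast? = _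
    have e : W t⁻¹ = unitsSMul φ (-1) (empty : NormalWord D) := by
      show t⁻¹ • (empty : NormalWord D) = _
      rw [← t_pow_smul_eq_unitsSMul]
      simp
    have hc : ¬ Cancels (-1 : ℤˣ) (empty : NormalWord D) := by
      intro h
      have := h.2
      simp at this
    rw [e, list_add φ (-1) _ hc]
    simp only [empty_toList, List.getLast?_singleton, Option.some.injEq, Prod.mk.injEq, true_and]
    exact (hone _ _).2 (one_mem _)
  · show ¬ (W (1 : HNNExtension G A B φ)⁻¹).toList.getLast? = _
    have e : W (1 : HNNExtension G A B φ)⁻¹ = empty := by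
      show (1 : HNNExtension G A B φ)⁻¹ • (empty : NormalWord D) = _
      rw [inv_one, one_smul]
    rw [e]
    simp

end side

/-- the Bass-Serre tree of an HNN extension -/
theorem exists_loop {H : Type} [Group H] (A B : Subgroup H) (φ : A ≃* B) :
    ∃ (T : Type) (_ : MulAction (HNNExtension H A B φ) T) (X : SimpleGraph T) (c : T),
      Loop (HNNExtension H A B φ) X c HNNExtension.t ∧
      MulAction.stabilizer (HNNExtension H A B φ) c = (HNNExtension.of (φ := φ)).range ∧
      ∀ g : HNNExtension H A B φ, g • c = c →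
        g • (HNNExtension.t : HNNExtension H A B φ) • c = (HNNExtension.t : HNNExtension H A B φ) • c →
        ∃ b ∈ B, g = HNNExtension.of b := by
  classical
  obtain ⟨σ, hσ1, hσ2, hσ3, hσ4⟩ := side A B φ
  let D : Type := HNNExtension H A B φ
  let K : Subgroup (HNNExtension H A B φ) := (HNNExtension.of (φ := φ)).range
  have hK : ∀ a b : HNNExtension H A B φ, (QuotientGroup.mk a : HNNExtension H A B φ ⧸ K) = QuotientGroup.mk b ↔
      ∃ x : H, b = a * HNNExtension.of x := by
    intro a b
    rw [QuotientGroup.eq]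
    constructor
    · rintro ⟨x, hx⟩
      exact ⟨x, by rw [hx, mul_inv_cancel_left]⟩
    · rintro ⟨x, hx⟩
      exact ⟨x, by rw [hx, inv_mul_cancel_left]⟩
  let sgV : HNNExtension H A B φ ⧸ K → Prop := Quotient.lift σ (by
    intro a b hab
    have h1 : (QuotientGroup.mk a : HNNExtension H A B φ ⧸ K) = QuotientGroup.mk b := Quotient.sound hab
    obtain ⟨x, hx⟩ := (hK a b).1 h1
    rw [hx]
    exact propext (hσ1 a x).symm)
  have hsg : ∀ d : HNNExtension H A B φ, sgV (QuotientGroup.mk d) = σ d := fun d => rfl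
  have hsm : ∀ g d : HNNExtension H A B φ,
      g • (QuotientGroup.mk d : HNNExtension H A B φ ⧸ K) = QuotientGroup.mk (g * d) := fun g d => rfl
  have hne : ∀ d : HNNExtension H A B φ, (QuotientGroup.mk d : HNNExtension H A B φ ⧸ K) ≠
      QuotientGroup.mk (d * HNNExtension.t) := by
    intro d h
    obtain ⟨x, hx⟩ := (hK _ _).1 h
    have h1 : (HNNExtension.t : HNNExtension H A B φ) = 1 * HNNExtension.of x := by
      rw [one_mul]; exact mul_left_cancel hx
    have h2 := hσ1 1 x
    rw [← h1] at h2
    exact hσ4 (h2.1 hσ3)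
  let X : SimpleGraph (HNNExtension H A B φ ⧸ K) :=
    { Adj := fun v w => (∃ d : HNNExtension H A B φ, v = QuotientGroup.mk d ∧ w = QuotientGroup.mk (d * HNNExtension.t)) ∨
        (∃ d : HNNExtension H A B φ, w = QuotientGroup.mk d ∧ v = QuotientGroup.mk (d * HNNExtension.t))
      symm := ⟨fun v w h => h.symm⟩
      loopless := ⟨by
        rintro v (⟨d, h1, h2⟩ | ⟨d, h1, h2⟩) <;>
        · exact hne d (by rw [← h1, ← h2])⟩ }
  have hXadj : ∀ v w, X.Adj v w ↔
      (∃ d : HNNExtension H A B φ, v = QuotientGroup.mk d ∧ w = QuotientGroup.mk (d * HNNExtension.t)) ∨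
        (∃ d : HNNExtension H A B φ, w = QuotientGroup.mk d ∧ v = QuotientGroup.mk (d * HNNExtension.t)) :=
    fun v w => Iff.rfl
  have hXact : ∀ (g : HNNExtension H A B φ) (v w : HNNExtension H A B φ ⧸ K), X.Adj v w → X.Adj (g • v) (g • w) := by
    intro g v w h
    rw [hXadj] at h ⊢
    rcases h with ⟨d, h1, h2⟩ | ⟨d, h1, h2⟩
    · left
      exact ⟨g * d, by rw [h1, hsm], by rw [h2, hsm, mul_assoc]⟩
    · right
      exact ⟨g * d, by rw [h1, hsm], by rw [h2, hsm, mul_assoc]⟩
  have hreach : ∀ (g : HNNExtension H A B φ) (v w : HNNExtension H A B φ ⧸ K),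
      X.Reachable v w → X.Reachable (g • v) (g • w) := by
    intro g v w h
    let f : X →g X := ⟨fun v => g • v, fun {a b} hab => hXact g a b hab⟩
    exact h.map f
  have hconn : ∀ d : HNNExtension H A B φ, X.Reachable (QuotientGroup.mk 1) (QuotientGroup.mk d) := by
    intro d
    induction d using HNNExtension.induction_on with
    | of g =>
      have h1 : (QuotientGroup.mk 1 : HNNExtension H A B φ ⧸ K) = QuotientGroup.mk (HNNExtension.of g) :=
        (hK _ _).2 ⟨g, by rw [one_mul]⟩
      rw [← h1]
    | t =>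
      refine SimpleGraph.Adj.reachable ?_
      rw [hXadj]
      left
      exact ⟨1, rfl, by rw [one_mul]⟩
    | mul x y hx hy =>
      have h1 := hreach x _ _ hy
      rw [hsm, hsm, mul_one] at h1
      exact hx.trans h1
    | inv x hx =>
      have h1 := hreach x⁻¹ _ _ hx
      rw [hsm, hsm, mul_one, inv_mul_cancel] at h1
      exact h1.symm
  have hbridge : ∀ d : HNNExtension H A B φ, ¬ (X.deleteEdges {s((QuotientGroup.mk d : HNNExtension H A B φ ⧸ K),
      QuotientGroup.mk (d * HNNExtension.t))}).Reachable (QuotientGroup.mk d)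
      (QuotientGroup.mk (d * HNNExtension.t)) := by
    intro d hr
    have key : ∀ x y, (X.deleteEdges {s((QuotientGroup.mk d : HNNExtension H A B φ ⧸ K),
        QuotientGroup.mk (d * HNNExtension.t))}).Reachable x y → (sgV (d⁻¹ • x) ↔ sgV (d⁻¹ • y)) := by
      intro x y hxy
      obtain ⟨p⟩ := hxy
      induction p with
      | nil => rfl
      | cons hadj _ ih =>
        refine Iff.trans ?_ ih
        rw [SimpleGraph.deleteEdges_adj, Set.mem_singleton_iff] at hadj
        obtain ⟨h1, h2⟩ := hadj
        have hstep : ∀ e : HNNExtension H A B φ, s((QuotientGroup.mk e : HNNExtension H A B φ ⧸ K),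
            QuotientGroup.mk (e * HNNExtension.t)) ≠ s((QuotientGroup.mk d : HNNExtension H A B φ ⧸ K),
            QuotientGroup.mk (d * HNNExtension.t)) →
            (sgV (d⁻¹ • (QuotientGroup.mk e : HNNExtension H A B φ ⧸ K)) ↔
              sgV (d⁻¹ • (QuotientGroup.mk (e * HNNExtension.t) : HNNExtension H A B φ ⧸ K))) := by
          intro e he
          rw [hsm, hsm, hsg, hsg, ← mul_assoc]
          refine (hσ2 (d⁻¹ * e) ?_).symm
          rintro ⟨b, hb, hbe⟩
          apply he
          have e1 : e = d * HNNExtension.of b := by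
            rw [← hbe, mul_inv_cancel_left]
          have h3 := HNNExtension.of_mul_t (A := A) (B := B) (φ := φ) ⟨b, hb⟩
          have e2 : e * HNNExtension.t = d * HNNExtension.t * HNNExtension.of ((φ.symm ⟨b, hb⟩ : A) : H) := by
            rw [e1, mul_assoc, mul_assoc]
            congr 1
          have e3 : (QuotientGroup.mk e : HNNExtension H A B φ ⧸ K) = QuotientGroup.mk d :=
            ((hK _ _).2 ⟨b, e1⟩).symm
          have e4 : (QuotientGroup.mk (e * HNNExtension.t) : HNNExtension H A B φ ⧸ K) =
              QuotientGroup.mk (d * HNNExtension.t) := ((hK _ _).2 ⟨_, e2⟩).symm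
          rw [e3, e4]
        rw [hXadj] at h1
        rcases h1 with ⟨e, h3, h4⟩ | ⟨e, h3, h4⟩
        · rw [h3, h4] at h2 ⊢
          exact hstep e h2
        · rw [h3, h4] at h2 ⊢
          rw [Sym2.eq_swap] at h2
          exact (hstep e h2).symm
    have h1 := key _ _ hr
    rw [hsm, hsm, hsg, hsg, inv_mul_cancel, inv_mul_cancel_left] at h1
    exact hσ4 (h1.2 hσ3)
  have htree : X.IsTree := by
    refine ⟨?_, ?_⟩
    · have : Nonempty (HNNExtension H A B φ ⧸ K) := ⟨QuotientGroup.mk 1⟩
      refine SimpleGraph.Connected.mk ?_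
      intro v w
      induction v using QuotientGroup.induction_on with
      | H a =>
        induction w using QuotientGroup.induction_on with
        | H b => exact (hconn a).symm.trans (hconn b)
    · rw [SimpleGraph.isAcyclic_iff_forall_adj_isBridge]
      intro v w hvw
      rw [SimpleGraph.isBridge_iff]
      rw [hXadj] at hvw
      rcases hvw with ⟨d, h1, h2⟩ | ⟨d, h1, h2⟩
      · rw [h1, h2]
        exact hbridge d
      · rw [h1, h2, Sym2.eq_swap]
        intro h3
        exact hbridge d h3.symm
  have hstab : ∀ g : HNNExtension H A B φ, g • (QuotientGroup.mk 1 : HNNExtension H A B φ ⧸ K) = QuotientGroup.mk 1 ↔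
      ∃ x : H, g = HNNExtension.of x := by
    intro g
    rw [hsm, mul_one]
    constructor
    · intro h
      obtain ⟨x, hx⟩ := (hK _ _).1 h.symm
      exact ⟨x, by rw [hx, one_mul]⟩
    · rintro ⟨x, hx⟩
      exact ((hK _ _).2 ⟨x, by rw [hx, one_mul]⟩).symm
  refine ⟨HNNExtension H A B φ ⧸ K, inferInstance, X, QuotientGroup.mk 1, ⟨⟨htree, hXact⟩, ?_, ?_, ?_⟩, ?_, ?_⟩
  · rw [hXadj]
    left
    exact ⟨1, rfl, by rw [hsm, mul_one, one_mul]⟩
  · intro v w h
    rw [hXadj] at h
    rcases h with ⟨d, h1, h2⟩ | ⟨d, h1, h2⟩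
    · exact ⟨d, Or.inl ⟨by rw [h1, hsm, mul_one], by rw [h2, hsm, hsm, mul_one]⟩⟩
    · exact ⟨d, Or.inr ⟨by rw [h1, hsm, mul_one], by rw [h2, hsm, hsm, mul_one]⟩⟩
  · intro v
    induction v using QuotientGroup.induction_on with
    | H a => exact ⟨a, by rw [hsm, mul_one]⟩
  · ext g
    rw [MulAction.mem_stabilizer_iff, hstab]
    constructor
    · rintro ⟨x, hx⟩
      exact ⟨x, hx.symm⟩
    · rintro ⟨x, hx⟩
      exact ⟨x, hx.symm⟩
  · intro g h1 h2
    obtain ⟨x, rfl⟩ := (hstab g).1 h1
    rw [hsm, hsm, mul_one] at h2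
    obtain ⟨y, hy⟩ := (hK _ _).1 h2
    by_contra hb
    have h3 : ¬ ∃ b ∈ B, (HNNExtension.of x : HNNExtension H A B φ) = HNNExtension.of b := hb
    have h4 := hσ2 _ h3
    have h5 := hσ1 (HNNExtension.of x * HNNExtension.t) y
    rw [← hy] at h5
    have h6 := hσ1 1 x
    rw [one_mul] at h6
    exact hσ4 (h6.1 (h4.1 (h5.1 hσ3)))

end Pool.Agent.H76.VC
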